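import Pool.Agent.K6.H96.Trap
import Pool.Agent.TH146.MN.Rep
import Pool.Agent.TH366.RC.Corner
import Pool.Agent.TH207.NC.Sep

/-! Strips cut into triangles: one triangle with one arbitrary point. -/

set_option autoImplicit false

namespace Pool.Agent.K6.H90.ST

open Finset Pool.Agent.TH176.Nag Pool.Agent.TH146.MN

variable {ι : Type} {w : ι → ℕ}

/-- a trapezoid: the base `b`, the height `H`, the slope `δ` -/
def Zt (b δ H : ℝ) : Set (ℤ × ℤ) :=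
  {m | 0 ≤ m.1 ∧ 0 ≤ m.2 ∧ (m.2 : ℝ) ≤ H ∧ (m.1 : ℝ) + δ * m.2 ≤ b}

/-- a triangle with one arbitrary point of multiplicity at most half of the height -/
theorem cell_one [Fintype ι] {x : ι → ℝ} {M h p s : ℝ} {v : ℕ} (hs : 0 < s) (hM : 0 < M)
    (hMh : 2 * M ≤ h) (hp : 3 * h ≤ 2 * p) (hsum : p * h = M ^ 2 + ∑ i, x i ^ 2)
    (hU : UU' x (h / 2)) (hv : s * M ≤ v) (hw : ∀ i, s * x i < w i) :
    Pool.Agent.TH366.RC.T (fun o : Option ι => o.elim v w) (s * √(p * h)) 0 (p / h) := by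
  have hh : 0 < h := by linarith
  have hp0 : 0 < p := by linarith
  obtain ⟨Sx, hS⟩ : ∃ Sx : ℝ, Sx = ∑ i, x i ^ 2 := ⟨_, rfl⟩
  have hS0 : 0 < Sx := by
    rw [hS]
    nlinarith
  have hph : 0 < p * h := by positivity
  have hE : 0 < s * √(p * h) := by positivity
  have hρ : 3 ≤ 2 * (p / h) := by
    rw [← mul_div_assoc, le_div_iff₀ hh]; exact hp
  refine Pool.Agent.TH366.RC.T.nodeZ (μ := 2 * M / h) hE hρ ?_
  have hμ1 : 2 * M / h ≤ 1 := by rw [div_le_one hh]; exact hMh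
  have eσ : 2 * M / h + (4 * (p / h) - 2 * M / h) - (2 * M / h) ^ 2 = Sx / (h / 2) ^ 2 := by
    have : Sx = p * h - M ^ 2 := by rw [hS, hsum]; ring
    rw [this]
    field_simp
    ring
  refine Pool.Agent.TH366.RC.T.corner (E' := s * √Sx) (by positivity) hμ1 ?_ ?_ ?_ ?_
  · linarith
  · rw [eσ]; positivity
  · rw [eσ]
    have e1 : 2 * M / h + (4 * (p / h) - 2 * M / h) = 4 * (p / h) := by ring
    rw [e1]
    have e2 : √(p * h) * √(4 * (p / h)) = 2 * p := by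
      rw [← Real.sqrt_mul hph.le]
      have : p * h * (4 * (p / h)) = (2 * p) ^ 2 := by field_simp; ring
      rw [this]
      exact Real.sqrt_sq (by positivity)
    have e3 : √Sx * √(Sx / (h / 2) ^ 2) = 2 * Sx / h := by
      rw [← Real.sqrt_mul hS0.le]
      have : Sx * (Sx / (h / 2) ^ 2) = (2 * Sx / h) ^ 2 := by field_simp
      rw [this]
      exact Real.sqrt_sq (by positivity)
    have e4 : s * √(p * h) * √(4 * (p / h)) = 2 * s * p := by
      rw [mul_assoc, e2]; ring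
    have e5 : s * √Sx * √(Sx / (h / 2) ^ 2) = 2 * s * Sx / h := by
      rw [mul_assoc, e3]; ring
    rw [e4, e5]
    have e6 : 2 * M / h * (s * M) ≤ 2 * M / h * v :=
      mul_le_mul_of_nonneg_left hv (by positivity)
    have e7 : 2 * s * Sx / h = 2 * s * p - 2 * M / h * (s * M) := by
      have : Sx = p * h - M ^ 2 := by rw [hS, hsum]; ring
      rw [this]
      field_simp
    linarith
  · rw [eσ]
    have h1 := hU w s hs hw 0 (Sx / (h / 2) ^ 2) (by rw [← hS, zero_add])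
    rw [← hS] at h1
    exact h1

/-- a triangle without arbitrary points -/
theorem cell_zero [Fintype ι] {x : ι → ℝ} {h p s : ℝ} (hs : 0 < s) (hh : 0 < h)
    (hsum : p * h = ∑ i, x i ^ 2)
    (hU : UU' x h) (hw : ∀ i, s * x i < w i) :
    Pool.Agent.TH366.RC.T w (s * √(p * h)) 0 (p / h) := by
  have h1 := hU w s hs hw 0 (p / h) (by rw [← hsum, zero_add]; field_simp)
  rw [← hsum] at h1
  exact h1

/-- the last trapezoid -/
theorem trap_small [Fintype ι] {x : ι → ℝ} {b δ h s : ℝ} (hδ : 3 ≤ 2 * δ) (hh : 0 < h)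
    (hb : δ * h ≤ b) (hsum : ∑ i, x i ^ 2 = (2 * b - δ * h) * h) (hU : UU' x (h / 2))
    (hs : 0 < s) (hw : ∀ i, s * x i < w i) : Emp w (Zt (s * b) δ (s * h)) := by
  have hδ0 : 0 < δ := by linarith
  have hδh : 0 < δ * h := by positivity
  have hS0 : 0 < (2 * b - δ * h) * h := mul_pos (by linarith) hh
  refine Pool.Agent.K6.H96.Emp_trap (E := s * √((2 * b - δ * h) * h)) hδ (by positivity) ?_ ?_
    (by positivity) ?_
  · nlinarith
  · rw [mul_pow, Real.sq_sqrt hS0.le]; ring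
  · have h1 := hU w s hs hw 0 ((4 * (s * b) - 2 * δ * (s * h)) / (s * h / 2)) (by
      rw [hsum, zero_add]
      field_simp
      ring)
    rw [hsum] at h1
    exact h1

theorem Emp_rows {S S' : Set (ℤ × ℤ)} (hS : ∀ (a r T : ℤ) (k : ℕ), (a, r) ∈ S → (a + T, r) ∈ S →
    (k : ℤ) ≤ T → ((k : ℤ), r) ∈ S') (h : Emp w S') : Emp w S := by
  have h1 : Emp w {m : ℤ × ℤ | (m.2, -m.1) ∈ S'} := by
    refine h.comap 0 1 (-1) 0 0 0 (by norm_num) ?_
    rintro ⟨a, b⟩ hm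
    simpa using hm
  refine Emp_flat 0 (-1) 0 (-1) (by norm_num) ?_ h1
  rintro ⟨p1, p2⟩ T k k1 k2 hk
  have := hS p1 p2 T k k1 (by simpa using k2) hk
  simpa using this

/-- cutting a triangle off the trapezoid -/
theorem Zt_cut {κ : Type} [Finite ι] [Finite κ] {v : κ → ℕ} {b δ H p E : ℝ} (hH : 0 < H)
    (hp : 0 ≤ p) (hδ : 0 ≤ δ) (hE : 0 < E) (hE2 : E ^ 2 = p * H)
    (hT : Pool.Agent.TH366.RC.T w E 0 (p / H)) (hZ : Emp v (Zt b (δ + p / H) H)) :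
    Emp (Sum.elim w v) (Zt b δ H) := by
  obtain ⟨θ, hθ⟩ : ∃ θ : ℝ, θ = p / H := ⟨_, rfl⟩
  have hθ0 : 0 ≤ θ := by rw [hθ]; positivity
  have hθH : θ * H = p := by rw [hθ]; field_simp
  rw [← hθ] at hT hZ
  have hEθ : E * √θ = p := by
    have e1 : E = √(p * H) := by rw [← hE2]; exact (Real.sqrt_sq hE.le).symm
    rw [e1, ← Real.sqrt_mul (by positivity), hθ]
    have : p * H * (p / H) = p ^ 2 := by field_simp
    rw [this]
    exact Real.sqrt_sq hp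
  obtain ⟨S, hS⟩ : ∃ S : Set (ℤ × ℤ), S = {m : ℤ × ℤ | 0 ≤ m.1 ∧ 0 ≤ m.2 ∧ (m.2 : ℝ) ≤ H ∧
      (m.1 : ℝ) - θ * m.2 < 0} := ⟨_, rfl⟩
  obtain ⟨T, hT'⟩ : ∃ T : Set (ℤ × ℤ), T = {m : ℤ × ℤ | 0 ≤ m.2 ∧ (m.2 : ℝ) ≤ H ∧
      0 ≤ (m.1 : ℝ) - θ * m.2 ∧ (m.1 : ℝ) + δ * m.2 ≤ b} := ⟨_, rfl⟩
  have hEmpS : Emp w S := by
    have h1 := hT 0
    rw [zero_add, zero_add, hEθ] at h1
    refine h1.comap 1 0 0 (-1) 0 ⌊H⌋ (by norm_num) ?_
    rintro ⟨m1, m2⟩ hm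
    rw [hS] at hm
    obtain ⟨k1, k2, k3, k4⟩ := hm
    simp only at k1 k2 k3 k4
    have c1 : m2 ≤ ⌊H⌋ := Int.le_floor.2 k3
    have c2 := Int.floor_le H
    have c3 : (0 : ℝ) ≤ m1 := by exact_mod_cast k1
    refine ⟨by simp only; omega, ?_, ?_⟩
    · simp only
      push_cast
      linarith
    · simp only
      push_cast
      have : θ * (⌊H⌋ : ℝ) ≤ θ * H := mul_le_mul_of_nonneg_left c2 hθ0
      linarith
  have hEmpT : Emp v T := by
    refine Emp_rows ?_ hZ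
    intro a r t k k1 k2 hk
    rw [hT'] at k1 k2
    obtain ⟨a1, a2, a3, a4⟩ := k1
    obtain ⟨b1, b2, b3, b4⟩ := k2
    simp only at a1 a2 a3 a4 b1 b2 b3 b4
    push_cast at b4
    have c1 : (k : ℝ) ≤ t := by exact_mod_cast hk
    refine ⟨by simp, a1, a2, ?_⟩
    simp only
    rw [Int.cast_natCast]
    linarith
  have hfS : S.Finite := by
    refine ((Set.finite_Icc (0 : ℤ) ⌊p⌋).prod (Set.finite_Icc (0 : ℤ) ⌊H⌋)).subset ?_
    rintro ⟨m1, m2⟩ hm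
    rw [hS] at hm
    obtain ⟨k1, k2, k3, k4⟩ := hm
    simp only at k1 k2 k3 k4
    refine ⟨⟨k1, Int.le_floor.2 ?_⟩, ⟨k2, Int.le_floor.2 k3⟩⟩
    simp only
    have : θ * (m2 : ℝ) ≤ θ * H := mul_le_mul_of_nonneg_left k3 hθ0
    linarith
  have hfT : T.Finite := by
    refine ((Set.finite_Icc (0 : ℤ) ⌊b⌋).prod (Set.finite_Icc (0 : ℤ) ⌊H⌋)).subset ?_
    rintro ⟨m1, m2⟩ hm
    rw [hT'] at hm
    obtain ⟨k1, k2, k3, k4⟩ := hm
    simp only at k1 k2 k3 k4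
    have c1 : (0 : ℝ) ≤ m2 := by exact_mod_cast k1
    have c2 : 0 ≤ θ * m2 := by positivity
    have c3 : 0 ≤ δ * m2 := by positivity
    refine ⟨⟨?_, Int.le_floor.2 ?_⟩, ⟨k1, Int.le_floor.2 k2⟩⟩
    · have : (0 : ℝ) ≤ m1 := by linarith
      exact_mod_cast this
    · simp only
      linarith
  have h1 := Pool.Agent.TH207.NC.Emp_sep hfS hfT θ 0 (fun m hm => by rw [hS] at hm; exact hm.2.2.2)
    (fun m hm => by rw [hT'] at hm; exact hm.2.2.1) hEmpS hEmpT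
  refine h1.mono ?_
  rintro ⟨m1, m2⟩ ⟨k1, k2, k3, k4⟩
  simp only at k1 k2 k3 k4
  rcases lt_or_ge ((m1 : ℝ) - θ * m2) 0 with h | h
  · left
    rw [hS]
    exact ⟨k1, k2, k3, h⟩
  · right
    rw [hT']
    exact ⟨k2, k3, h, k4⟩

end Pool.Agent.K6.H90.ST
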