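import Pool.Agent.K6.H90.ST.Form
import Pool.Agent.R355.ConeAct
import Pool.Agent.W649.ZL.Avoid

/-! Nef classes: the quadratic transformation and an auxiliary point. -/

set_option autoImplicit false

namespace Pool.Agent.K6.H90.ST

open Finset Pool.Agent.W609 Pool.Agent.W609.CR Pool.Agent.TH167 Pool.Agent.TH167.SH
open Pool.Agent.R355.ConeAct
open Pool.Agent.Results.MP_309968_ag.BoundaryRays (MultGE)

theorem dot_exc {n : ℕ} (x : Fin n → ℝ) (c : ℝ) (j : Fin n) :
    dot (c, x) ((0 : ℝ), (Pi.single j (-1 : ℝ) : Fin n → ℝ)) = x j := by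
  unfold dot
  simp only [mul_zero, zero_sub]
  rw [Finset.sum_eq_single j]
  · rw [Pi.single_eq_same]
    ring
  · intro l _ hl
    rw [Pi.single_eq_of_ne hl, mul_zero]
  · intro h
    exact absurd (Finset.mem_univ j) h

theorem curve_of_form {n : ℕ} {p : Fin n → Fin 2 → ℂ} {x : Fin n → ℝ} {c : ℝ}
    (hx : ∀ i, 0 ≤ x i)
    (h : ∀ (F : MvPolynomial (Fin 3) ℂ) (e : ℕ) (m : Fin n → ℕ), F.IsHomogeneous e → F ≠ 0 →
      (∀ i, MultGE (p i) F (m i)) → ∑ i, x i * (m i : ℝ) ≤ c * e) :
    ∀ v ∈ curveClasses p, 0 ≤ dot (c, x) v := by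
  rintro v (⟨G, d, w, hG, rfl⟩ | ⟨j, rfl⟩)
  · obtain ⟨c1, c2, c3⟩ := SH.curve_iff.1 hG
    have hmult := (Pool.Agent.Y939.XN.mult_iff c2 w).2 fun i => (c3 i).1
    have := h G d w c2 c1.ne_zero hmult
    unfold dot
    simp only
    linarith
  · rw [dot_exc]
    exact hx j

/-- the inequalities for the curves, in the two basic cases -/
def FormOK {n : ℕ} (p : Fin n → Fin 2 → ℂ) : Prop :=
  ∀ (x : Fin n → ℝ), (∀ i, 0 ≤ x i) →
    (∀ (i0 : Fin n) (c : ℝ), 0 < x i0 → x i0 < c → ∑ i, x i ^ 2 = c ^ 2 →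
      Room (univ.erase i0) x (c - x i0) (x i0) → ∀ v ∈ curveClasses p, 0 ≤ dot (c, x) v) ∧
    (∀ i0 i1 : Fin n, i1 ≠ i0 → 0 < x i0 → 0 < x i1 → ∑ i, x i ^ 2 = (x i0 + x i1) ^ 2 →
      Room ((univ.erase i0).erase i1) x (x i1) (x i0) →
      ∀ v ∈ curveClasses p, 0 ≤ dot (x i0 + x i1, x) v)

theorem exists_formOK (n : ℕ) : ∃ f : ℕ → MvPolynomial (Fin n × Fin 2) ℂ, (∀ k, f k ≠ 0) ∧
    ∀ p : Fin n → Fin 2 → ℂ,
      (∀ k, MvPolynomial.eval (fun q : Fin n × Fin 2 => p q.1 q.2) (f k) ≠ 0) → FormOK p := by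
  obtain ⟨f, hf, h⟩ := form_strip n
  refine ⟨f, hf, fun p hp x hx => ⟨?_, ?_⟩⟩
  · intro i0 c h0 h1 hsq hr
    exact curve_of_form hx ((h p hp x hx).1 i0 c h0 h1 hsq hr)
  · intro i0 i1 h01 h0 h1 hsq hr
    exact curve_of_form hx ((h p hp x hx).2 i0 i1 h01 h0 h1 hsq hr)

/-- Let `h = c - x i0`. The further coefficients satisfy `x i ≤ h` and `x i + x j ≤ h`, and
`2 (k + 1) h ^ 2 + 16 r W ^ 2 ≤ x i0 h` for some `W > 0` with `16 W ≤ h`, where `k` is the number of
the further coefficients greater than `W` and `r` the number of the distinct nonzero further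
coefficients at most `W`. -/
def StripClass {n : ℕ} (i0 : Fin n) (x : Fin n → ℝ) (c : ℝ) : Prop :=
  (∀ i, i ≠ i0 → x i ≤ c - x i0) ∧
  (∀ i j, i ≠ i0 → j ≠ i0 → i ≠ j → x i + x j ≤ c - x i0) ∧
  ∃ W : ℝ, 0 < W ∧ 16 * W ≤ c - x i0 ∧
    ((((univ.erase i0).filter fun i => W < x i).card : ℝ) + 1) * (2 * (c - x i0) ^ 2) +
      16 * ((((univ.erase i0).filter fun i => 0 < x i ∧ x i ≤ W).image x).card : ℝ) * W ^ 2 ≤
        x i0 * (c - x i0)

/-- the theorem if one of the coefficients is zero -/
theorem curves_zero {n : ℕ} {p : Fin n → Fin 2 → ℂ}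
    (hP : AlgebraicIndependent ℚ (fun ij : Fin n × Fin 2 => p ij.1 ij.2)) (hF : FormOK p)
    {x : Fin n → ℝ} {c : ℝ} (hx : ∀ i, 0 ≤ x i) (hsq : ∑ i, x i ^ 2 = c ^ 2) {i0 : Fin n}
    (hS : StripClass i0 x c) {j : Fin n} (hj : x j = 0) :
    ∀ v ∈ curveClasses p, 0 ≤ dot (c, x) v := by
  classical
  obtain ⟨h1, h2, W, hW, hWh, hroom⟩ := hS
  obtain ⟨h, hh⟩ : ∃ h, h = c - x i0 := ⟨_, rfl⟩
  rw [← hh] at hWh hroom
  have h1 : ∀ i, i ≠ i0 → x i ≤ h := fun i hi => by rw [hh]; exact h1 i hi
  have h2 : ∀ i j, i ≠ i0 → j ≠ i0 → i ≠ j → x i + x j ≤ h := fun i j hi hj hij => by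
    rw [hh]; exact h2 i j hi hj hij
  have hh0 : 0 < h := by linarith
  have hx0 : 0 < x i0 := by
    by_contra hcon
    have e1 : x i0 * h ≤ 0 := mul_nonpos_of_nonpos_of_nonneg (not_lt.1 hcon) hh0.le
    have e2 : 0 < ((((univ.erase i0).filter fun i => W < x i).card : ℝ) + 1) * (2 * h ^ 2) +
      16 * ((((univ.erase i0).filter fun i => 0 < x i ∧ x i ≤ W).image x).card : ℝ) * W ^ 2 := by
      positivity
    linarith
  by_cases hcase : ∀ i ∈ univ.erase i0, 2 * x i ≤ h
  · exact (hF x hx).1 i0 c hx0 (by linarith) hsq (by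
      rw [← hh]; exact ⟨W, hW, hWh, hcase, hroom⟩)
  push Not at hcase
  obtain ⟨i1, hi1, hx1⟩ := hcase
  have h10 : i1 ≠ i0 := (Finset.mem_erase.1 hi1).1
  have hj0 : j ≠ i0 := fun e => by rw [e] at hj; linarith
  have hj1 : j ≠ i1 := fun e => by rw [e] at hj; linarith
  obtain ⟨δ, hδ⟩ : ∃ δ, δ = h - x i1 := ⟨_, rfl⟩
  have hδ0 : 0 ≤ δ := by
    have := h1 i1 h10
    linarith
  -- the reflection
  obtain ⟨i, hi⟩ : ∃ i : Fin 3 → Fin n, i = ![i0, i1, j] := ⟨_, rfl⟩
  have hi0 : i 0 = i0 := by rw [hi]; rfl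
  have hi1' : i 1 = i1 := by rw [hi]; rfl
  have hi2 : i 2 = j := by rw [hi]; rfl
  have hinj : Function.Injective i := by
    rw [hi]
    exact inj_cons h10.symm hj0.symm hj1.symm
  have hdel : del i (c, x) = δ := by
    unfold del
    rw [hi0, hi1', hi2]
    simp only
    rw [hj]
    linarith
  obtain ⟨x', hx'⟩ : ∃ x' : Fin n → ℝ, x' = (refl i (c, x)).2 := ⟨_, rfl⟩
  have hxe : ∀ l, x' l = x l + δ * ind i l := fun l => by rw [hx', refl_snd, hdel]
  obtain ⟨b0, b1, b2⟩ := ind_base i
  rw [hi0] at b0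
  rw [hi1'] at b1
  rw [hi2] at b2
  have hx'0 : x' i0 = x i0 + δ := by rw [hxe, b0, mul_one]
  have hx'1 : x' i1 = h := by rw [hxe, b1, mul_one, hδ]; ring
  have hx'j : x' j = δ := by rw [hxe, b2, mul_one, hj, zero_add]
  have hx'l : ∀ l, l ≠ i0 → l ≠ i1 → l ≠ j → x' l = x l := fun l l0 l1 l2 => by
    rw [hxe]
    have : ind i l = 0 := by
      unfold ind
      rw [hi0, hi1', hi2]
      exact if_neg (by tauto)
    rw [this, mul_zero, add_zero]
  have hcl : refl i (c, x) = (x' i0 + x' i1, x') := by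
    refine Prod.ext ?_ ?_
    · rw [refl_fst, hdel, hx'0, hx'1]
      show c + δ = _
      linarith
    · exact hx'.symm
  have hx'nn : ∀ l, 0 ≤ x' l := fun l => by
    rw [hxe]
    have e1 : 0 ≤ ind i l := by
      unfold ind
      split_ifs <;> norm_num
    have := hx l
    positivity
  have hsq' : ∑ l, x' l ^ 2 = (x' i0 + x' i1) ^ 2 := by
    have e1 := dot_refl hinj (c, x) (c, x)
    rw [hcl] at e1
    unfold dot at e1
    simp only at e1
    have e2 : ∑ l, x' l ^ 2 = ∑ l, x' l * x' l := Finset.sum_congr rfl fun l _ => sq _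
    have e3 : ∑ l, x l ^ 2 = ∑ l, x l * x l := Finset.sum_congr rfl fun l _ => sq _
    rw [e2]
    rw [e3] at hsq
    linarith
  have hroom' : Room ((univ.erase i0).erase i1) x' (x' i1) (x' i0) := by
    rw [hx'1]
    refine ⟨W, hW, hWh, fun l hl => ?_, ?_⟩
    · have l1 := (Finset.mem_erase.1 hl).1
      have l0 := (Finset.mem_erase.1 (Finset.mem_erase.1 hl).2).1
      by_cases lj : l = j
      · rw [lj, hx'j]
        linarith
      · rw [hx'l l l0 l1 lj]
        have := h2 l i1 l0 h10 l1
        linarith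
    · obtain ⟨P, hPd⟩ : ∃ P : Finset (Fin n), P = (univ.erase i0).filter fun i => W < x i :=
        ⟨_, rfl⟩
      obtain ⟨P', hPd'⟩ : ∃ P' : Finset (Fin n),
        P' = ((univ.erase i0).erase i1).filter fun i => W < x' i := ⟨_, rfl⟩
      obtain ⟨I, hI⟩ : ∃ I : Finset ℝ,
        I = ((univ.erase i0).filter fun i => 0 < x i ∧ x i ≤ W).image x := ⟨_, rfl⟩
      obtain ⟨I', hI'⟩ : ∃ I' : Finset ℝ,
        I' = (((univ.erase i0).erase i1).filter fun i => 0 < x' i ∧ x' i ≤ W).image x' := ⟨_, rfl⟩
      rw [← hPd, ← hI] at hroom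
      rw [← hPd', ← hI', hx'0]
      have hi1P : i1 ∈ P := by
        rw [hPd, Finset.mem_filter]
        exact ⟨hi1, by linarith⟩
      have hPsub : ∀ l ∈ P', l ≠ j → l ∈ P.erase i1 := fun l hl lj => by
        rw [hPd', Finset.mem_filter] at hl
        have l1 := (Finset.mem_erase.1 hl.1).1
        have l0 := (Finset.mem_erase.1 (Finset.mem_erase.1 hl.1).2).1
        rw [hx'l l l0 l1 lj] at hl
        rw [Finset.mem_erase, hPd, Finset.mem_filter]
        exact ⟨l1, (Finset.mem_erase.1 hl.1).2, hl.2⟩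
      have hIsub : ∀ t ∈ I', t ∈ I ∨ (t = δ ∧ δ ≤ W) := fun t ht => by
        rw [hI', Finset.mem_image] at ht
        obtain ⟨l, hl, rfl⟩ := ht
        rw [Finset.mem_filter] at hl
        have l1 := (Finset.mem_erase.1 hl.1).1
        have l0 := (Finset.mem_erase.1 (Finset.mem_erase.1 hl.1).2).1
        by_cases lj : l = j
        · right
          rw [lj] at hl ⊢
          rw [hx'j] at hl ⊢
          exact ⟨rfl, hl.2.2⟩
        · left
          rw [hx'l l l0 l1 lj] at hl ⊢
          rw [hI, Finset.mem_image]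
          exact ⟨l, Finset.mem_filter.2 ⟨(Finset.mem_erase.1 hl.1).2, hl.2⟩, rfl⟩
      have hPc : (P.erase i1).card + 1 = P.card := Finset.card_erase_add_one hi1P
      have hW2 : 256 * W ^ 2 ≤ h ^ 2 := by nlinarith
      have hδh : 0 ≤ δ * h := by positivity
      have hmain : ((P'.card : ℝ) + 1) * (2 * h ^ 2) + 16 * (I'.card : ℝ) * W ^ 2 ≤
          ((P.card : ℝ) + 1) * (2 * h ^ 2) + 16 * (I.card : ℝ) * W ^ 2 := by
        rcases lt_or_ge W δ with hWδ | hWδ
        · have c1 : P'.card ≤ P.card := by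
            have : P' ⊆ insert j (P.erase i1) := fun l hl => by
              by_cases lj : l = j
              · rw [lj]
                exact Finset.mem_insert_self _ _
              · exact Finset.mem_insert_of_mem (hPsub l hl lj)
            have := (Finset.card_le_card this).trans (Finset.card_insert_le _ _)
            omega
          have c2 : I'.card ≤ I.card := Finset.card_le_card fun t ht => by
            rcases hIsub t ht with h | h
            · exact h
            · linarith [h.2]
          have c1R : (P'.card : ℝ) ≤ P.card := by exact_mod_cast c1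
          have c2R : (I'.card : ℝ) ≤ I.card := by exact_mod_cast c2
          have d1 : ((P'.card : ℝ) + 1) * (2 * h ^ 2) ≤ ((P.card : ℝ) + 1) * (2 * h ^ 2) :=
            mul_le_mul_of_nonneg_right (by linarith) (by positivity)
          have d2 : 16 * (I'.card : ℝ) * W ^ 2 ≤ 16 * (I.card : ℝ) * W ^ 2 :=
            mul_le_mul_of_nonneg_right (by linarith) (by positivity)
          linarith
        · have c1 : P'.card + 1 ≤ P.card := by
            have : P' ⊆ P.erase i1 := fun l hl => by
              by_cases lj : l = j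
              · exfalso
                rw [hPd', Finset.mem_filter, lj, hx'j] at hl
                linarith [hl.2]
              · exact hPsub l hl lj
            have := Finset.card_le_card this
            omega
          have c2 : I'.card ≤ I.card + 1 := by
            have : I' ⊆ insert δ I := fun t ht => by
              rcases hIsub t ht with h | h
              · exact Finset.mem_insert_of_mem h
              · rw [h.1]
                exact Finset.mem_insert_self _ _
            exact (Finset.card_le_card this).trans (Finset.card_insert_le _ _)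
          have c1R : (P'.card : ℝ) + 1 ≤ P.card := by exact_mod_cast c1
          have c2R : (I'.card : ℝ) ≤ I.card + 1 := by exact_mod_cast c2
          have d1 : ((P'.card : ℝ) + 1) * (2 * h ^ 2) ≤ (P.card : ℝ) * (2 * h ^ 2) :=
            mul_le_mul_of_nonneg_right c1R (by positivity)
          have d2 : 16 * (I'.card : ℝ) * W ^ 2 ≤ 16 * ((I.card : ℝ) + 1) * W ^ 2 :=
            mul_le_mul_of_nonneg_right (by linarith) (by positivity)
          nlinarith
      have e5 : (x i0 + δ) * h = x i0 * h + δ * h := by ring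
      rw [e5]
      linarith
  intro v hv
  have e1 := (hF x' hx'nn).2 i0 i1 h10 (by rw [hx'0]; linarith) (by rw [hx'1]; exact hh0) hsq'
    hroom' (refl i v) (gen_refl hP hinj hv)
  rw [← hcl, dot_refl hinj] at e1
  exact e1

/-- the coefficient zero at a further point -/
theorem StripClass.snoc {n : ℕ} {i0 : Fin n} {x : Fin n → ℝ} {c : ℝ}
    (hS : StripClass i0 x c) :
    StripClass i0.castSucc (Fin.snoc x 0 : Fin (n + 1) → ℝ) c := by
  classical
  obtain ⟨h1, h2, W, hW, hWh, hroom⟩ := hS
  have e0 : ∀ i : Fin n, (Fin.snoc x 0 : Fin (n + 1) → ℝ) i.castSucc = x i := fun i => by simp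
  have el : (Fin.snoc x 0 : Fin (n + 1) → ℝ) (Fin.last n) = 0 := by simp
  obtain ⟨X, hX⟩ : ∃ X : Fin (n + 1) → ℝ, X = Fin.snoc x 0 := ⟨_, rfl⟩
  rw [← hX] at e0 el ⊢
  refine ⟨?_, ?_, W, hW, by rw [e0]; exact hWh, ?_⟩
  · intro i hi
    rw [e0]
    induction i using Fin.lastCases with
    | last => rw [el]; linarith
    | cast i =>
      rw [e0]
      exact h1 i fun h => hi (by rw [h])
  · intro i j hi hj hij
    rw [e0]
    induction i using Fin.lastCases with
    | last =>
      rw [el]
      induction j using Fin.lastCases with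
      | last => exact absurd rfl hij
      | cast j =>
        rw [e0, zero_add]
        exact h1 j fun h => hj (by rw [h])
    | cast i =>
      rw [e0]
      induction j using Fin.lastCases with
      | last =>
        rw [el, add_zero]
        exact h1 i fun h => hi (by rw [h])
      | cast j =>
        rw [e0]
        exact h2 i j (fun h => hi (by rw [h])) (fun h => hj (by rw [h]))
          fun h => hij (by rw [h])
  · rw [e0]
    refine le_trans ?_ hroom
    have c1 : ((univ.erase i0.castSucc).filter fun i => W < X i).card ≤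
        ((univ.erase i0).filter fun i => W < x i).card := by
      have : ((univ.erase i0.castSucc).filter fun i => W < X i) ⊆
          ((univ.erase i0).filter fun i => W < x i).image Fin.castSucc := by
        intro i hi
        rw [Finset.mem_filter, Finset.mem_erase] at hi
        induction i using Fin.lastCases with
        | last => exact absurd hi.2 (by rw [el]; linarith)
        | cast i =>
          rw [e0] at hi
          refine Finset.mem_image.2 ⟨i, ?_, rfl⟩
          rw [Finset.mem_filter, Finset.mem_erase]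
          exact ⟨⟨fun h => hi.1.1 (by rw [h]), Finset.mem_univ _⟩, hi.2⟩
      exact (Finset.card_le_card this).trans Finset.card_image_le
    have c2 : (((univ.erase i0.castSucc).filter fun i => 0 < X i ∧ X i ≤ W).image X).card ≤
        (((univ.erase i0).filter fun i => 0 < x i ∧ x i ≤ W).image x).card := by
      refine Finset.card_le_card fun t ht => ?_
      obtain ⟨i, hi, rfl⟩ := Finset.mem_image.1 ht
      rw [Finset.mem_filter, Finset.mem_erase] at hi
      induction i using Fin.lastCases with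
      | last => exact absurd hi.2.1 (by rw [el]; exact lt_irrefl _)
      | cast i =>
        rw [e0] at hi ⊢
        refine Finset.mem_image.2 ⟨i, ?_, rfl⟩
        rw [Finset.mem_filter, Finset.mem_erase]
        exact ⟨⟨fun h => hi.1.1 (by rw [h]), Finset.mem_univ _⟩, hi.2⟩
    have c1R : (((univ.erase i0.castSucc).filter fun i => W < X i).card : ℝ) ≤
        ((univ.erase i0).filter fun i => W < x i).card := by exact_mod_cast c1
    have c2R : ((((univ.erase i0.castSucc).filter fun i => 0 < X i ∧ X i ≤ W).image X).card : ℝ) ≤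
        (((univ.erase i0).filter fun i => 0 < x i ∧ x i ≤ W).image x).card := by exact_mod_cast c2
    have d1 : ((((univ.erase i0.castSucc).filter fun i => W < X i).card : ℝ) + 1) *
        (2 * (c - x i0) ^ 2) ≤ ((((univ.erase i0).filter fun i => W < x i).card : ℝ) + 1) *
        (2 * (c - x i0) ^ 2) := mul_le_mul_of_nonneg_right (by linarith) (by positivity)
    have d2 : 16 * ((((univ.erase i0.castSucc).filter fun i => 0 < X i ∧ X i ≤ W).image X).card : ℝ)
        * W ^ 2 ≤ 16 * ((((univ.erase i0).filter fun i => 0 < x i ∧ x i ≤ W).image x).card : ℝ)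
        * W ^ 2 := mul_le_mul_of_nonneg_right (by linarith) (by positivity)
    linarith

end Pool.Agent.K6.H90.ST
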