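import Pool.Agent.K6.H90.ST.Curves

/-! Nef classes: removing the auxiliary point. -/

set_option autoImplicit false

namespace Pool.Agent.K6.H90.ST

open Finset Pool.Agent.W609 Pool.Agent.W609.CR Pool.Agent.TH167 Pool.Agent.TH167.SH
open Pool.Agent.R355.ConeAct
open Pool.Agent.Results.MP_309968_ag.BoundaryRays (MultGE)

/-- the theorem for the curves -/
theorem curves_all {n : ℕ} {p : Fin n → Fin 2 → ℂ}
    (hP : AlgebraicIndependent ℚ (fun ij : Fin n × Fin 2 => p ij.1 ij.2))
    {x : Fin n → ℝ} {c : ℝ} (hx : ∀ i, 0 ≤ x i) (hsq : ∑ i, x i ^ 2 = c ^ 2) {i0 : Fin n}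
    (hS : StripClass i0 x c) : ∀ v ∈ curveClasses p, 0 ≤ dot (c, x) v := by
  classical
  -- a good configuration of one more point
  obtain ⟨f1, hf1, h1⟩ := SH.exists_fam (Fin (n + 1) × Fin 2)
  obtain ⟨f2, hf2, h2⟩ := exists_formOK (n + 1)
  obtain ⟨y, hy⟩ := Pool.Agent.W649.ZL.avoid (fun k => f1 k * f2 k)
    (fun k => mul_ne_zero (hf1 k) (hf2 k))
  obtain ⟨p', hp'⟩ : ∃ p' : Fin (n + 1) → Fin 2 → ℂ, p' = fun i a => y (i, a) := ⟨_, rfl⟩
  have hpy : (fun ij : Fin (n + 1) × Fin 2 => p' ij.1 ij.2) = y := by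
    rw [hp']
  have hP' : AlgebraicIndependent ℚ (fun ij : Fin (n + 1) × Fin 2 => p' ij.1 ij.2) := by
    rw [hpy]
    refine (h1 y).1 fun k => ?_
    have := hy k
    rw [map_mul] at this
    exact left_ne_zero_of_mul this
  have hF' : FormOK p' := by
    refine h2 p' fun k => ?_
    rw [hpy]
    have := hy k
    rw [map_mul] at this
    exact right_ne_zero_of_mul this
  obtain ⟨q, hqd⟩ : ∃ q : Fin n → Fin 2 → ℂ, ∀ i, q i = p' i.castSucc := ⟨_, fun _ => rfl⟩
  have hq : AlgebraicIndependent ℚ (fun ij : Fin n × Fin 2 => q ij.1 ij.2) := by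
    have hq0 : AlgebraicIndependent ℚ (fun ij : Fin n × Fin 2 => p' ij.1.castSucc ij.2) :=
      hP'.comp (fun ij : Fin n × Fin 2 => (ij.1.castSucc, ij.2)) (by
        intro a b h
        simp only [Prod.mk.injEq] at h
        exact Prod.ext (Fin.castSucc_injective n h.1) h.2)
    have e : (fun ij : Fin n × Fin 2 => q ij.1 ij.2) =
        fun ij : Fin n × Fin 2 => p' ij.1.castSucc ij.2 := by
      funext ij
      rw [hqd]
    rw [e]
    exact hq0
  have key := curves_zero hP' hF' (x := (Fin.snoc x 0 : Fin (n + 1) → ℝ)) (c := c) (fun i => by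
      induction i using Fin.lastCases with
      | last => simp
      | cast i => simpa using hx i) (by
      rw [Fin.sum_univ_castSucc]
      simp only [Fin.snoc_castSucc, Fin.snoc_last]
      rw [hsq]
      ring) hS.snoc (j := Fin.last n) (by simp)
  rintro v (⟨G, d, w, hG, rfl⟩ | ⟨j, rfl⟩)
  · obtain ⟨c1, c2, c3⟩ := SH.curve_iff.1 hG
    obtain ⟨G', g1, g2, g3⟩ := Pool.Agent.R355.NegOrb.exists_conj (P1 := p) (P := q) hP hq c1 c2
      c3 (Equiv.refl _)
    obtain ⟨u, hu⟩ := Pool.Agent.TH442.NF.ord_ex (p := p' (Fin.last n)) g1.ne_zero g2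
    have hC : SHDefs.Curve p' G' d (Fin.snoc w u : Fin (n + 1) → ℕ) := by
      refine SH.curve_iff.2 ⟨g1, g2, fun j => ?_⟩
      induction j using Fin.lastCases with
      | last => simpa using hu
      | cast j =>
        have := g3 j
        rw [hqd] at this
        simpa using this
    have h3 := key _ (Or.inl ⟨G', d, _, hC, rfl⟩)
    unfold dot at h3 ⊢
    simp only at h3 ⊢
    rw [Fin.sum_univ_castSucc] at h3
    simp only [Fin.snoc_castSucc, Fin.snoc_last, zero_mul, add_zero] at h3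
    exact h3
  · rw [dot_exc]
    exact hx j

end Pool.Agent.K6.H90.ST
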