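import Pool.Agent.K6.H90.ST.Form2
import Pool.Agent.K6.H90.ST.Curves

/-! Nef classes with integral further coefficients: the quadratic transformation. -/

set_option autoImplicit false

namespace Pool.Agent.K6.H90.ST

open Finset Pool.Agent.W609 Pool.Agent.W609.CR Pool.Agent.TH167 Pool.Agent.TH167.SH
open Pool.Agent.R355.ConeAct
open Pool.Agent.Results.MP_309968_ag.BoundaryRays (MultGE)

/-- the inequalities for the curves, in the two basic cases -/
def FormOK2 {n : ℕ} (p : Fin n → Fin 2 → ℂ) : Prop :=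
  ∀ (x : Fin n → ℝ), (∀ i, 0 ≤ x i) →
    (∀ (i0 : Fin n) (c : ℝ), 0 < x i0 → x i0 < c → ∑ i, x i ^ 2 = c ^ 2 →
      RoomI (univ.erase i0) x (c - x i0) (x i0) → ∀ v ∈ curveClasses p, 0 ≤ dot (c, x) v) ∧
    (∀ i0 i1 : Fin n, i1 ≠ i0 → 0 < x i0 → 0 < x i1 → ∑ i, x i ^ 2 = (x i0 + x i1) ^ 2 →
      RoomI ((univ.erase i0).erase i1) x (x i1) (x i0) →
      ∀ v ∈ curveClasses p, 0 ≤ dot (x i0 + x i1, x) v)

theorem exists_formOK2 (n : ℕ) : ∃ f : ℕ → MvPolynomial (Fin n × Fin 2) ℂ, (∀ k, f k ≠ 0) ∧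
    ∀ p : Fin n → Fin 2 → ℂ,
      (∀ k, MvPolynomial.eval (fun q : Fin n × Fin 2 => p q.1 q.2) (f k) ≠ 0) → FormOK2 p := by
  obtain ⟨f, hf, h⟩ := form_strip2 n
  refine ⟨f, hf, fun p hp x hx => ⟨?_, ?_⟩⟩
  · intro i0 c h0 h1 hsq hr
    exact curve_of_form hx ((h p hp x hx).1 i0 c h0 h1 hsq hr)
  · intro i0 i1 h01 h0 h1 hsq hr
    exact curve_of_form hx ((h p hp x hx).2 i0 i1 h01 h0 h1 hsq hr)

/-- The number `c - x i0` and the coefficients `x i`, `i ≠ i0`, are integers `B ≥ 2` and `u i`, with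
`u i ≤ B` and `u i + u j ≤ B`, and `(min r (B / 2) + 1) (3 B ^ 2 + 4 B) ≤ 4 x i0` where `r` is the
number of the distinct nonzero `u i`, `i ≠ i0`. -/
def IntClass {n : ℕ} (i0 : Fin n) (x : Fin n → ℝ) (c : ℝ) : Prop :=
  ∃ (B : ℕ) (u : Fin n → ℕ), 2 ≤ B ∧ c - x i0 = B ∧ (∀ i, i ≠ i0 → x i = u i ∧ u i ≤ B) ∧
    (∀ i j, i ≠ i0 → j ≠ i0 → i ≠ j → u i + u j ≤ B) ∧
    (((min (((univ.erase i0).filter fun i => 0 < u i).image u).card (B / 2) : ℕ) : ℝ) + 1) *
      (3 * (B : ℝ) ^ 2 + 4 * B) ≤ 4 * x i0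

theorem card_half {ι : Type} [DecidableEq ι] {E : Finset ι} {u : ι → ℕ} {B : ℕ}
    (h : ∀ i ∈ E, 2 * u i ≤ B) : ((E.filter fun i => 0 < u i).image u).card ≤ B / 2 := by
  have h1 : (E.filter fun i => 0 < u i).image u ⊆ Finset.Icc 1 (B / 2) := by
    intro t ht
    obtain ⟨i, hi, rfl⟩ := Finset.mem_image.1 ht
    rw [Finset.mem_filter] at hi
    rw [Finset.mem_Icc]
    have := h i hi.1
    omega
  have h2 := Finset.card_le_card h1
  rw [Nat.card_Icc] at h2
  omega

/-- the theorem if one of the coefficients is zero -/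
theorem curves_zero2 {n : ℕ} {p : Fin n → Fin 2 → ℂ}
    (hP : AlgebraicIndependent ℚ (fun ij : Fin n × Fin 2 => p ij.1 ij.2)) (hF : FormOK2 p)
    {x : Fin n → ℝ} {c : ℝ} (hx : ∀ i, 0 ≤ x i) (hsq : ∑ i, x i ^ 2 = c ^ 2) {i0 : Fin n}
    (hS : IntClass i0 x c) {j : Fin n} (hj : x j = 0) :
    ∀ v ∈ curveClasses p, 0 ≤ dot (c, x) v := by
  classical
  obtain ⟨B, u, hB, hcB, hu, hpair, hroom⟩ := hS
  obtain ⟨h, hh⟩ : ∃ h : ℝ, h = B := ⟨_, rfl⟩
  have hch : h = c - x i0 := by rw [hh, hcB]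
  have hB2 : (2 : ℝ) ≤ B := by exact_mod_cast hB
  have hh0 : 0 < h := by rw [hh]; linarith
  have hx0 : 0 < x i0 := by
    have : 0 < (((min (((univ.erase i0).filter fun i => 0 < u i).image u).card (B / 2) : ℕ) : ℝ)
        + 1) * (3 * (B : ℝ) ^ 2 + 4 * B) := by positivity
    linarith
  by_cases hcase : ∀ i ∈ univ.erase i0, 2 * u i ≤ B
  · refine (hF x hx).1 i0 c hx0 (by linarith) hsq ?_
    refine ⟨B, u, hB, hcB, fun i hi => ⟨(hu i (Finset.mem_erase.1 hi).1).1, hcase i hi⟩,
      le_trans ?_ hroom⟩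
    have h1 : (((univ.erase i0).filter fun i => 0 < u i).image u).card ≤
        min (((univ.erase i0).filter fun i => 0 < u i).image u).card (B / 2) :=
      le_min le_rfl (card_half hcase)
    have h2 : ((((univ.erase i0).filter fun i => 0 < u i).image u).card : ℝ) ≤
        ((min (((univ.erase i0).filter fun i => 0 < u i).image u).card (B / 2) : ℕ) : ℝ) := by
      exact_mod_cast h1
    exact mul_le_mul_of_nonneg_right (by linarith) (by positivity)
  push Not at hcase
  obtain ⟨i1, hi1, hx1⟩ := hcase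
  have h10 : i1 ≠ i0 := (Finset.mem_erase.1 hi1).1
  have hu1B : u i1 ≤ B := (hu i1 h10).2
  have hj0 : j ≠ i0 := fun e => by rw [e] at hj; linarith
  have huj : u j = 0 := by
    have := (hu j hj0).1
    rw [hj] at this
    exact_mod_cast this.symm
  have hj1 : j ≠ i1 := fun e => by rw [e] at huj; omega
  obtain ⟨δ, hδ⟩ : ∃ δ : ℝ, δ = h - x i1 := ⟨_, rfl⟩
  obtain ⟨d, hd⟩ : ∃ d : ℕ, d = B - u i1 := ⟨_, rfl⟩
  have hδd : δ = d := by
    rw [hδ, hd, hh, (hu i1 h10).1, Nat.cast_sub hu1B]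
  have hδ0 : 0 ≤ δ := by rw [hδd]; exact Nat.cast_nonneg _
  -- the reflection
  obtain ⟨i, hi⟩ : ∃ i : Fin 3 → Fin n, i = ![i0, i1, j] := ⟨_, rfl⟩
  have hi0 : i 0 = i0 := by rw [hi]; rfl
  have hi1' : i 1 = i1 := by rw [hi]; rfl
  have hi2 : i 2 = j := by rw [hi]; rfl
  have hinj : Function.Injective i := by
    rw [hi]
    exact inj_cons h10.symm hj0.symm hj1.symm
  have hdel : del i (c, x) = δ := by
    unfold del
    rw [hi0, hi1', hi2]
    simp only
    rw [hj]
    linarith
  obtain ⟨x', hx'⟩ : ∃ x' : Fin n → ℝ, x' = (refl i (c, x)).2 := ⟨_, rfl⟩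
  have hxe : ∀ l, x' l = x l + δ * ind i l := fun l => by rw [hx', refl_snd, hdel]
  obtain ⟨b0, b1, b2⟩ := ind_base i
  rw [hi0] at b0
  rw [hi1'] at b1
  rw [hi2] at b2
  have hx'0 : x' i0 = x i0 + δ := by rw [hxe, b0, mul_one]
  have hx'1 : x' i1 = h := by rw [hxe, b1, mul_one, hδ]; ring
  have hx'j : x' j = δ := by rw [hxe, b2, mul_one, hj, zero_add]
  have hx'l : ∀ l, l ≠ i0 → l ≠ i1 → l ≠ j → x' l = x l := fun l l0 l1 l2 => by
    rw [hxe]
    have : ind i l = 0 := by
      unfold ind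
      rw [hi0, hi1', hi2]
      exact if_neg (by tauto)
    rw [this, mul_zero, add_zero]
  have hcl : refl i (c, x) = (x' i0 + x' i1, x') := by
    refine Prod.ext ?_ ?_
    · rw [refl_fst, hdel, hx'0, hx'1]
      show c + δ = _
      linarith
    · exact hx'.symm
  have hx'nn : ∀ l, 0 ≤ x' l := fun l => by
    rw [hxe]
    have e1 : 0 ≤ ind i l := by
      unfold ind
      split_ifs <;> norm_num
    have := hx l
    positivity
  have hsq' : ∑ l, x' l ^ 2 = (x' i0 + x' i1) ^ 2 := by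
    have e1 := dot_refl hinj (c, x) (c, x)
    rw [hcl] at e1
    unfold dot at e1
    simp only at e1
    have e2 : ∑ l, x' l ^ 2 = ∑ l, x' l * x' l := Finset.sum_congr rfl fun l _ => sq _
    have e3 : ∑ l, x l ^ 2 = ∑ l, x l * x l := Finset.sum_congr rfl fun l _ => sq _
    rw [e2]
    rw [e3] at hsq
    linarith
  obtain ⟨u', hu'⟩ : ∃ u' : Fin n → ℕ, u' = Function.update u j d := ⟨_, rfl⟩
  have hu'j : u' j = d := by rw [hu']; simp
  have hu'l : ∀ l, l ≠ j → u' l = u l := fun l hl => by rw [hu']; simp [hl]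
  have hhalf : ∀ l ∈ (univ.erase i0).erase i1, 2 * u' l ≤ B := fun l hl => by
    have l1 := (Finset.mem_erase.1 hl).1
    have l0 := (Finset.mem_erase.1 (Finset.mem_erase.1 hl).2).1
    by_cases lj : l = j
    · rw [lj, hu'j]
      omega
    · rw [hu'l l lj]
      have := hpair l i1 l0 h10 l1
      omega
  have hroom' : RoomI ((univ.erase i0).erase i1) x' (x' i1) (x' i0) := by
    refine ⟨B, u', hB, by rw [hx'1, hh], fun l hl => ⟨?_, hhalf l hl⟩, ?_⟩
    · have l1 := (Finset.mem_erase.1 hl).1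
      have l0 := (Finset.mem_erase.1 (Finset.mem_erase.1 hl).2).1
      by_cases lj : l = j
      · rw [lj, hx'j, hu'j, hδd]
      · rw [hx'l l l0 l1 lj, hu'l l lj]
        exact (hu l l0).1
    · obtain ⟨I, hI⟩ : ∃ I : Finset ℕ, I = ((univ.erase i0).filter fun i => 0 < u i).image u :=
        ⟨_, rfl⟩
      obtain ⟨I', hI'⟩ : ∃ I' : Finset ℕ,
        I' = (((univ.erase i0).erase i1).filter fun i => 0 < u' i).image u' := ⟨_, rfl⟩
      rw [← hI] at hroom
      have c2 : I'.card ≤ B / 2 := by rw [hI']; exact card_half hhalf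
      rw [← hI', hx'0]
      have hi1I : u i1 ∈ I := by
        rw [hI, Finset.mem_image]
        exact ⟨i1, Finset.mem_filter.2 ⟨hi1, by omega⟩, rfl⟩
      have c1 : I'.card ≤ I.card := by
        have hsub : I' ⊆ insert d (I.erase (u i1)) := fun t ht => by
          rw [hI', Finset.mem_image] at ht
          obtain ⟨l, hl, rfl⟩ := ht
          rw [Finset.mem_filter] at hl
          have l1 := (Finset.mem_erase.1 hl.1).1
          have l0 := (Finset.mem_erase.1 (Finset.mem_erase.1 hl.1).2).1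
          by_cases lj : l = j
          · rw [lj, hu'j]
            exact Finset.mem_insert_self _ _
          · rw [hu'l l lj] at hl ⊢
            refine Finset.mem_insert_of_mem (Finset.mem_erase.2 ⟨?_, ?_⟩)
            · have := hpair l i1 l0 h10 l1
              omega
            · rw [hI, Finset.mem_image]
              exact ⟨l, Finset.mem_filter.2 ⟨(Finset.mem_erase.1 hl.1).2, hl.2⟩, rfl⟩
        have h3 := (Finset.card_le_card hsub).trans (Finset.card_insert_le _ _)
        have h4 := Finset.card_erase_add_one hi1I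
        omega
      have c3 : I'.card ≤ min I.card (B / 2) := le_min c1 c2
      have c3R : (I'.card : ℝ) ≤ ((min I.card (B / 2) : ℕ) : ℝ) := by exact_mod_cast c3
      have h5 : ((I'.card : ℝ) + 1) * (3 * (B : ℝ) ^ 2 + 4 * B) ≤
          (((min I.card (B / 2) : ℕ) : ℝ) + 1) * (3 * (B : ℝ) ^ 2 + 4 * B) :=
        mul_le_mul_of_nonneg_right (by linarith) (by positivity)
      linarith
  intro v hv
  have e1 := (hF x' hx'nn).2 i0 i1 h10 (by rw [hx'0]; linarith) (by rw [hx'1]; exact hh0) hsq'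
    hroom' (refl i v) (gen_refl hP hinj hv)
  rw [← hcl, dot_refl hinj] at e1
  exact e1

/-- the coefficient zero at a further point -/
theorem IntClass.snoc {n : ℕ} {i0 : Fin n} {x : Fin n → ℝ} {c : ℝ}
    (hS : IntClass i0 x c) :
    IntClass i0.castSucc (Fin.snoc x 0 : Fin (n + 1) → ℝ) c := by
  classical
  obtain ⟨B, u, hB, hcB, hu, hpair, hroom⟩ := hS
  have e0 : ∀ i : Fin n, (Fin.snoc x 0 : Fin (n + 1) → ℝ) i.castSucc = x i := fun i => by simp
  have el : (Fin.snoc x 0 : Fin (n + 1) → ℝ) (Fin.last n) = 0 := by simp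
  have f0 : ∀ i : Fin n, (Fin.snoc u 0 : Fin (n + 1) → ℕ) i.castSucc = u i := fun i => by simp
  have fl : (Fin.snoc u 0 : Fin (n + 1) → ℕ) (Fin.last n) = 0 := by simp
  obtain ⟨X, hX⟩ : ∃ X : Fin (n + 1) → ℝ, X = Fin.snoc x 0 := ⟨_, rfl⟩
  obtain ⟨U, hU⟩ : ∃ U : Fin (n + 1) → ℕ, U = Fin.snoc u 0 := ⟨_, rfl⟩
  rw [← hX] at e0 el ⊢
  rw [← hU] at f0 fl
  refine ⟨B, U, hB, by rw [e0]; exact hcB, ?_, ?_, ?_⟩
  · intro i hi
    induction i using Fin.lastCases with
    | last => rw [el, fl]; simp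
    | cast i =>
      rw [e0, f0]
      exact hu i fun h => hi (by rw [h])
  · intro i j hi hj hij
    induction i using Fin.lastCases with
    | last =>
      rw [fl]
      induction j using Fin.lastCases with
      | last => exact absurd rfl hij
      | cast j =>
        rw [f0, zero_add]
        exact (hu j fun h => hj (by rw [h])).2
    | cast i =>
      rw [f0]
      induction j using Fin.lastCases with
      | last =>
        rw [fl, add_zero]
        exact (hu i fun h => hi (by rw [h])).2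
      | cast j =>
        rw [f0]
        exact hpair i j (fun h => hi (by rw [h])) (fun h => hj (by rw [h]))
          fun h => hij (by rw [h])
  · rw [e0]
    refine le_trans ?_ hroom
    have c2 : (((univ.erase i0.castSucc).filter fun i => 0 < U i).image U).card ≤
        (((univ.erase i0).filter fun i => 0 < u i).image u).card := by
      refine Finset.card_le_card fun t ht => ?_
      obtain ⟨i, hi, rfl⟩ := Finset.mem_image.1 ht
      rw [Finset.mem_filter, Finset.mem_erase] at hi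
      induction i using Fin.lastCases with
      | last => exact absurd hi.2 (by rw [fl]; exact lt_irrefl _)
      | cast i =>
        rw [f0] at hi ⊢
        refine Finset.mem_image.2 ⟨i, ?_, rfl⟩
        rw [Finset.mem_filter, Finset.mem_erase]
        exact ⟨⟨fun h => hi.1.1 (by rw [h]), Finset.mem_univ _⟩, hi.2⟩
    have c3 : min (((univ.erase i0.castSucc).filter fun i => 0 < U i).image U).card (B / 2) ≤
        min (((univ.erase i0).filter fun i => 0 < u i).image u).card (B / 2) :=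
      min_le_min_right _ c2
    have c3R : ((min (((univ.erase i0.castSucc).filter fun i => 0 < U i).image U).card (B / 2) : ℕ)
        : ℝ) ≤ ((min (((univ.erase i0).filter fun i => 0 < u i).image u).card (B / 2) : ℕ) : ℝ) := by
      exact_mod_cast c3
    exact mul_le_mul_of_nonneg_right (by linarith) (by positivity)

end Pool.Agent.K6.H90.ST
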