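import Pool.Agent.K6.H90.ST.Strip

/-! Cuts of a trapezoid at both sides, blocks of equal points, groups of equal points in a corner. -/

set_option autoImplicit false

namespace Pool.Agent.K6.H90.ST

open Finset Pool.Agent.TH176.Nag Pool.Agent.TH146.MN

variable {ι : Type} {w : ι → ℕ}

/-- a trapezoid with the lower side `b`, the upper side `b'` and the height `h` -/
def Tp (b b' h : ℝ) : Set (ℤ × ℤ) := Zt b ((b - b') / h) h

/-- cutting off a triangle with the apex at the lower side -/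
theorem cut_top {κ : Type} [Finite ι] [Finite κ] {v : κ → ℕ} {b b' H p E : ℝ} (hH : 0 < H)
    (hp : 0 ≤ p) (hE : 0 < E) (hE2 : E ^ 2 = p * H)
    (hT : Pool.Agent.TH366.RC.T w E 0 (p / H)) (hZ : Emp v (Tp b (b' - p) H)) :
    Emp (Sum.elim w v) (Tp b b' H) := by
  obtain ⟨δ, hδ⟩ : ∃ δ : ℝ, δ = (b - b') / H := ⟨_, rfl⟩
  obtain ⟨θ, hθ⟩ : ∃ θ : ℝ, θ = p / H := ⟨_, rfl⟩
  have hZ : Emp v (Zt b (δ + θ) H) := by
    have e : (b - (b' - p)) / H = δ + θ := by rw [hδ, hθ]; ring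
    unfold Tp at hZ
    rw [e] at hZ
    exact hZ
  unfold Tp
  rw [← hδ]
  have hθ0 : 0 ≤ θ := by rw [hθ]; positivity
  have hθH : θ * H = p := by rw [hθ]; field_simp
  rw [← hθ] at hT
  have hEθ : E * √θ = p := by
    have e1 : E = √(p * H) := by rw [← hE2]; exact (Real.sqrt_sq hE.le).symm
    rw [e1, ← Real.sqrt_mul (by positivity), hθ]
    have : p * H * (p / H) = p ^ 2 := by field_simp
    rw [this]
    exact Real.sqrt_sq hp
  obtain ⟨S, hS⟩ : ∃ S : Set (ℤ × ℤ), S = {m : ℤ × ℤ | 0 ≤ m.1 ∧ 0 ≤ m.2 ∧ (m.2 : ℝ) ≤ H ∧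
      (m.1 : ℝ) - θ * m.2 < 0} := ⟨_, rfl⟩
  obtain ⟨T, hT'⟩ : ∃ T : Set (ℤ × ℤ), T = {m : ℤ × ℤ | 0 ≤ m.2 ∧ (m.2 : ℝ) ≤ H ∧
      0 ≤ (m.1 : ℝ) - θ * m.2 ∧ (m.1 : ℝ) + δ * m.2 ≤ b} := ⟨_, rfl⟩
  have hEmpS : Emp w S := by
    have h1 := hT 0
    rw [zero_add, zero_add, hEθ] at h1
    refine h1.comap 1 0 0 (-1) 0 ⌊H⌋ (by norm_num) ?_
    rintro ⟨m1, m2⟩ hm
    rw [hS] at hm
    obtain ⟨k1, k2, k3, k4⟩ := hm
    simp only at k1 k2 k3 k4
    have c1 : m2 ≤ ⌊H⌋ := Int.le_floor.2 k3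
    have c2 := Int.floor_le H
    have c3 : (0 : ℝ) ≤ m1 := by exact_mod_cast k1
    refine ⟨by simp only; omega, ?_, ?_⟩
    · simp only
      push_cast
      linarith
    · simp only
      push_cast
      have : θ * (⌊H⌋ : ℝ) ≤ θ * H := mul_le_mul_of_nonneg_left c2 hθ0
      linarith
  have hEmpT : Emp v T := by
    refine Emp_rows ?_ hZ
    intro a r t k k1 k2 hk
    rw [hT'] at k1 k2
    obtain ⟨a1, a2, a3, a4⟩ := k1
    obtain ⟨b1, b2, b3, b4⟩ := k2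
    simp only at a1 a2 a3 a4 b1 b2 b3 b4
    push_cast at b4
    have c1 : (k : ℝ) ≤ t := by exact_mod_cast hk
    refine ⟨by simp, a1, a2, ?_⟩
    simp only
    rw [Int.cast_natCast]
    linarith
  have hfS : S.Finite := by
    refine ((Set.finite_Icc (0 : ℤ) ⌊p⌋).prod (Set.finite_Icc (0 : ℤ) ⌊H⌋)).subset ?_
    rintro ⟨m1, m2⟩ hm
    rw [hS] at hm
    obtain ⟨k1, k2, k3, k4⟩ := hm
    simp only at k1 k2 k3 k4
    refine ⟨⟨k1, Int.le_floor.2 ?_⟩, ⟨k2, Int.le_floor.2 k3⟩⟩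
    simp only
    have : θ * (m2 : ℝ) ≤ θ * H := mul_le_mul_of_nonneg_left k3 hθ0
    linarith
  have hfT : T.Finite := by
    refine ((Set.finite_Icc (0 : ℤ) ⌊b + |δ| * H⌋).prod (Set.finite_Icc (0 : ℤ) ⌊H⌋)).subset ?_
    rintro ⟨m1, m2⟩ hm
    rw [hT'] at hm
    obtain ⟨k1, k2, k3, k4⟩ := hm
    simp only at k1 k2 k3 k4
    have c1 : (0 : ℝ) ≤ m2 := by exact_mod_cast k1
    have c2 : 0 ≤ θ * m2 := by positivity
    have c3 : -(|δ| * H) ≤ δ * m2 := by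
      have c4 : -|δ| ≤ δ := neg_abs_le δ
      have c5 : -|δ| * m2 ≤ δ * m2 := mul_le_mul_of_nonneg_right c4 c1
      have c6 : |δ| * m2 ≤ |δ| * H := mul_le_mul_of_nonneg_left k2 (abs_nonneg δ)
      linarith
    refine ⟨⟨?_, Int.le_floor.2 ?_⟩, ⟨k1, Int.le_floor.2 k2⟩⟩
    · have : (0 : ℝ) ≤ m1 := by linarith
      exact_mod_cast this
    · simp only
      linarith
  have h1 := Pool.Agent.TH207.NC.Emp_sep hfS hfT θ 0 (fun m hm => by rw [hS] at hm; exact hm.2.2.2)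
    (fun m hm => by rw [hT'] at hm; exact hm.2.2.1) hEmpS hEmpT
  refine h1.mono ?_
  rintro ⟨m1, m2⟩ ⟨k1, k2, k3, k4⟩
  simp only at k1 k2 k3 k4
  rcases lt_or_ge ((m1 : ℝ) - θ * m2) 0 with h | h
  · left
    rw [hS]
    exact ⟨k1, k2, k3, h⟩
  · right
    rw [hT']
    exact ⟨k2, k3, h, k4⟩

/-- cutting off a triangle with the apex at the upper side -/
theorem cut_bot {κ : Type} [Finite ι] [Finite κ] {v : κ → ℕ} {b b' H p E : ℝ} (hH : 0 < H)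
    (hp : 0 < p) (hE : 0 < E) (hE2 : E ^ 2 = p * H)
    (hT : Pool.Agent.TH366.RC.T w E 0 (p / H)) (hZ : Emp v (Tp (b - p) b' H)) :
    Emp (Sum.elim v w) (Tp b b' H) := by
  obtain ⟨δ, hδ⟩ : ∃ δ : ℝ, δ = (b - b') / H := ⟨_, rfl⟩
  obtain ⟨θ, hθ⟩ : ∃ θ : ℝ, θ = p / H := ⟨_, rfl⟩
  have hZ : Emp v (Zt (b - p) (δ - θ) H) := by
    have e : (b - p - b') / H = δ - θ := by rw [hδ, hθ]; ring
    unfold Tp at hZ
    rw [e] at hZ
    exact hZ
  unfold Tp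
  rw [← hδ]
  have hθ0 : 0 < θ := by rw [hθ]; positivity
  have hθH : θ * H = p := by rw [hθ]; field_simp
  rw [← hθ] at hT
  have hEθ : E * √θ = p := by
    have e1 : E = √(p * H) := by rw [← hE2]; exact (Real.sqrt_sq hE.le).symm
    rw [e1, ← Real.sqrt_mul (by positivity), hθ]
    have : p * H * (p / H) = p ^ 2 := by field_simp
    rw [this]
    exact Real.sqrt_sq hp.le
  obtain ⟨S, hS⟩ : ∃ S : Set (ℤ × ℤ), S = {m : ℤ × ℤ | 0 ≤ m.1 ∧ 0 ≤ m.2 ∧ (m.2 : ℝ) ≤ H ∧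
      (m.1 : ℝ) - (θ - δ) * m.2 < b - p} := ⟨_, rfl⟩
  obtain ⟨T, hT'⟩ : ∃ T : Set (ℤ × ℤ), T = {m : ℤ × ℤ | 0 ≤ m.1 ∧ 0 ≤ m.2 ∧ (m.2 : ℝ) ≤ H ∧
      b - p ≤ (m.1 : ℝ) - (θ - δ) * m.2 ∧ (m.1 : ℝ) + δ * m.2 ≤ b} := ⟨_, rfl⟩
  have hEmpS : Emp v S := by
    refine hZ.mono ?_
    rintro ⟨m1, m2⟩ hm
    rw [hS] at hm
    obtain ⟨k1, k2, k3, k4⟩ := hm
    simp only at k1 k2 k3 k4
    exact ⟨k1, k2, k3, by simp only; linarith⟩
  have hEmpT : Emp w T := by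
    have h0 : Pool.Agent.TH366.RC.T w E (θ - δ) δ := by
      apply Pool.Agent.TH366.RC.T.toRT
      · linarith
      · have e : θ - δ + δ = θ := by ring
        rw [e]
        exact hT
    have h1 := h0 (b - p)
    have e : θ - δ + δ = θ := by ring
    rw [e, hEθ] at h1
    refine h1.mono ?_
    rintro ⟨m1, m2⟩ hm
    rw [hT'] at hm
    obtain ⟨k1, k2, k3, k4, k5⟩ := hm
    simp only at k1 k2 k3 k4 k5
    refine ⟨k2, ?_, ?_⟩
    · simp only; linarith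
    · simp only; linarith
  have hbd : ∀ m2 : ℤ, 0 ≤ m2 → (m2 : ℝ) ≤ H → -(|δ| * H) ≤ δ * m2 := fun m2 k1 k2 => by
    have c1 : (0 : ℝ) ≤ m2 := by exact_mod_cast k1
    have c5 : -|δ| * m2 ≤ δ * m2 := mul_le_mul_of_nonneg_right (neg_abs_le δ) c1
    have c6 : |δ| * m2 ≤ |δ| * H := mul_le_mul_of_nonneg_left k2 (abs_nonneg δ)
    linarith
  have hfS : S.Finite := by
    refine ((Set.finite_Icc (0 : ℤ) ⌊b + |δ| * H⌋).prod (Set.finite_Icc (0 : ℤ) ⌊H⌋)).subset ?_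
    rintro ⟨m1, m2⟩ hm
    rw [hS] at hm
    obtain ⟨k1, k2, k3, k4⟩ := hm
    simp only at k1 k2 k3 k4
    have c2 := hbd m2 k2 k3
    have c3 : θ * m2 ≤ θ * H := mul_le_mul_of_nonneg_left k3 hθ0.le
    refine ⟨⟨k1, Int.le_floor.2 ?_⟩, ⟨k2, Int.le_floor.2 k3⟩⟩
    simp only
    linarith
  have hfT : T.Finite := by
    refine ((Set.finite_Icc (0 : ℤ) ⌊b + |δ| * H⌋).prod (Set.finite_Icc (0 : ℤ) ⌊H⌋)).subset ?_
    rintro ⟨m1, m2⟩ hm
    rw [hT'] at hm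
    obtain ⟨k1, k2, k3, k4, k5⟩ := hm
    simp only at k1 k2 k3 k4 k5
    have c2 := hbd m2 k2 k3
    refine ⟨⟨k1, Int.le_floor.2 ?_⟩, ⟨k2, Int.le_floor.2 k3⟩⟩
    simp only
    linarith
  have h1 := Pool.Agent.TH207.NC.Emp_sep hfS hfT (θ - δ) (b - p)
    (fun m hm => by rw [hS] at hm; exact hm.2.2.2)
    (fun m hm => by rw [hT'] at hm; exact hm.2.2.2.1) hEmpS hEmpT
  refine h1.mono ?_
  rintro ⟨m1, m2⟩ ⟨k1, k2, k3, k4⟩
  simp only at k1 k2 k3 k4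
  rcases lt_or_ge ((m1 : ℝ) - (θ - δ) * m2) (b - p) with h | h
  · left
    rw [hS]
    exact ⟨k1, k2, k3, h⟩
  · right
    rw [hT']
    exact ⟨k1, k2, k3, h, k4⟩

/-- blocks of equal points: all slopes, if `N τ (1 - τ)` is an integer, `τ = t / H` -/
theorem UU_const [Fintype ι] [Nonempty ι] {t H : ℝ} (ht : 0 < t) (hH : 0 < H) (y : ℕ)
    (hy : (y : ℝ) = (Fintype.card ι : ℝ) * (t / H) * (1 - t / H)) :
    UU' (fun _ : ι => t) H := by
  classical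
  intro w s hs hw μ ν hμν
  have h1 : ∑ _i : ι, t ^ 2 = (Fintype.card ι : ℝ) * t ^ 2 := by
    rw [Finset.sum_const, Finset.card_univ, nsmul_eq_mul]
  rw [h1] at hμν ⊢
  have hn : (0 : ℝ) < Fintype.card ι := by exact_mod_cast Fintype.card_pos
  have hρ : 0 < (Fintype.card ι : ℝ) * t ^ 2 / H ^ 2 := by positivity
  apply TS.toRT (by rw [hμν]; exact hρ)
  rw [hμν]
  refine Pool.Agent.TH366.RC.T.move hρ 1 y (by simpa using isCoprime_one_left) one_pos ?_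
  have e : (((1 : ℕ) : ℝ) * ((Fintype.card ι : ℝ) * t ^ 2 / H ^ 2) + (y : ℝ)) ^ 2 /
      ((Fintype.card ι : ℝ) * t ^ 2 / H ^ 2) = Fintype.card ι := by
    have e1 : ((1 : ℕ) : ℝ) * ((Fintype.card ι : ℝ) * t ^ 2 / H ^ 2) + (y : ℝ) =
        (Fintype.card ι : ℝ) * (t / H) := by
      rw [hy, Nat.cast_one]; field_simp; ring
    rw [e1]
    field_simp
  rw [e]
  refine Pool.Agent.TH181.Nag.PS.final (ι := ι) le_rfl hn.le (zero_add _) w _ (by positivity) ?_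
  rw [Real.sqrt_mul hn.le, Real.sqrt_sq ht.le]
  have e : √(Fintype.card ι : ℝ) * (s * (√(Fintype.card ι : ℝ) * t)) =
      (√(Fintype.card ι : ℝ) * √(Fintype.card ι : ℝ)) * (s * t) := by ring
  rw [e, Real.mul_self_sqrt hn.le]
  have h2 : ∑ _i : ι, s * t < ∑ i, (w i : ℝ) :=
    Finset.sum_lt_sum_of_nonempty Finset.univ_nonempty fun i _ => hw i
  rw [Finset.sum_const, Finset.card_univ, nsmul_eq_mul] at h2
  exact h2

/-- a group of equal points in the corner of a triangle, and a batch with all slopes -/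
theorem cell_group [Fintype ι] {x : ι → ℝ} {t h p s : ℝ} {k : ℕ} (hk : 1 ≤ k) {v : Fin k → ℕ}
    (hs : 0 < s) (ht : 0 < t) (hth : 2 * t ≤ h) (hp : 3 * h ≤ 2 * p) (hkp : k * t ≤ 2 * p)
    (hsum : p * h = k * t ^ 2 + ∑ i, x i ^ 2) (hpos : 0 < ∑ i, x i ^ 2)
    (hU : UU' x (h / 2)) (hv : ∀ j, s * t ≤ v j) (hw : ∀ i, s * x i < w i) :
    Pool.Agent.TH366.RC.T (Sum.elim v w) (s * √(p * h)) 0 (p / h) := by
  have hh : 0 < h := by linarith
  have hp0 : 0 < p := by linarith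
  have hk0 : (0 : ℝ) < k := by exact_mod_cast hk
  obtain ⟨Sx, hS⟩ : ∃ Sx : ℝ, Sx = ∑ i, x i ^ 2 := ⟨_, rfl⟩
  rw [← hS] at hsum hpos
  have hph : 0 < p * h := by positivity
  have hE : 0 < s * √(p * h) := by positivity
  have hρ : 3 ≤ 2 * (p / h) := by
    rw [← mul_div_assoc, le_div_iff₀ hh]; exact hp
  refine Pool.Agent.TH366.RC.T.nodeZ (μ := 2 * k * t / h) hE hρ ?_
  have hμ1 : 2 * k * t / h ≤ k := by
    rw [div_le_iff₀ hh]
    have := mul_le_mul_of_nonneg_left hth hk0.le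
    linarith
  have eσ : 2 * k * t / h + (4 * (p / h) - 2 * k * t / h) - (2 * k * t / h) ^ 2 / k =
      Sx / (h / 2) ^ 2 := by
    have : Sx = p * h - k * t ^ 2 := by rw [hsum]; ring
    rw [this]
    field_simp
    ring
  refine Pool.Agent.TH366.RC.T.cornerK (k := k) hk v (E' := s * √Sx) (by positivity) hμ1 ?_ ?_ ?_ ?_
  · have : 2 * k * t / h ≤ 4 * (p / h) := by
      rw [← mul_div_assoc]
      apply div_le_div_of_nonneg_right _ hh.le
      linarith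
    linarith
  · rw [eσ]; positivity
  · rw [eσ]
    have e1 : 2 * k * t / h + (4 * (p / h) - 2 * k * t / h) = 4 * (p / h) := by ring
    rw [e1]
    have e2 : √(p * h) * √(4 * (p / h)) = 2 * p := by
      rw [← Real.sqrt_mul hph.le]
      have : p * h * (4 * (p / h)) = (2 * p) ^ 2 := by field_simp; ring
      rw [this]
      exact Real.sqrt_sq (by positivity)
    have e3 : √Sx * √(Sx / (h / 2) ^ 2) = 2 * Sx / h := by
      rw [← Real.sqrt_mul hpos.le]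
      have : Sx * (Sx / (h / 2) ^ 2) = (2 * Sx / h) ^ 2 := by field_simp
      rw [this]
      exact Real.sqrt_sq (by positivity)
    have e4 : s * √(p * h) * √(4 * (p / h)) = 2 * s * p := by
      rw [mul_assoc, e2]; ring
    have e5 : s * √Sx * √(Sx / (h / 2) ^ 2) = 2 * s * Sx / h := by
      rw [mul_assoc, e3]; ring
    rw [e4, e5]
    have hsumv : k * (s * t) ≤ ∑ i, (v i : ℝ) := by
      have h1 : ∑ _i : Fin k, s * t ≤ ∑ i, (v i : ℝ) := Finset.sum_le_sum fun i _ => hv i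
      rw [Finset.sum_const, Finset.card_univ, Fintype.card_fin, nsmul_eq_mul] at h1
      exact h1
    have hsumv' : s * t ≤ (∑ i, (v i : ℝ)) / k := by
      rw [le_div_iff₀ hk0]; linarith
    have e6 : 2 * k * t / h * (s * t) ≤ 2 * k * t / h * ((∑ i, (v i : ℝ)) / k) :=
      mul_le_mul_of_nonneg_left hsumv' (by positivity)
    have e7 : 2 * s * Sx / h = 2 * s * p - 2 * k * t / h * (s * t) := by
      have : Sx = p * h - k * t ^ 2 := by rw [hsum]; ring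
      rw [this]
      field_simp
    linarith
  · rw [eσ]
    have h1 := hU w s hs hw 0 (Sx / (h / 2) ^ 2) (by rw [← hS, zero_add])
    rw [← hS] at h1
    exact h1

end Pool.Agent.K6.H90.ST
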