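import Pool.Agent.K6.H90.ST.Nef
import Pool.Agent.K6.H96.One

/-! The inequalities for forms. -/

set_option autoImplicit false

namespace Pool.Agent.K6.H90.ST

open Finset
open Pool.Agent.H932R3 Pool.Agent.H350R3 Pool.Agent.H350R3.GR
open Pool.Agent.Results.MP_309968_ag.BoundaryRays (MultGE)
open Pool.Agent.Results.MP_309968_ag.FewCoefficients (noForm_ext exists_supp)

theorem Room.supp {n N : ℕ} {E : Finset (Fin n)} {x : Fin n → ℝ} {h M : ℝ} (hr : Room E x h M)
    {g : Fin N → Fin n} (hg : Function.Injective g) (hgE : ∀ j, g j ∈ E) :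
    Room univ (fun j => x (g j)) h M := by
  classical
  obtain ⟨W, hW, hWh, h1, h2⟩ := hr
  refine ⟨W, hW, hWh, fun j _ => h1 _ (hgE j), le_trans ?_ h2⟩
  have h3 : ((univ.filter fun j : Fin N => W < x (g j)).card : ℝ) ≤
      (E.filter fun i => W < x i).card := by
    have : (univ.filter fun j : Fin N => W < x (g j)).card ≤ (E.filter fun i => W < x i).card := by
      refine Finset.card_le_card_of_injOn g (fun j hj => ?_) hg.injOn
      have hj' := (Finset.mem_filter.1 hj).2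
      exact Finset.mem_filter.2 ⟨hgE j, hj'⟩
    exact_mod_cast this
  have h4 : (((univ.filter fun j : Fin N => 0 < x (g j) ∧ x (g j) ≤ W).image
      fun j => x (g j)).card : ℝ) ≤
      ((E.filter fun i => 0 < x i ∧ x i ≤ W).image x).card := by
    have : ((univ.filter fun j : Fin N => 0 < x (g j) ∧ x (g j) ≤ W).image
      fun j => x (g j)).card ≤ ((E.filter fun i => 0 < x i ∧ x i ≤ W).image x).card := by
      refine Finset.card_le_card fun t ht => ?_
      obtain ⟨j, hj, rfl⟩ := Finset.mem_image.1 ht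
      have hj' := (Finset.mem_filter.1 hj).2
      exact Finset.mem_image.2 ⟨g j, Finset.mem_filter.2 ⟨hgE j, hj'⟩, rfl⟩
    exact_mod_cast this
  have h5 : (((univ.filter fun j : Fin N => W < x (g j)).card : ℝ) + 1) * (2 * h ^ 2) ≤
      (((E.filter fun i => W < x i).card : ℝ) + 1) * (2 * h ^ 2) :=
    mul_le_mul_of_nonneg_right (by linarith) (by positivity)
  have h6 : 16 * (((univ.filter fun j : Fin N => 0 < x (g j) ∧ x (g j) ≤ W).image
      fun j => x (g j)).card : ℝ) * W ^ 2 ≤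
      16 * (((E.filter fun i => 0 < x i ∧ x i ≤ W).image x).card : ℝ) * W ^ 2 :=
    mul_le_mul_of_nonneg_right (by linarith) (by positivity)
  linarith

theorem exists_supp_on {n : ℕ} (E : Finset (Fin n)) {x : Fin n → ℝ} (hx : ∀ i, 0 ≤ x i) :
    ∃ (N : ℕ) (g : Fin N → Fin n), Function.Injective g ∧ (∀ j, g j ∈ E) ∧
      (∀ j, 0 < x (g j)) ∧ ∀ f : Fin n → ℝ, (∀ i, x i = 0 → f i = 0) →
        ∑ j, f (g j) = ∑ i ∈ E, f i := by
  classical
  obtain ⟨N, g, hg, hg0, hgs, hsum⟩ := exists_supp (fun i => if i ∈ E then x i else 0)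
  have hgE : ∀ j, g j ∈ E := fun j => by
    by_contra hcon
    exact hg0 j (by simp only [if_neg hcon])
  refine ⟨N, g, hg, hgE, fun j => ?_, fun f hf => ?_⟩
  · have := hg0 j
    simp only [if_pos (hgE j)] at this
    exact lt_of_le_of_ne (hx _) (Ne.symm this)
  · have h1 := hsum (fun i => if i ∈ E then f i else 0) (fun i hi => by
      by_cases h2 : i ∈ E
      · simp only [if_pos h2] at hi ⊢
        exact hf i hi
      · simp only [if_neg h2])
    have h2 : ∑ j, f (g j) = ∑ j, (fun i => if i ∈ E then f i else 0) (g j) :=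
      Finset.sum_congr rfl fun j _ => by simp only [if_pos (hgE j)]
    rw [h2, h1]
    rw [Finset.sum_ite_mem, Finset.univ_inter]

/-- the inequalities for all forms -/
theorem form_strip (n : ℕ) : ∃ f : ℕ → MvPolynomial (Fin n × Fin 2) ℂ, (∀ k, f k ≠ 0) ∧
    ∀ p : Fin n → Fin 2 → ℂ,
      (∀ k, MvPolynomial.eval (fun q : Fin n × Fin 2 => p q.1 q.2) (f k) ≠ 0) →
      ∀ (x : Fin n → ℝ), (∀ i, 0 ≤ x i) →
        (∀ (i0 : Fin n) (c : ℝ), 0 < x i0 → x i0 < c → ∑ i, x i ^ 2 = c ^ 2 →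
          Room (univ.erase i0) x (c - x i0) (x i0) →
          ∀ (F : MvPolynomial (Fin 3) ℂ) (e : ℕ) (m : Fin n → ℕ), F.IsHomogeneous e → F ≠ 0 →
            (∀ i, MultGE (p i) F (m i)) → ∑ i, x i * (m i : ℝ) ≤ c * e) ∧
        (∀ i0 i1 : Fin n, i1 ≠ i0 → 0 < x i0 → 0 < x i1 → ∑ i, x i ^ 2 = (x i0 + x i1) ^ 2 →
          Room ((univ.erase i0).erase i1) x (x i1) (x i0) →
          ∀ (F : MvPolynomial (Fin 3) ℂ) (e : ℕ) (m : Fin n → ℕ), F.IsHomogeneous e → F ≠ 0 →
            (∀ i, MultGE (p i) F (m i)) → ∑ i, x i * (m i : ℝ) ≤ (x i0 + x i1) * e) := by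
  classical
  obtain ⟨f, hf, hf'⟩ := exists_conds_all (K := ℂ) n
  refine ⟨f, hf, fun p hp x hx0 => ⟨?_, ?_⟩⟩
  · intro i0 c h0 h1 hsq hr F e m hF hF0 hm
    obtain ⟨N, g, hg, hgE, hgx, hsum⟩ := exists_supp_on (univ.erase i0) hx0
    have hspl : ∀ f : Fin n → ℝ, (∀ i, x i = 0 → f i = 0) → ∑ i, f i = f i0 + ∑ j, f (g j) :=
      fun f hf => by rw [hsum f hf, Finset.add_sum_erase _ _ (Finset.mem_univ i0)]
    have hsq' := hspl (fun i => x i ^ 2) (fun i hi => by simp only [hi]; norm_num)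
    have hnf := nf_plane (c := c) (M := x i0) (fun j => x (g j)) hgx h0 h1 (by
      rw [hsq] at hsq'
      linarith) (hr.supp hg hgE)
    have hinj : Function.Injective (Fin.cons i0 g : Fin (N + 1) → Fin n) := by
      rw [Fin.cons_injective_iff]
      exact ⟨fun ⟨j, hj⟩ => (Finset.mem_erase.1 (hgE j)).1 hj, hg⟩
    have h2 := Pool.Agent.K6.H96.form_of_nf hf' hp hinj hnf hF hF0 hm
    rw [Fin.sum_univ_succ] at h2
    simp only [Fin.cons_zero, Fin.cons_succ] at h2
    rw [hspl (fun i => x i * (m i : ℝ)) (fun i hi => by simp only [hi, zero_mul])]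
    exact h2
  · intro i0 i1 h01 h0 h1 hsq hr F e m hF hF0 hm
    obtain ⟨N, g, hg, hgE, hgx, hsum⟩ := exists_supp_on ((univ.erase i0).erase i1) hx0
    have hspl : ∀ f : Fin n → ℝ, (∀ i, x i = 0 → f i = 0) →
        ∑ i, f i = f i0 + (f i1 + ∑ j, f (g j)) := fun f hf => by
      rw [hsum f hf, Finset.add_sum_erase _ _ (Finset.mem_erase.2 ⟨h01, Finset.mem_univ i1⟩),
        Finset.add_sum_erase _ _ (Finset.mem_univ i0)]
    have hsq' := hspl (fun i => x i ^ 2) (fun i hi => by simp only [hi]; norm_num)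
    have hnf := nf_rect (h := x i1) (M := x i0) (fun j => x (g j)) hgx h0 h1 (by
      rw [hsq] at hsq'
      nlinarith) (hr.supp hg hgE)
    have hne1 : ∀ j, g j ≠ i1 := fun j => (Finset.mem_erase.1 (hgE j)).1
    have hne0 : ∀ j, g j ≠ i0 := fun j => (Finset.mem_erase.1 (Finset.mem_erase.1 (hgE j)).2).1
    have hinj : Function.Injective
        (Fin.cons i0 (Fin.cons i1 g : Fin (N + 1) → Fin n) : Fin (N + 1 + 1) → Fin n) := by
      rw [Fin.cons_injective_iff, Fin.cons_injective_iff]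
      refine ⟨?_, fun ⟨j, hj⟩ => hne1 j hj, hg⟩
      rintro ⟨j, hj⟩
      revert hj
      refine Fin.cases ?_ (fun l => ?_) j
      · simp only [Fin.cons_zero]
        exact h01
      · simp only [Fin.cons_succ]
        exact hne0 l
    have h2 := Pool.Agent.K6.H96.form_of_nf hf' hp hinj hnf hF hF0 hm
    rw [Fin.sum_univ_succ, Fin.sum_univ_succ] at h2
    simp only [Fin.cons_zero, Fin.cons_succ] at h2
    rw [hspl (fun i => x i * (m i : ℝ)) (fun i hi => by simp only [hi, zero_mul])]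
    exact h2

end Pool.Agent.K6.H90.ST
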