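import Pool.Agent.K6.H90.ST.Cut2

/-! Unions of blocks of equal points have all slopes; donors. -/

set_option autoImplicit false

namespace Pool.Agent.K6.H90.ST

open Finset Pool.Agent.TH176.Nag Pool.Agent.TH146.MN

/-- the property of all slopes is additive -/
theorem UU'.add {ι κ : Type} [Fintype ι] [Fintype κ] {x : ι → ℝ} {y : κ → ℝ} {H : ℝ} (hH : 0 < H)
    (hx : 0 < ∑ i, x i ^ 2) (hy : 0 < ∑ i, y i ^ 2) (h1 : UU' x H) (h2 : UU' y H) :
    UU' (Sum.elim x y) H := by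
  intro w s hs hw μ ν hμν
  have hsum : ∑ i, (Sum.elim x y) i ^ 2 = ∑ i, x i ^ 2 + ∑ i, y i ^ 2 := by
    rw [Fintype.sum_sum_type]; simp
  rw [hsum] at hμν ⊢
  obtain ⟨A, hA⟩ : ∃ A : ℝ, A = ∑ i, x i ^ 2 := ⟨_, rfl⟩
  obtain ⟨B, hB⟩ : ∃ B : ℝ, B = ∑ i, y i ^ 2 := ⟨_, rfl⟩
  have g1 := h1 (fun i => w (Sum.inl i)) s hs (fun i => by simpa using hw (Sum.inl i)) 0 (A / H ^ 2)
    (by rw [zero_add, hA])
  have g2 := h2 (fun i => w (Sum.inr i)) s hs (fun i => by simpa using hw (Sum.inr i))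
    (-(A / H ^ 2)) (A / H ^ 2 + B / H ^ 2) (by rw [hB]; ring)
  rw [← hA] at hx hμν g1 ⊢
  rw [← hB] at hy hμν g2 ⊢
  have key : ∀ Z : ℝ, 0 < Z → s * √Z * √(Z / H ^ 2) = s * H * (Z / H ^ 2) := fun Z hZ => by
    rw [Real.sqrt_div hZ.le, Real.sqrt_sq hH.le]
    have : s * √Z * (√Z / H) = s * (√Z * √Z) / H := by ring
    rw [this, Real.mul_self_sqrt hZ.le]
    field_simp
  apply TS.toRT (by rw [hμν]; positivity)
  rw [hμν]
  intro α
  have g3 := Pool.Agent.TH366.RC.cutT (w := fun i => w (Sum.inl i)) (v := fun i => w (Sum.inr i))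
    (σ := A / H ^ 2) (ρ := B / H ^ 2) (h := s * H) (by positivity) (by positivity) (by positivity)
    (fun α => by
      have := g1 α
      rw [zero_add, key A hx] at this
      exact this) (fun α => by
      have := g2 α
      have e : -(A / H ^ 2) + (A / H ^ 2 + B / H ^ 2) = B / H ^ 2 := by ring
      rw [e, key B hy] at this
      exact this) α
  have e2 : (Sum.elim (fun i => w (Sum.inl i)) fun i => w (Sum.inr i)) = w := by
    funext i
    rcases i with i | i <;> rfl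
  rw [e2] at g3
  rw [zero_add, key (A + B) (by positivity)]
  have e3 : (A + B) / H ^ 2 = A / H ^ 2 + B / H ^ 2 := by ring
  rw [e3]
  exact g3

/-- blocks of equal points: all slopes, if `N τ` is an integer, `τ = t / H ≤ 1` -/
theorem UU_const2 {ι : Type} [Fintype ι] [Nonempty ι] {t H : ℝ} (ht : 0 < t) (hH : 0 < H)
    (htH : t ≤ H) (y : ℕ) (hy : (y : ℝ) = (Fintype.card ι : ℝ) * (t / H)) :
    UU' (fun _ : ι => t) H := by
  classical
  intro w s hs hw μ ν hμν
  have h1 : ∑ _i : ι, t ^ 2 = (Fintype.card ι : ℝ) * t ^ 2 := by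
    rw [Finset.sum_const, Finset.card_univ, nsmul_eq_mul]
  rw [h1] at hμν ⊢
  have hn : (0 : ℝ) < Fintype.card ι := by exact_mod_cast Fintype.card_pos
  obtain ⟨ρ, hρd⟩ : ∃ ρ : ℝ, ρ = (Fintype.card ι : ℝ) * t ^ 2 / H ^ 2 := ⟨_, rfl⟩
  have hρ : 0 < ρ := by rw [hρd]; positivity
  rw [← hρd] at hμν
  apply TS.toRT (by rw [hμν]; exact hρ)
  rw [hμν]
  have hle : ρ ≤ y := by
    rw [hy, hρd, mul_div_assoc]
    refine mul_le_mul_of_nonneg_left ?_ hn.le
    rw [div_le_div_iff₀ (by positivity) hH]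
    have : 0 ≤ t * H * (H - t) := by
      have := sub_nonneg.2 htH
      positivity
    nlinarith
  have hy0 : (0 : ℝ) < y := lt_of_lt_of_le hρ hle
  have hyρ : (y : ℝ) ^ 2 / ρ = Fintype.card ι := by
    rw [hy, hρd]
    field_simp
  refine Pool.Agent.TH366.RC.T.stepA 1 (y : ℤ) isCoprime_one_left (by norm_num) ?_ ?_ ?_ ?_
  · push_cast
    linarith
  · push_cast
    linarith
  · linarith
  have e : ((1 : ℤ) : ℝ) * (((1 : ℤ) : ℝ) * 0 + ((y : ℤ) : ℝ)) +
      (((y : ℤ) : ℝ) - ((1 : ℤ) : ℝ) * ρ) * (((1 : ℤ) : ℝ) * 0 + ((y : ℤ) : ℝ)) / (0 + ρ) =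
      Fintype.card ι := by
    rw [← hyρ]
    push_cast
    field_simp
    ring
  apply Pool.Agent.TH366.RC.T.toRT (by rw [e]; exact hn)
  rw [e]
  refine Pool.Agent.TH181.Nag.PS.final (ι := ι) le_rfl hn.le (zero_add _) w _ (by positivity) ?_
  rw [Real.sqrt_mul hn.le, Real.sqrt_sq ht.le]
  have e : √(Fintype.card ι : ℝ) * (s * (√(Fintype.card ι : ℝ) * t)) =
      (√(Fintype.card ι : ℝ) * √(Fintype.card ι : ℝ)) * (s * t) := by ring
  rw [e, Real.mul_self_sqrt hn.le]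
  have h2 : ∑ _i : ι, s * t < ∑ i, (w i : ℝ) :=
    Finset.sum_lt_sum_of_nonempty Finset.univ_nonempty fun i _ => hw i
  rw [Finset.sum_const, Finset.card_univ, nsmul_eq_mul] at h2
  exact h2

variable {ι : Type} [DecidableEq ι]

theorem UU_union {A B : Finset ι} (hd : Disjoint A B) {x : ι → ℝ} {H : ℝ} (hH : 0 < H)
    (hA : 0 < ∑ i ∈ A, x i ^ 2) (hB : 0 < ∑ i ∈ B, x i ^ 2) (h1 : UU' (fun i : A => x i) H)
    (h2 : UU' (fun i : B => x i) H) : UU' (fun i : ↥(A ∪ B) => x i) H := by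
  refine Pool.Agent.TH146.MN.UU'.equiv (Equiv.Finset.union A B hd) ?_
  have e : (fun j => x ((Equiv.Finset.union A B hd) j)) =
      Sum.elim (fun i : A => x i) (fun i : B => x i) := by
    funext j
    rcases j with j | j
    · simp
    · simp
  rw [e]
  refine UU'.add hH ?_ ?_ h1 h2
  · rw [Finset.sum_coe_sort A (fun i => x i ^ 2)]; exact hA
  · rw [Finset.sum_coe_sort B (fun i => x i ^ 2)]; exact hB

/-- every value is attained a multiple of `Q` times -/
def QD (Q : ℕ) (u : ι → ℕ) (R : Finset ι) : Prop := ∀ t : ℕ, Q ∣ (R.filter fun i => u i = t).card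

theorem QD.sdiff {Q : ℕ} {u : ι → ℕ} {R L : Finset ι} (hR : QD Q u R) (hL : QD Q u L)
    (h : L ⊆ R) : QD Q u (R \ L) := by
  intro t
  have e : (R \ L).filter (fun i => u i = t) =
      R.filter (fun i => u i = t) \ L.filter (fun i => u i = t) := by
    ext i
    simp only [Finset.mem_filter, Finset.mem_sdiff]
    tauto
  rw [e, Finset.card_sdiff_of_subset (Finset.filter_subset_filter _ h)]
  exact Nat.dvd_sub (hR t) (hL t)

omit [DecidableEq ι] in
theorem QD.const {Q : ℕ} {u : ι → ℕ} {K : Finset ι} {t : ℕ} (hK : ∀ i ∈ K, u i = t)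
    (h : Q ∣ K.card) : QD Q u K := by
  intro t'
  by_cases htt : t = t'
  · subst htt
    rw [Finset.filter_true_of_mem hK]
    exact h
  · rw [Finset.filter_false_of_mem fun i hi => by rw [hK i hi]; exact htt]
    simp

/-- a union of blocks has all slopes -/
theorem UU_good {B g : ℕ} (hB : 1 ≤ B) (hg : 1 ≤ g) {u : ι → ℕ} :
    ∀ (n : ℕ) (R : Finset ι), R.card = n → R.Nonempty → (∀ i ∈ R, 1 ≤ u i ∧ g * u i ≤ B) →
      QD B u R → UU' (fun i : R => (u i : ℝ)) ((B : ℝ) / g) := by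
  intro n
  induction n using Nat.strong_induction_on with
  | _ n ih =>
    intro R hn hne hR hQ
    obtain ⟨i, hi⟩ := hne
    obtain ⟨t, ht⟩ : ∃ t, t = u i := ⟨_, rfl⟩
    obtain ⟨F, hF⟩ : ∃ F : Finset ι, F = R.filter fun i => u i = t := ⟨_, rfl⟩
    have hFR : F ⊆ R := by rw [hF]; exact Finset.filter_subset _ _
    have hFt : ∀ j ∈ F, u j = t := fun j hj => by
      rw [hF] at hj; exact (Finset.mem_filter.1 hj).2
    have hiF : i ∈ F := by rw [hF, Finset.mem_filter]; exact ⟨hi, ht.symm⟩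
    have hBR : (0 : ℝ) < B := by exact_mod_cast hB
    have hgR : (0 : ℝ) < g := by exact_mod_cast hg
    have ht1 : 1 ≤ t ∧ g * t ≤ B := by rw [ht]; exact hR i hi
    have htR : (0 : ℝ) < t := by exact_mod_cast ht1.1
    have hdvd : B ∣ F.card := by rw [hF]; exact hQ t
    obtain ⟨c, hc⟩ := hdvd
    have hUF : UU' (fun i : F => (u i : ℝ)) ((B : ℝ) / g) := by
      have e : (fun i : F => (u i : ℝ)) = fun _ : F => (t : ℝ) := by
        funext j
        rw [hFt j.1 j.2]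
      rw [e]
      have : Nonempty F := ⟨⟨i, hiF⟩⟩
      refine UU_const2 htR (by positivity) ?_ (c * (g * t)) ?_
      · rw [le_div_iff₀ hgR, mul_comm]
        exact_mod_cast ht1.2
      · rw [Fintype.card_coe, hc]
        push_cast
        field_simp
    by_cases hRF : R \ F = ∅
    · have : R = F := by
        refine le_antisymm (fun j hj => ?_) hFR
        by_contra hcon
        have : j ∈ R \ F := Finset.mem_sdiff.2 ⟨hj, hcon⟩
        rw [hRF] at this
        exact absurd this (Finset.notMem_empty j)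
      rw [this]
      exact hUF
    have hne2 : (R \ F).Nonempty := Finset.nonempty_iff_ne_empty.2 hRF
    have hlt : (R \ F).card < n := by
      rw [← hn]
      exact Finset.card_lt_card ⟨Finset.sdiff_subset, fun h => (Finset.mem_sdiff.1 (h hi)).2 hiF⟩
    have hQF : QD B u F := QD.const hFt ⟨c, hc⟩
    have h3 := ih _ hlt (R \ F) rfl hne2 (fun j hj => hR j (Finset.mem_sdiff.1 hj).1)
      (hQ.sdiff hQF hFR)
    have hpos : ∀ S : Finset ι, S.Nonempty → S ⊆ R → 0 < ∑ i ∈ S, (u i : ℝ) ^ 2 := by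
      intro S hS hSR
      refine Finset.sum_pos (fun j hj => ?_) hS
      have : (0 : ℝ) < u j := by exact_mod_cast (hR j (hSR hj)).1
      positivity
    have h4 := UU_union (x := fun i => (u i : ℝ)) (Finset.disjoint_sdiff (s := F) (t := R))
      (by positivity) (hpos F ⟨i, hiF⟩ hFR) (hpos _ hne2 Finset.sdiff_subset) hUF h3
    rw [Finset.union_sdiff_of_subset hFR] at h4
    exact h4

/-- a batch consisting of blocks, of given mass -/
theorem donor {B : ℕ} (hB : 1 ≤ B) {u : ι → ℕ} {D0 : ℝ} (hD0 : 0 ≤ D0) {R : Finset ι}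
    (hR : ∀ i ∈ R, 1 ≤ u i ∧ 2 * u i ≤ B) :
    ∀ (n : ℕ) (L : Finset ι), L.card = n → L ⊆ R → QD B u L →
      D0 ≤ ∑ i ∈ L, (u i : ℝ) ^ 2 →
      ∃ L' ⊆ R, QD B u L' ∧ D0 ≤ ∑ i ∈ L', (u i : ℝ) ^ 2 ∧
        4 * ∑ i ∈ L', (u i : ℝ) ^ 2 ≤ 4 * D0 + (B : ℝ) ^ 3 := by
  intro n
  induction n using Nat.strong_induction_on with
  | _ n ih =>
    intro L hn hLR hQ hm
    by_cases hle : 4 * ∑ i ∈ L, (u i : ℝ) ^ 2 ≤ 4 * D0 + (B : ℝ) ^ 3
    · exact ⟨L, hLR, hQ, hm, hle⟩
    push Not at hle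
    have hne : L.Nonempty := by
      rw [Finset.nonempty_iff_ne_empty]
      intro h
      rw [h, Finset.sum_empty, mul_zero] at hle
      have : (0 : ℝ) ≤ (B : ℝ) ^ 3 := by positivity
      linarith
    obtain ⟨i, hi⟩ := hne
    obtain ⟨t, ht⟩ : ∃ t, t = u i := ⟨_, rfl⟩
    have hcard : B ≤ (L.filter fun i => u i = t).card := by
      refine Nat.le_of_dvd (Finset.card_pos.2 ⟨i, ?_⟩) (hQ t)
      exact Finset.mem_filter.2 ⟨hi, ht.symm⟩
    obtain ⟨K, hKsub, hKcard⟩ := Finset.exists_subset_card_eq hcard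
    have hKL : K ⊆ L := hKsub.trans (Finset.filter_subset _ _)
    have hKt : ∀ j ∈ K, u j = t := fun j hj => (Finset.mem_filter.1 (hKsub hj)).2
    have hKne : K.Nonempty := Finset.card_pos.1 (by rw [hKcard]; exact hB)
    obtain ⟨j, hj⟩ := hKne
    have hlt : (L \ K).card < n := by
      rw [← hn]
      exact Finset.card_lt_card ⟨Finset.sdiff_subset, fun h => (Finset.mem_sdiff.1 (h (hKL hj))).2 hj⟩
    have hQK : QD B u K := QD.const hKt (by rw [hKcard])
    have hsd := Finset.sum_sdiff (f := fun i => (u i : ℝ) ^ 2) hKL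
    have hKm : ∑ i ∈ K, (u i : ℝ) ^ 2 = (B : ℝ) * t ^ 2 := by
      rw [Finset.sum_congr rfl fun j hj => by rw [hKt j hj], Finset.sum_const, hKcard,
        nsmul_eq_mul]
    have ht2 : 2 * (t : ℝ) ≤ B := by
      have := (hR i (hLR hi)).2
      rw [← ht] at this
      exact_mod_cast this
    have ht0 : (0 : ℝ) ≤ t := Nat.cast_nonneg _
    have h4 : 4 * ((B : ℝ) * t ^ 2) ≤ (B : ℝ) ^ 3 := by
      have h5 : (2 * (t : ℝ)) ^ 2 ≤ (B : ℝ) ^ 2 := pow_le_pow_left₀ (by positivity) ht2 2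
      have h6 := mul_le_mul_of_nonneg_left h5 (Nat.cast_nonneg (α := ℝ) B)
      nlinarith
    refine ih _ hlt (L \ K) rfl (Finset.sdiff_subset.trans hLR) (hQ.sdiff hQK hKL) ?_
    linarith

end Pool.Agent.K6.H90.ST
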