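import Pool.Agent.TH146.MN.Few2
import Pool.Agent.K6.H96.F1

/-! Choosing a batch of points with few distinct multiplicities. -/

set_option autoImplicit false

namespace Pool.Agent.K6.H90.ST

open Finset Pool.Agent.TH176.Nag Pool.Agent.TH146.MN

section lower
variable {ι : Type} [DecidableEq ι]

theorem card_image_lower {G L : Finset ι} {x : ι → ℝ} (hL : L ⊆ G)
    (hlow : ∀ u ∈ G \ L, ∀ l ∈ L, x l ≤ x u) :
    (L.image x).card + ((G \ L).image x).card ≤ (G.image x).card + 1 := by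
  have h1 := Finset.card_union_add_card_inter (L.image x) ((G \ L).image x)
  have h2 : L.image x ∪ (G \ L).image x = G.image x := by
    rw [← Finset.image_union, Finset.union_sdiff_of_subset hL]
  have h3 : (L.image x ∩ (G \ L).image x).card ≤ 1 := by
    rw [Finset.card_le_one]
    intro a ha b hb
    rw [Finset.mem_inter, Finset.mem_image, Finset.mem_image] at ha hb
    obtain ⟨⟨l1, hl1, rfl⟩, ⟨u1, hu1, hu1'⟩⟩ := ha
    obtain ⟨⟨l2, hl2, rfl⟩, ⟨u2, hu2, hu2'⟩⟩ := hb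
    have h4 := hlow u2 hu2 l1 hl1
    have h5 := hlow u1 hu1 l2 hl2
    rw [hu2'] at h4
    rw [hu1'] at h5
    exact le_antisymm h4 h5
  rw [h2] at h1
  omega

/-- a batch of points of given mass -/
theorem exists_lower_aux {G : Finset ι} {x : ι → ℝ} {W A0 : ℝ} (hA0 : 0 ≤ A0) (hW : 0 < W)
    (hx : ∀ i ∈ G, 0 < x i ∧ x i ≤ W) :
    ∀ (n : ℕ) (L : Finset ι), L.card = n → L ⊆ G → (∀ u ∈ G \ L, ∀ l ∈ L, x l ≤ x u) →
      A0 + (16 * ((L.image x).card : ℝ) + 8) * W ^ 2 ≤ ∑ i ∈ L, x i ^ 2 →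
      ∃ L' ⊆ G, (∀ u ∈ G \ L', ∀ l ∈ L', x l ≤ x u) ∧
        A0 + (16 * ((L'.image x).card : ℝ) + 8) * W ^ 2 ≤ ∑ i ∈ L', x i ^ 2 ∧
        ∑ i ∈ L', x i ^ 2 ≤ A0 + (16 * ((L'.image x).card : ℝ) + 9) * W ^ 2 := by
  intro n
  induction n with
  | zero =>
    intro L hL hsub hlow hm
    rw [Finset.card_eq_zero] at hL
    subst hL
    exfalso
    simp only [Finset.image_empty, Finset.card_empty, Finset.sum_empty, Nat.cast_zero] at hm
    have : 0 < W ^ 2 := by positivity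
    nlinarith
  | succ n ih =>
    intro L hL hsub hlow hm
    by_cases hle : ∑ i ∈ L, x i ^ 2 ≤ A0 + (16 * ((L.image x).card : ℝ) + 9) * W ^ 2
    · exact ⟨L, hsub, hlow, hm, hle⟩
    push Not at hle
    have hne : L.Nonempty := Finset.card_pos.1 (by omega)
    obtain ⟨m, hmL, hmax⟩ := Finset.exists_max_image L x hne
    have hsum := Finset.sum_erase_add L (fun i => x i ^ 2) hmL
    have hxm := hx m (hsub hmL)
    have hxm2 : x m ^ 2 ≤ W ^ 2 := by
      have := hxm.1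
      have := hxm.2
      nlinarith
    have hcard : (((L.erase m).image x).card : ℝ) ≤ (L.image x).card := by
      exact_mod_cast Finset.card_le_card (Finset.image_subset_image (Finset.erase_subset m L))
    refine ih (L.erase m) ?_ ((Finset.erase_subset m L).trans hsub) ?_ ?_
    · rw [Finset.card_erase_of_mem hmL, hL]; rfl
    · intro u hu l hl
      have hlL := Finset.mem_of_mem_erase hl
      rw [Finset.mem_sdiff] at hu
      by_cases hum : u = m
      · subst hum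
        exact hmax l hlL
      · refine hlow u ?_ l hlL
        rw [Finset.mem_sdiff]
        refine ⟨hu.1, fun h => hu.2 (Finset.mem_erase.2 ⟨hum, h⟩)⟩
    · have : 0 < W ^ 2 := by positivity
      nlinarith

/-- a batch of points of given mass -/
theorem exists_lower {G : Finset ι} {x : ι → ℝ} {W A0 : ℝ} (hA0 : 0 ≤ A0) (hW : 0 < W)
    (hx : ∀ i ∈ G, 0 < x i ∧ x i ≤ W)
    (hm : A0 + (16 * ((G.image x).card : ℝ) + 8) * W ^ 2 ≤ ∑ i ∈ G, x i ^ 2) :
    ∃ L ⊆ G, (L.image x).card + ((G \ L).image x).card ≤ (G.image x).card + 1 ∧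
        A0 + (16 * ((L.image x).card : ℝ) + 8) * W ^ 2 ≤ ∑ i ∈ L, x i ^ 2 ∧
        ∑ i ∈ L, x i ^ 2 ≤ A0 + (16 * ((L.image x).card : ℝ) + 9) * W ^ 2 := by
  obtain ⟨L, h1, h2, h3, h4⟩ := exists_lower_aux hA0 hW hx G.card G rfl subset_rfl (by
    intro u hu
    rw [Finset.sdiff_self] at hu
    exact absurd hu (Finset.notMem_empty u)) hm
  exact ⟨L, h1, card_image_lower h1 h2, h3, h4⟩

end lower

/-- all slopes for a family with few distinct multiplicities -/
theorem UU_few {ι : Type} [Fintype ι] {x : ι → ℝ} {W : ℝ} (hW : 0 < W)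
    (hx : ∀ i, 0 < x i ∧ x i ≤ W)
    (hm : (16 * (((univ : Finset ι).image x).card : ℝ) + 8) * W ^ 2 ≤ ∑ i, x i ^ 2) :
    UU' x (4 * W) := by
  classical
  have hW2 : 0 < W ^ 2 := by positivity
  obtain ⟨V, hV⟩ : ∃ V : Finset ℝ, V = (univ : Finset ι).image x := ⟨_, rfl⟩
  rw [← hV] at hm
  have hne : Nonempty ι := by
    by_contra h
    rw [not_nonempty_iff] at h
    rw [Finset.univ_eq_empty, Finset.sum_empty] at hm
    have : (0 : ℝ) ≤ V.card := Nat.cast_nonneg _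
    nlinarith
  have hmem : ∀ i, x i ∈ V := fun i => by
    rw [hV]; exact Finset.mem_image_of_mem x (Finset.mem_univ i)
  have hr : 0 < V.card := Finset.card_pos.2 ⟨x hne.some, hmem _⟩
  obtain ⟨y, hy⟩ : ∃ y : Fin V.card → ℝ, ∀ l, y l = ((V.equivFin.symm l : V) : ℝ) :=
    ⟨_, fun _ => rfl⟩
  obtain ⟨gr, hgr⟩ : ∃ gr : ι → Fin V.card, ∀ i, gr i = V.equivFin ⟨x i, hmem i⟩ :=
    ⟨_, fun _ => rfl⟩
  have hygr : ∀ i, y (gr i) = x i := fun i => by
    rw [hy, hgr, Equiv.symm_apply_apply]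
  have hsurj : Function.Surjective gr := by
    intro l
    obtain ⟨a, ha⟩ : ∃ a, a = V.equivFin.symm l := ⟨_, rfl⟩
    have hal : V.equivFin a = l := by rw [ha, Equiv.apply_symm_apply]
    have hmV : ∀ t, t ∈ V → ∃ i, x i = t := fun t ht => by
      rw [hV, Finset.mem_image] at ht
      obtain ⟨i, -, hi⟩ := ht
      exact ⟨i, hi⟩
    obtain ⟨i, hi⟩ := hmV a.1 a.2
    refine ⟨i, ?_⟩
    rw [hgr, ← hal]
    congr 1
    exact Subtype.ext hi
  have hy1 : ∀ l, 0 < y l ∧ y l ≤ W := by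
    intro l
    obtain ⟨i, rfl⟩ := hsurj l
    rw [hygr]
    exact hx i
  have h2 := U_few hr gr hsurj y hW (fun l => (hy1 l).1) (fun l => (hy1 l).2) (by
    have : ∑ i, y (gr i) ^ 2 = ∑ i, x i ^ 2 := Finset.sum_congr rfl fun i _ => by rw [hygr]
    rw [this]
    exact hm)
  have h3 : (fun i => y (gr i)) = x := funext hygr
  rw [h3] at h2
  exact h2

/-- all slopes for a batch with few distinct multiplicities -/
theorem UU_batch {ι : Type} [DecidableEq ι] {x : ι → ℝ} {W H : ℝ} (hW : 0 < W) (L : Finset ι)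
    (hx : ∀ i ∈ L, 0 < x i ∧ x i ≤ W)
    (hm : (16 * ((L.image x).card : ℝ) + 8) * W ^ 2 ≤ ∑ i ∈ L, x i ^ 2)
    (hH : 8 * W ≤ H) (hm2 : 3 * H ^ 2 ≤ 2 * ∑ i ∈ L, x i ^ 2) :
    UU' (fun i : L => x i) H := by
  have e1 : ∑ i : L, x i ^ 2 = ∑ i ∈ L, x i ^ 2 := Finset.sum_coe_sort L (fun i => x i ^ 2)
  have e2 : ((univ : Finset L).image fun i : L => x i) = L.image x := by
    ext t
    simp only [Finset.mem_image, Finset.mem_univ, true_and, Subtype.exists]
    constructor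
    · rintro ⟨i, hi, rfl⟩
      exact ⟨i, hi, rfl⟩
    · rintro ⟨i, hi, rfl⟩
      exact ⟨i, hi, rfl⟩
  refine Pool.Agent.K6.H96.UU'.up (H' := 4 * W) (by positivity) (by linarith) ?_ ?_
  · rw [e1]; exact hm2
  · refine UU_few hW (fun i => hx i.1 i.2) ?_
    rw [e1, e2]
    exact hm

end Pool.Agent.K6.H90.ST
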