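import Pool.Agent.K6.H90.ST.Strip
import Pool.Agent.K6.H96.NfOne

/-! Nef classes of self-intersection zero with many arbitrary coefficients. -/

set_option autoImplicit false

namespace Pool.Agent.K6.H90.ST

open Finset Pool.Agent.TH176.Nag Pool.Agent.TH146.MN

/-- `h` is the height of the strip, `M` the length of its shorter side: the coefficients are at most
`h / 2`, and `M` is large in comparison with the number of the coefficients greater than `W` and the
number of the distinct coefficients at most `W`, where `16 W ≤ h` -/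
def Room {ι : Type} (E : Finset ι) (x : ι → ℝ) (h M : ℝ) : Prop :=
  ∃ W : ℝ, 0 < W ∧ 16 * W ≤ h ∧ (∀ i ∈ E, 2 * x i ≤ h) ∧
    (((E.filter fun i => W < x i).card : ℝ) + 1) * (2 * h ^ 2) +
      16 * (((E.filter fun i => 0 < x i ∧ x i ≤ W).image x).card : ℝ) * W ^ 2 ≤ M * h

theorem Emp_Zt {n : ℕ} {x : Fin n → ℝ} {h M b δ s : ℝ} (hx : ∀ i, 0 < x i)
    (hr : Room univ x h M) (hδ : 0 ≤ δ) (hM : M = b - δ * h)
    (hsum : ∑ i, x i ^ 2 = (2 * b - δ * h) * h) (hs : 0 < s) {w : Fin n → ℕ}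
    (hw : ∀ i, s * x i < w i) : Emp w (Zt (s * b) δ (s * h)) := by
  classical
  obtain ⟨W, hW, hWh, h1, h2⟩ := hr
  obtain ⟨A, hA⟩ : ∃ A : Finset (Fin n), A = univ.filter fun i => W < x i := ⟨_, rfl⟩
  obtain ⟨G, hG⟩ : ∃ G : Finset (Fin n), G = univ.filter fun i => 0 < x i ∧ x i ≤ W := ⟨_, rfl⟩
  have hAm : ∀ i, i ∈ A ↔ W < x i := fun i => by rw [hA]; simp
  have hGm : ∀ i, i ∈ G ↔ x i ≤ W := fun i => by rw [hG]; simp [hx i]
  have hdis : Disjoint A G := by
    rw [Finset.disjoint_left]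
    intro i hi hi2
    rw [hAm] at hi
    rw [hGm] at hi2
    linarith
  have hall : ∀ i, i ∈ A ∪ G := by
    intro i
    rw [Finset.mem_union, hAm, hGm]
    exact lt_or_ge _ _
  have huniv : A ∪ G = univ := Finset.eq_univ_iff_forall.2 hall
  have h3 := strip hW hWh hs hw A G b δ hdis (fun i _ => ⟨hx i, h1 i (Finset.mem_univ i)⟩)
    (fun i hi => ⟨hx i, (hGm i).1 hi⟩) hδ (by
      rw [← Finset.sum_union hdis, huniv]; exact hsum) (by
      rw [← hM, hA, hG]
      convert h2)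
  exact Pool.Agent.TH366.RC.Emp_reindex (Equiv.subtypeUnivEquiv hall).symm h3

theorem nf_gen {m : ℕ} (X : Fin (m + 1) → ℝ) {c : ℝ} (hX : ∀ i, 0 < X i) (hc : 0 < c)
    (hsq : ∑ i, X i ^ 2 = c ^ 2)
    (key : ∀ (w : Fin (m + 1) → ℕ) (d : ℕ) (s : ℝ), 0 < s → (d : ℝ) ≤ s * c →
      (∀ i, s * X i < w i) → Emp w {m : ℤ × ℤ | 0 ≤ m.1 ∧ 0 ≤ m.2 ∧ m.1 + m.2 ≤ (d : ℤ)}) :
    Pool.Agent.H350R3.NB.Nf ℂ X c := by
  refine NF.nf_of_star _ hX hc hsq fun w d hw => ?_
  have hs1 : ∀ i, ∃ t : ℝ, (d : ℝ) / c < t ∧ t * X i < w i := by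
    intro i
    have h1 : (d : ℝ) / c < w i / X i := by
      rw [div_lt_div_iff₀ hc (hX i)]
      have := hw i
      linarith
    obtain ⟨t, h2, h3⟩ := exists_between h1
    exact ⟨t, h2, by rwa [lt_div_iff₀ (hX i)] at h3⟩
  choose t ht1 ht2 using hs1
  obtain ⟨i1, -, hi1⟩ := Finset.exists_min_image (Finset.univ : Finset (Fin (m + 1))) t
    Finset.univ_nonempty
  have hd0 : (0 : ℝ) ≤ d := Nat.cast_nonneg d
  have hs : 0 < t i1 := lt_of_le_of_lt (by positivity) (ht1 i1)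
  have hsd : (d : ℝ) < t i1 * c := by
    have := ht1 i1
    rwa [div_lt_iff₀ hc] at this
  have hsw : ∀ i, t i1 * X i < w i := fun i =>
    lt_of_le_of_lt (mul_le_mul_of_nonneg_right (hi1 i (Finset.mem_univ _)) (hX i).le) (ht2 i)
  exact key w d _ hs hsd.le hsw

/-- the class `c H - M E_0 - ∑ x i E_i` is nef -/
theorem nf_plane {n : ℕ} (x : Fin n → ℝ) (hx : ∀ i, 0 < x i) {c M : ℝ} (hM : 0 < M) (hMc : M < c)
    (hsq : ∑ i, x i ^ 2 = c ^ 2 - M ^ 2) (hr : Room univ x (c - M) M) :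
    Pool.Agent.H350R3.NB.Nf ℂ (Fin.cons M x : Fin (n + 1) → ℝ) c := by
  have hX0 : ∀ i, 0 < (Fin.cons M x : Fin (n + 1) → ℝ) i := by
    intro i
    refine Fin.cases ?_ (fun j => ?_) i
    · simpa using hM
    · simpa using hx j
  refine nf_gen _ hX0 (by linarith) ?_ ?_
  · rw [Fin.sum_univ_succ]
    simp only [Fin.cons_zero, Fin.cons_succ]
    rw [hsq]; ring
  · intro w d s hs hd hw
    have hs0 : s * M < w 0 := by
      have := hw 0
      simpa using this
    have hsj : ∀ j : Fin n, s * x j < w j.succ := fun j => by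
      have := hw j.succ
      simpa using this
    have h1 := Emp_Zt (b := c) (δ := 1) (h := c - M) (M := M) hx hr zero_le_one (by ring)
      (by rw [hsq]; ring) hs hsj
    have key : Emp (fun o : Option (Fin n) => o.elim (w 0) fun j => w j.succ)
        {m : ℤ × ℤ | 0 ≤ m.1 ∧ 0 ≤ m.2 ∧ m.1 + m.2 ≤ (d : ℤ)} := by
      refine Pool.Agent.K6.H96.Emp_plane_Tz (C := s * c) (B := s * (c - M)) hd (by linarith) ?_
      refine h1.mono ?_
      rintro ⟨m1, m2⟩ ⟨k1, k2, k3, k4⟩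
      simp only at k1 k2 k3 k4
      exact ⟨k1, k2, k3, by simp only; linarith⟩
    have h4 := Pool.Agent.TH366.RC.Emp_reindex (finSuccEquiv n) key
    have e : (fun j => (finSuccEquiv n j).elim (w 0) fun j => w j.succ) = w := by
      funext j
      refine Fin.cases ?_ (fun i => ?_) j
      · simp
      · simp
    rw [e] at h4
    exact h4

/-- two points at the corners of the plane -/
theorem Emp_plane_rect {ι : Type} {w : ι → ℕ} {d v0 v1 : ℕ} {M h : ℝ} (h0 : (d : ℝ) - v0 ≤ h)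
    (h1 : (d : ℝ) - v1 ≤ M) (hE : Emp w (Zt M 0 h)) :
    Emp (fun o : Option (Option ι) => o.elim v0 fun o' => o'.elim v1 w)
      {m : ℤ × ℤ | 0 ≤ m.1 ∧ 0 ≤ m.2 ∧ m.1 + m.2 ≤ (d : ℤ)} := by
  have hfin := Pool.Agent.K6.H96.plane_finite d
  -- the region for the other points
  have h2 : Emp w {m : ℤ × ℤ | 0 ≤ m.1 ∧ 0 ≤ m.2 ∧ m.1 + m.2 ≤ (d : ℤ) ∧
      m.2 ≤ (d : ℤ) - v0 ∧ (v1 : ℤ) ≤ m.1 + m.2} := by
    refine hE.comap (-1) (-1) 0 1 d 0 (by norm_num) ?_
    rintro ⟨i, t⟩ ⟨k1, k2, k3, k4, k5⟩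
    simp only at k1 k2 k3 k4 k5
    have c4 : (t : ℝ) ≤ d - v0 := by exact_mod_cast k4
    have c5 : (v1 : ℝ) ≤ i + t := by exact_mod_cast k5
    refine ⟨by simp only; omega, by simp only; omega, ?_, ?_⟩
    · simp only
      push_cast
      linarith
    · simp only
      push_cast
      linarith
  have h3 : Emp (fun o : Option ι => o.elim v1 w) {m : ℤ × ℤ | 0 ≤ m.1 ∧ 0 ≤ m.2 ∧
      m.1 + m.2 ≤ (d : ℤ) ∧ m.2 ≤ (d : ℤ) - v0} := by
    refine Pool.Agent.TH102.DP.Emp_absorb v1 (hfin.subset fun m hm => ⟨hm.1, hm.2.1, hm.2.2.1⟩)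
      (fun m hm => hm.2.1) (fun _ => 0) (fun m hm => hm.1) ?_ h2
    rintro ⟨i, t⟩ ⟨k1, k2, k3, k4⟩ k5
    simp only at k1 k2 k3 k4 k5
    exact ⟨k1, k2, k3, k4, by simp only; omega⟩
  have h4 : Emp (fun o : Option ι => o.elim v1 w) {m : ℤ × ℤ | 0 ≤ m.1 ∧ 0 ≤ m.2 ∧
      m.1 + m.2 ≤ (d : ℤ) ∧ (v0 : ℤ) ≤ m.1 + m.2} := by
    refine h3.comap 1 0 (-1) (-1) 0 d (by norm_num) ?_
    rintro ⟨i, j⟩ ⟨k1, k2, k3, k4⟩
    simp only at k1 k2 k3 k4
    refine ⟨by simp only; omega, by simp only; omega, by simp only; omega, by simp only; omega⟩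
  refine Pool.Agent.TH102.DP.Emp_absorb v0 hfin (fun m hm => hm.2.1) (fun _ => 0)
    (fun m hm => hm.1) ?_ h4
  rintro ⟨i, j⟩ ⟨k1, k2, k3⟩ k4
  simp only at k1 k2 k3 k4
  exact ⟨k1, k2, k3, by simp only; omega⟩

/-- the class `(M + h) H - M E_0 - h E_1 - ∑ x i E_i` is nef -/
theorem nf_rect {n : ℕ} (x : Fin n → ℝ) (hx : ∀ i, 0 < x i) {h M : ℝ} (hM : 0 < M) (hh : 0 < h)
    (hsq : ∑ i, x i ^ 2 = 2 * M * h) (hr : Room univ x h M) :
    Pool.Agent.H350R3.NB.Nf ℂ
      (Fin.cons M (Fin.cons h x : Fin (n + 1) → ℝ) : Fin (n + 1 + 1) → ℝ) (M + h) := by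
  have hX0 : ∀ i, 0 < (Fin.cons M (Fin.cons h x : Fin (n + 1) → ℝ) : Fin (n + 1 + 1) → ℝ) i := by
    intro i
    refine Fin.cases ?_ (fun j => Fin.cases ?_ (fun l => ?_) j) i
    · simpa using hM
    · simpa using hh
    · simpa using hx l
  refine nf_gen _ hX0 (by linarith) ?_ ?_
  · rw [Fin.sum_univ_succ, Fin.sum_univ_succ]
    simp only [Fin.cons_zero, Fin.cons_succ]
    rw [hsq]; ring
  · intro w d s hs hd hw
    have hs0 : s * M < w 0 := by
      have := hw 0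
      simpa using this
    have hs1 : s * h < w 1 := by
      have := hw (Fin.succ 0)
      simpa using this
    have hsj : ∀ j : Fin n, s * x j < w j.succ.succ := fun j => by
      have := hw j.succ.succ
      simpa using this
    have h1 := Emp_Zt (b := M) (δ := 0) (h := h) (M := M) hx hr le_rfl (by ring)
      (by rw [hsq]; ring) hs hsj
    have key := Emp_plane_rect (d := d) (v0 := w 0) (v1 := w 1) (by linarith) (by linarith) h1
    have h4 := Pool.Agent.TH366.RC.Emp_reindex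
      ((finSuccEquiv (n + 1)).trans (Equiv.optionCongr (finSuccEquiv n))) key
    have e : (fun j => (((finSuccEquiv (n + 1)).trans (Equiv.optionCongr (finSuccEquiv n))) j).elim
        (w 0) fun o' => o'.elim (w 1) fun j => w j.succ.succ) = w := by
      funext j
      refine Fin.cases ?_ (fun i => Fin.cases ?_ (fun l => ?_) i) j
      · rw [Equiv.trans_apply, finSuccEquiv_zero, Equiv.optionCongr_apply, Option.map_none]
        rfl
      · rw [Equiv.trans_apply, finSuccEquiv_succ, Equiv.optionCongr_apply, Option.map_some,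
          finSuccEquiv_zero]
        rfl
      · rw [Equiv.trans_apply, finSuccEquiv_succ, Equiv.optionCongr_apply, Option.map_some,
          finSuccEquiv_succ]
        rfl
    rw [e] at h4
    exact h4

end Pool.Agent.K6.H90.ST
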