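import Pool.Agent.K6.H90.ST.Strip3
import Pool.Agent.K6.H90.ST.Nef

/-! Nef classes of self-intersection zero with integral further coefficients. -/

set_option autoImplicit false

namespace Pool.Agent.K6.H90.ST

open Finset Pool.Agent.TH176.Nag Pool.Agent.TH146.MN

/-- `h = B` is the height of the strip, `M` the length of its shorter side: the coefficients are
integers at most `B / 2`, and `M` is large in comparison with the number of the distinct ones -/
def RoomI {ι : Type} (E : Finset ι) (x : ι → ℝ) (h M : ℝ) : Prop :=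
  ∃ (B : ℕ) (u : ι → ℕ), 2 ≤ B ∧ h = B ∧ (∀ i ∈ E, x i = u i ∧ 2 * u i ≤ B) ∧
    ((((E.filter fun i => 0 < u i).image u).card : ℝ) + 1) * (3 * (B : ℝ) ^ 2 + 4 * B) ≤ 4 * M

theorem Emp_Zt2 {n : ℕ} {x : Fin n → ℝ} {h M b δ s : ℝ} (hx : ∀ i, 0 < x i)
    (hr : RoomI univ x h M) (hδ : 0 ≤ δ) (hM : M = b - δ * h)
    (hsum : ∑ i, x i ^ 2 = (2 * b - δ * h) * h) (hs : 0 < s) {w : Fin n → ℕ}
    (hw : ∀ i, s * x i < w i) : Emp w (Zt (s * b) δ (s * h)) := by
  classical
  obtain ⟨B, u, hB, rfl, hu, hroom⟩ := hr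
  have hxu : ∀ i, x i = u i := fun i => (hu i (Finset.mem_univ i)).1
  have hB0 : (0 : ℝ) < B := by
    have : (2 : ℝ) ≤ B := by exact_mod_cast hB
    linarith
  have hu1 : ∀ i, 1 ≤ u i := fun i => by
    have := hx i
    rw [hxu] at this
    exact_mod_cast this
  have hfil : (univ.filter fun i => 0 < u i) = univ := Finset.filter_true_of_mem fun i _ => hu1 i
  rw [hfil] at hroom
  obtain ⟨U, hU⟩ : ∃ U : Finset (Fin n), U = univ := ⟨_, rfl⟩
  rw [← hU] at hroom hsum
  have hall : ∀ i, i ∈ U := fun i => by rw [hU]; exact Finset.mem_univ i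
  have h0 : ∑ i ∈ U, (u i : ℝ) ^ 2 = (b + M) * B := by
    have : ∑ i ∈ U, (u i : ℝ) ^ 2 = ∑ i ∈ U, x i ^ 2 := Finset.sum_congr rfl fun i _ => by rw [hxu]
    rw [this, hsum, hM]; ring
  have hbM : M ≤ b := by
    have : 0 ≤ δ * B := by positivity
    linarith
  have hroom2 : (((U.image u).card : ℝ) + 1) * (3 * (B : ℝ) ^ 3 + 4 * (B : ℝ) ^ 2) ≤
      4 * (M * B) := by
    have h3 := mul_le_mul_of_nonneg_right hroom hB0.le
    have e3 : (((U.image u).card : ℝ) + 1) * (3 * (B : ℝ) ^ 2 + 4 * B) * B =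
      (((U.image u).card : ℝ) + 1) * (3 * (B : ℝ) ^ 3 + 4 * (B : ℝ) ^ 2) := by ring
    rw [e3] at h3
    linarith
  have h1 := int_strip (B := B) (u := u) (w := w) (s := s) (b := b) (b' := M) hs hB
    (fun i => by rw [← hxu]; exact hw i) U (fun i _ => ⟨hu1 i, (hu i (Finset.mem_univ i)).2⟩)
    hbM h0 hroom2
  have e1 : (s * b - s * M) / (s * B) = δ := by
    rw [hM]; field_simp; ring
  unfold Tp at h1
  rw [e1] at h1
  clear hU hroom hroom2 h0 hsum
  obtain ⟨e, he⟩ : ∃ e : Fin n ≃ U, ∀ j, ((e j : U) : Fin n) = j :=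
    ⟨(Equiv.subtypeUnivEquiv hall).symm, fun j => rfl⟩
  have h2 := Pool.Agent.TH366.RC.Emp_reindex e h1
  have e2 : (fun j => (fun i : U => w i) (e j)) = w := by
    funext j
    simp only [he]
  rw [e2] at h2
  exact h2

/-- the class `c H - M E_0 - ∑ x i E_i` is nef -/
theorem nf_plane2 {n : ℕ} (x : Fin n → ℝ) (hx : ∀ i, 0 < x i) {c M : ℝ} (hM : 0 < M) (hMc : M < c)
    (hsq : ∑ i, x i ^ 2 = c ^ 2 - M ^ 2) (hr : RoomI univ x (c - M) M) :
    Pool.Agent.H350R3.NB.Nf ℂ (Fin.cons M x : Fin (n + 1) → ℝ) c := by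
  have hX0 : ∀ i, 0 < (Fin.cons M x : Fin (n + 1) → ℝ) i := by
    intro i
    refine Fin.cases ?_ (fun j => ?_) i
    · simpa using hM
    · simpa using hx j
  refine nf_gen _ hX0 (by linarith) ?_ ?_
  · rw [Fin.sum_univ_succ]
    simp only [Fin.cons_zero, Fin.cons_succ]
    rw [hsq]; ring
  · intro w d s hs hd hw
    have hs0 : s * M < w 0 := by
      have := hw 0
      simpa using this
    have hsj : ∀ j : Fin n, s * x j < w j.succ := fun j => by
      have := hw j.succ
      simpa using this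
    have h1 := Emp_Zt2 (b := c) (δ := 1) (h := c - M) (M := M) hx hr zero_le_one (by ring)
      (by rw [hsq]; ring) hs hsj
    have key : Emp (fun o : Option (Fin n) => o.elim (w 0) fun j => w j.succ)
        {m : ℤ × ℤ | 0 ≤ m.1 ∧ 0 ≤ m.2 ∧ m.1 + m.2 ≤ (d : ℤ)} := by
      refine Pool.Agent.K6.H96.Emp_plane_Tz (C := s * c) (B := s * (c - M)) hd (by linarith) ?_
      refine h1.mono ?_
      rintro ⟨m1, m2⟩ ⟨k1, k2, k3, k4⟩
      simp only at k1 k2 k3 k4
      exact ⟨k1, k2, k3, by simp only; linarith⟩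
    have h4 := Pool.Agent.TH366.RC.Emp_reindex (finSuccEquiv n) key
    have e : (fun j => (finSuccEquiv n j).elim (w 0) fun j => w j.succ) = w := by
      funext j
      refine Fin.cases ?_ (fun i => ?_) j
      · simp
      · simp
    rw [e] at h4
    exact h4

/-- the class `(M + h) H - M E_0 - h E_1 - ∑ x i E_i` is nef -/
theorem nf_rect2 {n : ℕ} (x : Fin n → ℝ) (hx : ∀ i, 0 < x i) {h M : ℝ} (hM : 0 < M) (hh : 0 < h)
    (hsq : ∑ i, x i ^ 2 = 2 * M * h) (hr : RoomI univ x h M) :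
    Pool.Agent.H350R3.NB.Nf ℂ
      (Fin.cons M (Fin.cons h x : Fin (n + 1) → ℝ) : Fin (n + 1 + 1) → ℝ) (M + h) := by
  have hX0 : ∀ i, 0 < (Fin.cons M (Fin.cons h x : Fin (n + 1) → ℝ) : Fin (n + 1 + 1) → ℝ) i := by
    intro i
    refine Fin.cases ?_ (fun j => Fin.cases ?_ (fun l => ?_) j) i
    · simpa using hM
    · simpa using hh
    · simpa using hx l
  refine nf_gen _ hX0 (by linarith) ?_ ?_
  · rw [Fin.sum_univ_succ, Fin.sum_univ_succ]
    simp only [Fin.cons_zero, Fin.cons_succ]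
    rw [hsq]; ring
  · intro w d s hs hd hw
    have hs0 : s * M < w 0 := by
      have := hw 0
      simpa using this
    have hs1 : s * h < w 1 := by
      have := hw (Fin.succ 0)
      simpa using this
    have hsj : ∀ j : Fin n, s * x j < w j.succ.succ := fun j => by
      have := hw j.succ.succ
      simpa using this
    have h1 := Emp_Zt2 (b := M) (δ := 0) (h := h) (M := M) hx hr le_rfl (by ring)
      (by rw [hsq]; ring) hs hsj
    have key := Emp_plane_rect (d := d) (v0 := w 0) (v1 := w 1) (by linarith) (by linarith) h1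
    have h4 := Pool.Agent.TH366.RC.Emp_reindex
      ((finSuccEquiv (n + 1)).trans (Equiv.optionCongr (finSuccEquiv n))) key
    have e : (fun j => (((finSuccEquiv (n + 1)).trans (Equiv.optionCongr (finSuccEquiv n))) j).elim
        (w 0) fun o' => o'.elim (w 1) fun j => w j.succ.succ) = w := by
      funext j
      refine Fin.cases ?_ (fun i => Fin.cases ?_ (fun l => ?_) i) j
      · rw [Equiv.trans_apply, finSuccEquiv_zero, Equiv.optionCongr_apply, Option.map_none]
        rfl
      · rw [Equiv.trans_apply, finSuccEquiv_succ, Equiv.optionCongr_apply, Option.map_some,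
          finSuccEquiv_zero]
        rfl
      · rw [Equiv.trans_apply, finSuccEquiv_succ, Equiv.optionCongr_apply, Option.map_some,
          finSuccEquiv_succ]
        rfl
    rw [e] at h4
    exact h4

end Pool.Agent.K6.H90.ST
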