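import Pool.Agent.K6.H90.ST.Curves2
import Pool.Agent.Y939.XN.Few

/-! Negative curves with many large multiplicities. -/

set_option autoImplicit false

namespace Pool.Agent.K6.H90.ST

open Finset Pool.Agent.W609 Pool.Agent.W609.CR Pool.Agent.TH167 Pool.Agent.TH167.SH
open Pool.Agent.R355.ConeAct
open Pool.Agent.Y939.XN (card_spaced)

/-- The number of the indices `i ≠ i0` with `w i > μ`. -/
def big {n : ℕ} (i0 : Fin n) (w : Fin n → ℕ) (μ : ℕ) : ℕ :=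
  ((univ.erase i0).filter fun i => μ < w i).card

/-- The number of the distinct numbers among the `w i`, `i ≠ i0`, with `0 < w i ≤ μ`. -/
def small {n : ℕ} (i0 : Fin n) (w : Fin n → ℕ) (μ : ℕ) : ℕ :=
  (((univ.erase i0).filter fun i => 0 < w i ∧ w i ≤ μ).image w).card

/-- the test class -/
theorem test_class {n : ℕ} {i0 : Fin n} {d : ℕ} {w : Fin n → ℕ}
    (hneg : d ^ 2 < ∑ i, w i ^ 2) (h1 : ∀ i, i ≠ i0 → w i + w i0 ≤ d)
    (h2 : ∀ i j, i ≠ i0 → j ≠ i0 → i ≠ j → w i + w j + w i0 ≤ d)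
    {μ : ℕ} (hμ : 1 ≤ μ) (hb : w i0 + 16 * μ ≤ d)
    (hcon : 2 * ((big i0 w μ : ℝ) + 1) * (d - w i0) ^ 2 + 16 * (small i0 w μ : ℝ) * μ ^ 2 ≤
      (w i0 : ℝ) * (d - w i0)) :
    ∃ (x : Fin n → ℝ) (c : ℝ), (∀ i, 0 ≤ x i) ∧ ∑ i, x i ^ 2 = c ^ 2 ∧ StripClass i0 x c ∧
      c * d < ∑ i, x i * (w i : ℝ) := by
  classical
  obtain ⟨M, hM⟩ : ∃ M : ℝ, M = w i0 := ⟨_, rfl⟩
  obtain ⟨B, hB⟩ : ∃ B : ℝ, B = d - M := ⟨_, rfl⟩
  obtain ⟨S, hS⟩ : ∃ S : ℝ, S = ∑ i ∈ univ.erase i0, (w i : ℝ) ^ 2 := ⟨_, rfl⟩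
  have hM0 : 0 ≤ M := by rw [hM]; exact Nat.cast_nonneg _
  have hμR : (1 : ℝ) ≤ μ := by exact_mod_cast hμ
  have hbR : M + 16 * μ ≤ d := by rw [hM]; exact_mod_cast hb
  have hB0 : 0 < B := by linarith
  rw [← hM, ← hB] at hcon
  have hsum : ∑ i, (w i : ℝ) ^ 2 = M ^ 2 + S := by
    rw [hS, hM, Finset.add_sum_erase univ (fun i => (w i : ℝ) ^ 2) (Finset.mem_univ i0)]
  have hnegR : (d : ℝ) ^ 2 < M ^ 2 + S := by
    rw [← hsum]
    exact_mod_cast hneg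
  have hd : (d : ℝ) = M + B := by linarith
  have hSB : B * (2 * M + B) < S := by
    rw [hd] at hnegR
    nlinarith
  obtain ⟨M', hM'⟩ : ∃ M' : ℝ, M' = (S / B - B) / 2 := ⟨_, rfl⟩
  have hM'B : 2 * M' * B = S - B ^ 2 := by rw [hM']; field_simp
  have hMM' : M ≤ M' := by
    have : M * B ≤ M' * B := by nlinarith
    exact le_of_mul_le_mul_right this hB0
  obtain ⟨x, hx⟩ : ∃ x : Fin n → ℝ, x = Function.update (fun i => (w i : ℝ)) i0 M' := ⟨_, rfl⟩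
  have hx0 : x i0 = M' := by rw [hx]; simp
  have hxi : ∀ i, i ≠ i0 → x i = w i := fun i hi => by rw [hx]; simp [hi]
  have hxnn : ∀ i, 0 ≤ x i := fun i => by
    by_cases hi : i = i0
    · rw [hi, hx0]; linarith
    · rw [hxi i hi]; exact Nat.cast_nonneg _
  have hspl : ∀ f : Fin n → ℝ, ∑ i, f i = f i0 + ∑ i ∈ univ.erase i0, f i := fun f =>
    (Finset.add_sum_erase _ _ (Finset.mem_univ i0)).symm
  have hsq : ∑ i, x i ^ 2 = (M' + B) ^ 2 := by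
    rw [hspl, hx0, Finset.sum_congr rfl fun i hi => by rw [hxi i (Finset.mem_erase.1 hi).1], ← hS]
    nlinarith
  have hc : M' + B - x i0 = B := by rw [hx0]; ring
  have hS2 : StripClass i0 x (M' + B) := by
    refine ⟨fun i hi => ?_, fun i j hi hj hij => ?_, μ, by linarith, by rw [hc]; linarith, ?_⟩
    · rw [hc, hxi i hi]
      have : (w i : ℝ) + w i0 ≤ d := by exact_mod_cast h1 i hi
      rw [← hM] at this
      linarith
    · rw [hc, hxi i hi, hxi j hj]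
      have : (w i : ℝ) + w j + w i0 ≤ d := by exact_mod_cast h2 i j hi hj hij
      rw [← hM] at this
      linarith
    · rw [hc, hx0]
      have c1 : ((univ.erase i0).filter fun i => (μ : ℝ) < x i).card = big i0 w μ := by
        unfold big
        congr 1
        ext i
        simp only [Finset.mem_filter, Finset.mem_erase, Finset.mem_univ, and_true]
        constructor
        · rintro ⟨h3, h4⟩
          rw [hxi i h3] at h4
          exact ⟨h3, by exact_mod_cast h4⟩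
        · rintro ⟨h3, h4⟩
          rw [hxi i h3]
          exact ⟨h3, by exact_mod_cast h4⟩
      have c2 : (((univ.erase i0).filter fun i => 0 < x i ∧ x i ≤ (μ : ℝ)).image x).card =
          small i0 w μ := by
        unfold small
        have h5 : ((univ.erase i0).filter fun i => 0 < x i ∧ x i ≤ (μ : ℝ)).image x =
            (((univ.erase i0).filter fun i => 0 < w i ∧ w i ≤ μ).image w).image
              (fun a : ℕ => (a : ℝ)) := by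
          ext a
          simp only [Finset.mem_image, Finset.mem_filter, Finset.mem_erase, Finset.mem_univ,
            and_true]
          constructor
          · rintro ⟨i, ⟨h3, h4, h6⟩, rfl⟩
            rw [hxi i h3] at h4 h6 ⊢
            exact ⟨w i, ⟨i, ⟨h3, by exact_mod_cast h4, by exact_mod_cast h6⟩, rfl⟩, rfl⟩
          · rintro ⟨b, ⟨i, ⟨h3, h4, h6⟩, rfl⟩, rfl⟩
            refine ⟨i, ⟨h3, ?_, ?_⟩, hxi i h3⟩
            · rw [hxi i h3]; exact_mod_cast h4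
            · rw [hxi i h3]; exact_mod_cast h6
        rw [h5, Finset.card_image_of_injective _ Nat.cast_injective]
      rw [c1, c2]
      have : M * B ≤ M' * B := mul_le_mul_of_nonneg_right hMM' hB0.le
      linarith
  have e1 : ∑ i, x i * (w i : ℝ) = M' * M + S := by
    rw [hspl, hx0, ← hM, Finset.sum_congr rfl fun i hi => by
      rw [hxi i (Finset.mem_erase.1 hi).1], hS]
    congr 1
    exact Finset.sum_congr rfl fun i _ => by ring
  refine ⟨x, M' + B, hxnn, hsq, hS2, ?_⟩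
  rw [e1, hd]
  nlinarith

theorem neg_main {n : ℕ} {p : Fin n → Fin 2 → ℂ}
    (hP : AlgebraicIndependent ℚ (fun ij : Fin n × Fin 2 => p ij.1 ij.2)) {i0 : Fin n}
    {d : ℕ} {w : Fin n → ℕ} {C : MvPolynomial (Fin 3) ℂ} (hC : SHDefs.Curve p C d w)
    (hneg : d ^ 2 < ∑ i, w i ^ 2) (h1 : ∀ i, i ≠ i0 → w i + w i0 ≤ d)
    (h2 : ∀ i j, i ≠ i0 → j ≠ i0 → i ≠ j → w i + w j + w i0 ≤ d)
    {μ : ℕ} (hμ : 1 ≤ μ) (hb : w i0 + 16 * μ ≤ d) :
    (w i0 : ℝ) * (d - w i0) < 2 * ((big i0 w μ : ℝ) + 1) * (d - w i0) ^ 2 +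
      16 * (small i0 w μ : ℝ) * μ ^ 2 := by
  by_contra hcon
  push Not at hcon
  obtain ⟨x, c, hxnn, hsq, hS2, hlt⟩ := test_class hneg h1 h2 hμ hb hcon
  have hfin := curves_all hP hxnn hsq hS2 _ (Or.inl ⟨C, d, w, hC, rfl⟩)
  unfold dot at hfin
  simp only at hfin
  linarith

/-- the number of the distinct small multiplicities -/
theorem small_le {n : ℕ} {w : Fin n → ℕ} {i0 : Fin n} {k μ : ℕ} (hk : 1 ≤ k) (hμ : 1 ≤ μ)
    (hsp : ∀ i j, w i ≠ w j → (k : ℤ) ≤ ((w i : ℤ) - w j) ^ 2) :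
    (k : ℝ) * ((small i0 w μ : ℝ) - 1) ^ 2 ≤ μ ^ 2 ∨ small i0 w μ = 0 := by
  classical
  obtain ⟨A, hA⟩ : ∃ A, A = ((univ.erase i0).filter fun i => 0 < w i ∧ w i ≤ μ).image w :=
    ⟨_, rfl⟩
  have hAs : small i0 w μ = A.card := by rw [hA]; rfl
  rw [hAs]
  rcases Nat.eq_zero_or_pos A.card with h0 | hA1
  · exact Or.inr h0
  left
  obtain ⟨q, hq⟩ : ∃ q, q = Nat.sqrt (k - 1) + 1 := ⟨_, rfl⟩
  have hqk : k ≤ q ^ 2 := by
    have h2 := Nat.lt_succ_sqrt' (k - 1)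
    rw [hq]
    have h3 : (k - 1).sqrt.succ = (k - 1).sqrt + 1 := rfl
    rw [h3] at h2
    omega
  have hAm : ∀ a ∈ A, ∃ i, w i = a ∧ 0 < w i ∧ w i ≤ μ := fun a ha => by
    rw [hA, Finset.mem_image] at ha
    obtain ⟨i, hi, rfl⟩ := ha
    exact ⟨i, rfl, (Finset.mem_filter.1 hi).2⟩
  have hcard : A.card ≤ (μ - 1) / q + 1 := by
    refine card_spaced (by omega) (fun a ha => ?_) fun a ha b hb hab => ?_
    · obtain ⟨i, rfl, h1, h2⟩ := hAm a ha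
      exact ⟨by omega, h2⟩
    · obtain ⟨i, rfl, -, -⟩ := hAm a ha
      obtain ⟨j, rfl, -, -⟩ := hAm b hb
      have h4 := hsp j i hab.ne'
      obtain ⟨d, hd⟩ : ∃ d, w j = w i + d := ⟨w j - w i, by omega⟩
      rw [hd] at h4
      push_cast at h4
      have h5 : (k : ℤ) ≤ (d : ℤ) ^ 2 := by
        have e1 : ((w i : ℤ) + d - w i) ^ 2 = (d : ℤ) ^ 2 := by ring
        rwa [e1] at h4
      have h6 : k ≤ d ^ 2 := by exact_mod_cast h5
      have h7 : Nat.sqrt (k - 1) < d := Nat.sqrt_lt'.2 (by omega)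
      omega
  have hmul : (A.card - 1) * q ≤ μ - 1 :=
    le_trans (Nat.mul_le_mul_right q (by omega)) (Nat.div_mul_le_self (μ - 1) q)
  obtain ⟨c, hc⟩ : ∃ c, A.card = c + 1 := ⟨A.card - 1, by omega⟩
  rw [hc, Nat.add_sub_cancel] at hmul
  rw [hc]
  have h3 : (c * q) ^ 2 ≤ μ ^ 2 := Nat.pow_le_pow_left (by omega) 2
  have h4 : k * c ^ 2 ≤ μ ^ 2 := by
    calc k * c ^ 2 ≤ q ^ 2 * c ^ 2 := Nat.mul_le_mul_right _ hqk
      _ = (c * q) ^ 2 := by ring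
      _ ≤ μ ^ 2 := h3
  have h5 : (k : ℝ) * (c : ℝ) ^ 2 ≤ (μ : ℝ) ^ 2 := by exact_mod_cast h4
  push_cast
  rw [add_sub_cancel_right]
  exact h5

/-- the consequence without the number of the distinct multiplicities -/
theorem neg_cor {n : ℕ} {p : Fin n → Fin 2 → ℂ}
    (hP : AlgebraicIndependent ℚ (fun ij : Fin n × Fin 2 => p ij.1 ij.2)) {i0 : Fin n}
    {d : ℕ} {w : Fin n → ℕ} {C : MvPolynomial (Fin 3) ℂ} (hC : SHDefs.Curve p C d w)
    {κ : ℕ} (hκ : 1 ≤ κ) (hneg : ∑ i, w i ^ 2 = d ^ 2 + κ) (h1 : ∀ i, i ≠ i0 → w i + w i0 ≤ d)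
    (h2 : ∀ i j, i ≠ i0 → j ≠ i0 → i ≠ j → w i + w j + w i0 ≤ d)
    {μ : ℕ} (hμ : 1 ≤ μ) (hb : w i0 + 16 * μ ≤ d)
    (hD : 2 * ((big i0 w μ : ℝ) + 1) * (d - w i0) ^ 2 + 16 * (μ : ℝ) ^ 2 ≤
      (w i0 : ℝ) * (d - w i0)) :
    (κ : ℝ) * ((w i0 : ℝ) * (d - w i0) - 2 * ((big i0 w μ : ℝ) + 1) * (d - w i0) ^ 2 -
      16 * (μ : ℝ) ^ 2) ^ 2 ≤ 256 * (μ : ℝ) ^ 6 := by
  have h3 := neg_main hP hC (by omega) h1 h2 hμ hb
  obtain ⟨D, hDd⟩ : ∃ D : ℝ, D = (w i0 : ℝ) * (d - w i0) -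
    2 * ((big i0 w μ : ℝ) + 1) * (d - w i0) ^ 2 - 16 * (μ : ℝ) ^ 2 := ⟨_, rfl⟩
  rw [← hDd]
  obtain ⟨r, hr⟩ : ∃ r : ℝ, r = small i0 w μ := ⟨_, rfl⟩
  rw [← hr] at h3
  have hμR : (1 : ℝ) ≤ μ := by exact_mod_cast hμ
  have hμ2 : 0 < (μ : ℝ) ^ 2 := by positivity
  have hD0 : 0 ≤ D := by linarith
  have hDr : D < 16 * (r - 1) * (μ : ℝ) ^ 2 := by
    rw [hDd]
    linarith
  have hr1 : 0 < r - 1 := by
    by_contra hcon
    push Not at hcon
    have : 16 * (r - 1) * (μ : ℝ) ^ 2 ≤ 0 := by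
      have := mul_nonneg (neg_nonneg.2 hcon) hμ2.le
      linarith
    linarith
  obtain ⟨c1, c2, c3⟩ := SH.curve_iff.1 hC
  have hsp : ∀ i j, w i ≠ w j → (κ : ℤ) ≤ ((w i : ℤ) - w j) ^ 2 := fun i j hij => by
    have h3 := Pool.Agent.Y939.XN.spaced hP c1 c2 c3 hij
    rw [hneg] at h3
    push_cast at h3
    linarith
  rcases small_le (i0 := i0) hκ hμ hsp with h4 | h4
  · rw [← hr] at h4
    have hκ0 : (0 : ℝ) ≤ κ := Nat.cast_nonneg _
    have h5 : D ^ 2 ≤ (16 * (r - 1) * (μ : ℝ) ^ 2) ^ 2 := pow_le_pow_left₀ hD0 hDr.le 2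
    calc (κ : ℝ) * D ^ 2 ≤ κ * (16 * (r - 1) * (μ : ℝ) ^ 2) ^ 2 :=
          mul_le_mul_of_nonneg_left h5 hκ0
      _ = 256 * (μ : ℝ) ^ 4 * (κ * (r - 1) ^ 2) := by ring
      _ ≤ 256 * (μ : ℝ) ^ 4 * (μ : ℝ) ^ 2 := mul_le_mul_of_nonneg_left h4 (by positivity)
      _ = 256 * (μ : ℝ) ^ 6 := by ring
  · exfalso
    rw [h4] at hr
    push_cast at hr
    linarith

end Pool.Agent.K6.H90.ST
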