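import Pool.Agent.K6.H90.ST.Curves4
import Pool.Agent.K6.H90.ST.Neg

/-! Negative curves: the largest multiplicity is bounded. -/

set_option autoImplicit false

namespace Pool.Agent.K6.H90.ST

open Finset Pool.Agent.W609 Pool.Agent.W609.CR Pool.Agent.TH167 Pool.Agent.TH167.SH
open Pool.Agent.R355.ConeAct

theorem small_eq {n : ℕ} {i0 : Fin n} {u : Fin n → ℕ} {B : ℕ} (h : ∀ i, i ≠ i0 → u i ≤ B) :
    small i0 u B = (((univ.erase i0).filter fun i => 0 < u i).image u).card := by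
  unfold small
  congr 2
  ext i
  simp only [Finset.mem_filter, Finset.mem_erase, Finset.mem_univ, and_true]
  constructor
  · rintro ⟨h1, h2, -⟩
    exact ⟨h1, h2⟩
  · rintro ⟨h1, h2⟩
    exact ⟨h1, h2, h i h1⟩

/-- nef classes -/
theorem nef_int {n : ℕ} {p : Fin n → Fin 2 → ℂ}
    (hP : AlgebraicIndependent ℚ (fun ij : Fin n × Fin 2 => p ij.1 ij.2)) {i0 : Fin n}
    {u : Fin n → ℕ} {B : ℕ} {M : ℝ} (hB : 2 ≤ B) (h1 : ∀ i, i ≠ i0 → u i ≤ B)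
    (h2 : ∀ i j, i ≠ i0 → j ≠ i0 → i ≠ j → u i + u j ≤ B)
    (hsum : ∑ i ∈ univ.erase i0, (u i : ℝ) ^ 2 = 2 * M * B + B ^ 2)
    (hroom : (((min (small i0 u B) (B / 2) : ℕ) : ℝ) + 1) * (3 * (B : ℝ) ^ 2 + 4 * B) ≤ 4 * M) :
    ∀ z ∈ curvCone p, M * z.2 i0 + ∑ i ∈ univ.erase i0, (u i : ℝ) * z.2 i ≤ (M + B) * z.1 := by
  classical
  rw [small_eq h1] at hroom
  have hM0 : 0 ≤ M := by
    have : 0 ≤ (((min (((univ.erase i0).filter fun i => 0 < u i).image u).card (B / 2) : ℕ) : ℝ)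
        + 1) * (3 * (B : ℝ) ^ 2 + 4 * B) := by positivity
    linarith
  obtain ⟨x, hx⟩ : ∃ x : Fin n → ℝ, x = Function.update (fun i => (u i : ℝ)) i0 M := ⟨_, rfl⟩
  have hx0 : x i0 = M := by rw [hx]; simp
  have hxi : ∀ i, i ≠ i0 → x i = u i := fun i hi => by rw [hx]; simp [hi]
  have hxnn : ∀ i, 0 ≤ x i := fun i => by
    by_cases hi : i = i0
    · rw [hi, hx0]; exact hM0
    · rw [hxi i hi]; exact Nat.cast_nonneg _
  have hspl : ∀ f : Fin n → ℝ, ∑ i, f i = f i0 + ∑ i ∈ univ.erase i0, f i := fun f =>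
    (Finset.add_sum_erase _ _ (Finset.mem_univ i0)).symm
  have hsq : ∑ i, x i ^ 2 = (M + B) ^ 2 := by
    rw [hspl, hx0, Finset.sum_congr rfl fun i hi => by rw [hxi i (Finset.mem_erase.1 hi).1], hsum]
    ring
  have hS : IntClass i0 x (M + B) := by
    refine ⟨B, u, hB, by rw [hx0]; ring, fun i hi => ⟨hxi i hi, h1 i hi⟩, h2, ?_⟩
    rw [hx0]
    exact hroom
  intro z hz
  have h3 := Pool.Agent.R355.ConeAct.nef_of_gen (curves_all2 hP hxnn hsq hS) z hz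
  unfold dot at h3
  simp only at h3
  rw [hspl, hx0, Finset.sum_congr rfl fun i hi => by rw [hxi i (Finset.mem_erase.1 hi).1]] at h3
  linarith

/-- a curve with the further multiplicities zero, or one of them one -/
theorem two_le {n : ℕ} {i0 : Fin n} {w : Fin n → ℕ} {B : ℕ}
    (hneg : (w i0 + B) ^ 2 < ∑ i, w i ^ 2) (h1 : ∀ i, i ≠ i0 → w i ≤ B)
    (h2 : ∀ i j, i ≠ i0 → j ≠ i0 → i ≠ j → w i + w j ≤ B) : 2 ≤ B := by
  by_contra hcon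
  have hspl : ∑ i, w i ^ 2 = w i0 ^ 2 + ∑ i ∈ univ.erase i0, w i ^ 2 :=
    (Finset.add_sum_erase _ _ (Finset.mem_univ i0)).symm
  have hle : ∑ i ∈ univ.erase i0, w i ^ 2 ≤ B ^ 2 := by
    by_cases hex : ∃ i1, i1 ≠ i0 ∧ 0 < w i1
    · obtain ⟨i1, h10, hw1⟩ := hex
      have h3 := h1 i1 h10
      rw [Finset.sum_eq_single i1]
      · exact Nat.pow_le_pow_left h3 2
      · intro j hj hj1
        have := h2 j i1 (Finset.mem_erase.1 hj).1 h10 hj1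
        have h4 : w j = 0 := by omega
        rw [h4]
        rfl
      · intro h
        exact absurd (Finset.mem_erase.2 ⟨h10, Finset.mem_univ i1⟩) h
    · push Not at hex
      rw [Finset.sum_eq_zero]
      · exact Nat.zero_le _
      · intro j hj
        have h4 : w j = 0 := by
          have := hex j (Finset.mem_erase.1 hj).1
          omega
        rw [h4]
        rfl
  rw [hspl] at hneg
  nlinarith [Nat.zero_le (w i0 * B)]

/-- the bound for negative curves -/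
theorem neg_int {n : ℕ} {p : Fin n → Fin 2 → ℂ}
    (hP : AlgebraicIndependent ℚ (fun ij : Fin n × Fin 2 => p ij.1 ij.2)) {i0 : Fin n}
    {w : Fin n → ℕ} {B : ℕ} {C : MvPolynomial (Fin 3) ℂ} (hC : SHDefs.Curve p C (w i0 + B) w)
    (hneg : (w i0 + B) ^ 2 < ∑ i, w i ^ 2) (h1 : ∀ i, i ≠ i0 → w i ≤ B)
    (h2 : ∀ i j, i ≠ i0 → j ≠ i0 → i ≠ j → w i + w j ≤ B) :
    4 * w i0 < (min (small i0 w B) (B / 2) + 1) * (3 * B ^ 2 + 4 * B) := by
  by_contra hcon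
  push Not at hcon
  have hB := two_le hneg h1 h2
  have hB0 : (0 : ℝ) < B := by
    have : (2 : ℝ) ≤ B := by exact_mod_cast hB
    linarith
  have hconR : (((min (small i0 w B) (B / 2) : ℕ) : ℝ) + 1) * (3 * (B : ℝ) ^ 2 + 4 * B) ≤
      4 * (w i0 : ℝ) := by exact_mod_cast hcon
  obtain ⟨M, hM⟩ : ∃ M : ℝ, M = w i0 := ⟨_, rfl⟩
  obtain ⟨S, hS⟩ : ∃ S : ℝ, S = ∑ i ∈ univ.erase i0, (w i : ℝ) ^ 2 := ⟨_, rfl⟩
  rw [← hM] at hconR
  have hsum : ∑ i, (w i : ℝ) ^ 2 = M ^ 2 + S := by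
    rw [hS, hM, Finset.add_sum_erase univ (fun i => (w i : ℝ) ^ 2) (Finset.mem_univ i0)]
  have hnegR : (M + B) ^ 2 < M ^ 2 + S := by
    rw [← hsum, hM]
    exact_mod_cast hneg
  obtain ⟨M', hM'⟩ : ∃ M' : ℝ, M' = (S / B - B) / 2 := ⟨_, rfl⟩
  have hM'B : 2 * M' * B = S - B ^ 2 := by rw [hM']; field_simp
  have hMM' : M < M' := by
    have : M * B < M' * B := by nlinarith
    exact lt_of_mul_lt_mul_right this hB0.le
  have hz : ((((w i0 + B : ℕ) : ℝ), fun i => (w i : ℝ)) : ℝ × (Fin n → ℝ)) ∈ curvCone p :=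
    subset_closure (Submodule.subset_span (Or.inl ⟨C, _, w, hC, rfl⟩))
  have h3 := nef_int hP (M := M') hB h1 h2 (by rw [← hS]; linarith) (by linarith) _ hz
  simp only at h3
  have e1 : ∑ i ∈ univ.erase i0, (w i : ℝ) * (w i : ℝ) = S := by
    rw [hS]
    exact Finset.sum_congr rfl fun i _ => by ring
  rw [e1, ← hM] at h3
  push_cast at h3
  rw [← hM] at h3
  nlinarith

/-- the bound in terms of the self-intersection number -/
theorem neg_int_sq {n : ℕ} {p : Fin n → Fin 2 → ℂ}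
    (hP : AlgebraicIndependent ℚ (fun ij : Fin n × Fin 2 => p ij.1 ij.2)) {i0 : Fin n}
    {w : Fin n → ℕ} {B κ : ℕ} {C : MvPolynomial (Fin 3) ℂ}
    (hC : SHDefs.Curve p C (w i0 + B) w) (hκ : 1 ≤ κ)
    (hneg : ∑ i, w i ^ 2 = (w i0 + B) ^ 2 + κ) (h1 : ∀ i, i ≠ i0 → w i ≤ B)
    (h2 : ∀ i j, i ≠ i0 → j ≠ i0 → i ≠ j → w i + w j ≤ B)
    (h3 : 6 * B ^ 2 + 8 * B ≤ 4 * w i0) :
    (κ : ℝ) * (4 * (w i0 : ℝ) - 6 * (B : ℝ) ^ 2 - 8 * B) ^ 2 ≤ (B : ℝ) ^ 4 * (3 * B + 4) ^ 2 := by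
  have hlt : (w i0 + B) ^ 2 < ∑ i, w i ^ 2 := by omega
  have hB := two_le hlt h1 h2
  have h4 := neg_int hP hC hlt h1 h2
  have h5 : 4 * w i0 < (small i0 w B + 1) * (3 * B ^ 2 + 4 * B) :=
    lt_of_lt_of_le h4 (Nat.mul_le_mul_right _ (Nat.add_le_add_right (min_le_left _ _) 1))
  have h5R : 4 * (w i0 : ℝ) < ((small i0 w B : ℝ) + 1) * (3 * (B : ℝ) ^ 2 + 4 * B) := by
    exact_mod_cast h5
  have h3R : 6 * (B : ℝ) ^ 2 + 8 * B ≤ 4 * (w i0 : ℝ) := by exact_mod_cast h3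
  obtain ⟨c1, c2, c3⟩ := SH.curve_iff.1 hC
  have hsp : ∀ i j, w i ≠ w j → (κ : ℤ) ≤ ((w i : ℤ) - w j) ^ 2 := fun i j hij => by
    have h3 := Pool.Agent.Y939.XN.spaced hP c1 c2 c3 hij
    rw [hneg] at h3
    push_cast at h3
    linarith
  obtain ⟨A, hA⟩ : ∃ A : ℝ, A = 3 * (B : ℝ) ^ 2 + 4 * B := ⟨_, rfl⟩
  have hB0 : (0 : ℝ) < B := by
    have : (2 : ℝ) ≤ B := by exact_mod_cast hB
    linarith
  have hA0 : 0 < A := by rw [hA]; positivity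
  have e1 : (B : ℝ) ^ 4 * (3 * B + 4) ^ 2 = (B : ℝ) ^ 2 * A ^ 2 := by rw [hA]; ring
  have e2 : 4 * (w i0 : ℝ) - 6 * (B : ℝ) ^ 2 - 8 * B = 4 * (w i0 : ℝ) - 2 * A := by
    rw [hA]; ring
  rw [e1, e2]
  rw [← hA] at h5R
  have hκ0 : (0 : ℝ) ≤ κ := Nat.cast_nonneg _
  rcases small_le (i0 := i0) (μ := B) hκ (by omega) hsp with h6 | h6
  · obtain ⟨r, hr⟩ : ∃ r : ℝ, r = small i0 w B := ⟨_, rfl⟩
    rw [← hr] at h5R h6
    have h7 : (4 * (w i0 : ℝ) - 2 * A) ^ 2 ≤ ((r - 1) * A) ^ 2 := by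
      refine pow_le_pow_left₀ (by rw [hA]; linarith) ?_ 2
      linarith
    calc (κ : ℝ) * (4 * (w i0 : ℝ) - 2 * A) ^ 2 ≤ κ * ((r - 1) * A) ^ 2 :=
          mul_le_mul_of_nonneg_left h7 hκ0
      _ = (κ * (r - 1) ^ 2) * A ^ 2 := by ring
      _ ≤ (B : ℝ) ^ 2 * A ^ 2 := mul_le_mul_of_nonneg_right h6 (sq_nonneg A)
  · exfalso
    rw [h6] at h5R
    push_cast at h5R
    rw [hA] at h5R
    nlinarith

end Pool.Agent.K6.H90.ST
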