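import Pool.Agent.K6.H90.ST.Neg2

/-! Nef classes of positive self-intersection: further points of multiplicity one. -/

set_option autoImplicit false

namespace Pool.Agent.K6.H90.ST

open Finset Pool.Agent.W609 Pool.Agent.W609.CR Pool.Agent.TH167 Pool.Agent.TH167.SH
open Pool.Agent.R355.ConeAct

/-- from `n + 1` points to `n` points -/
theorem descend {n : ℕ} {p : Fin n → Fin 2 → ℂ}
    (hP : AlgebraicIndependent ℚ (fun ij : Fin n × Fin 2 => p ij.1 ij.2))
    {x : Fin n → ℝ} {c t : ℝ} (hx : ∀ i, 0 ≤ x i) (ht : 0 ≤ t)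
    (key : ∀ p' : Fin (n + 1) → Fin 2 → ℂ,
      AlgebraicIndependent ℚ (fun ij : Fin (n + 1) × Fin 2 => p' ij.1 ij.2) →
      ∀ v ∈ curveClasses p', 0 ≤ dot (c, (Fin.snoc x t : Fin (n + 1) → ℝ)) v) :
    ∀ v ∈ curveClasses p, 0 ≤ dot (c, x) v := by
  classical
  obtain ⟨f1, hf1, h1⟩ := SH.exists_fam (Fin (n + 1) × Fin 2)
  obtain ⟨y, hy⟩ := Pool.Agent.W649.ZL.avoid f1 hf1
  obtain ⟨p', hp'⟩ : ∃ p' : Fin (n + 1) → Fin 2 → ℂ, p' = fun i a => y (i, a) := ⟨_, rfl⟩
  have hpy : (fun ij : Fin (n + 1) × Fin 2 => p' ij.1 ij.2) = y := by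
    rw [hp']
  have hP' : AlgebraicIndependent ℚ (fun ij : Fin (n + 1) × Fin 2 => p' ij.1 ij.2) := by
    rw [hpy]
    exact (h1 y).1 hy
  obtain ⟨q, hqd⟩ : ∃ q : Fin n → Fin 2 → ℂ, ∀ i, q i = p' i.castSucc := ⟨_, fun _ => rfl⟩
  have hq : AlgebraicIndependent ℚ (fun ij : Fin n × Fin 2 => q ij.1 ij.2) := by
    have hq0 : AlgebraicIndependent ℚ (fun ij : Fin n × Fin 2 => p' ij.1.castSucc ij.2) :=
      hP'.comp (fun ij : Fin n × Fin 2 => (ij.1.castSucc, ij.2)) (by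
        intro a b h
        simp only [Prod.mk.injEq] at h
        exact Prod.ext (Fin.castSucc_injective n h.1) h.2)
    have e : (fun ij : Fin n × Fin 2 => q ij.1 ij.2) =
        fun ij : Fin n × Fin 2 => p' ij.1.castSucc ij.2 := by
      funext ij
      rw [hqd]
    rw [e]
    exact hq0
  rintro v (⟨G, d, w, hG, rfl⟩ | ⟨j, rfl⟩)
  · obtain ⟨c1, c2, c3⟩ := SH.curve_iff.1 hG
    obtain ⟨G', g1, g2, g3⟩ := Pool.Agent.R355.NegOrb.exists_conj (P1 := p) (P := q) hP hq c1 c2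
      c3 (Equiv.refl _)
    obtain ⟨u, hu⟩ := Pool.Agent.TH442.NF.ord_ex (p := p' (Fin.last n)) g1.ne_zero g2
    have hC : SHDefs.Curve p' G' d (Fin.snoc w u : Fin (n + 1) → ℕ) := by
      refine SH.curve_iff.2 ⟨g1, g2, fun j => ?_⟩
      induction j using Fin.lastCases with
      | last => simpa using hu
      | cast j =>
        have := g3 j
        rw [hqd] at this
        simpa using this
    have h3 := key p' hP' _ (Or.inl ⟨G', d, _, hC, rfl⟩)
    unfold dot at h3 ⊢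
    simp only at h3 ⊢
    rw [Fin.sum_univ_castSucc] at h3
    simp only [Fin.snoc_castSucc, Fin.snoc_last] at h3
    have h4 : 0 ≤ t * (u : ℝ) := mul_nonneg ht (Nat.cast_nonneg _)
    linarith
  · rw [dot_exc]
    exact hx j

/-- the hypotheses, with a set `R` containing the further coefficients, and `1` if `κ ≠ 0` -/
def IntPos {n : ℕ} (κ : ℕ) (i0 : Fin n) (x : Fin n → ℝ) (c : ℝ) : Prop :=
  ∃ (B : ℕ) (u : Fin n → ℕ) (R : Finset ℕ), 2 ≤ B ∧ c - x i0 = B ∧
    (∀ i, i ≠ i0 → x i = u i ∧ u i < B ∧ (0 < u i → u i ∈ R)) ∧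
    (∀ i j, i ≠ i0 → j ≠ i0 → i ≠ j → u i + u j ≤ B) ∧ (κ ≠ 0 → 1 ∈ R) ∧
    (((min R.card (B / 2) : ℕ) : ℝ) + 1) * (3 * (B : ℝ) ^ 2 + 4 * B) ≤ 4 * x i0

theorem curves_pos (κ : ℕ) : ∀ {n : ℕ} {p : Fin n → Fin 2 → ℂ}
    (_ : AlgebraicIndependent ℚ (fun ij : Fin n × Fin 2 => p ij.1 ij.2))
    {x : Fin n → ℝ} {c : ℝ} (_ : ∀ i, 0 ≤ x i) (_ : ∑ i, x i ^ 2 + (κ : ℝ) = c ^ 2)
    {i0 : Fin n} (_ : IntPos κ i0 x c), ∀ v ∈ curveClasses p, 0 ≤ dot (c, x) v := by
  classical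
  induction κ with
  | zero =>
    intro n p hP x c hx hsq i0 hS
    obtain ⟨B, u, R, hB, hcB, hu, hpair, -, hroom⟩ := hS
    refine curves_all2 hP hx (by rw [← hsq]; simp) (i0 := i0)
      ⟨B, u, hB, hcB, fun i hi => ⟨(hu i hi).1, (hu i hi).2.1.le⟩, hpair, le_trans ?_ hroom⟩
    have h1 : ((univ.erase i0).filter fun i => 0 < u i).image u ⊆ R := by
      intro t ht
      obtain ⟨i, hi, rfl⟩ := Finset.mem_image.1 ht
      rw [Finset.mem_filter, Finset.mem_erase] at hi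
      exact (hu i hi.1.1).2.2 hi.2
    have h2 : min (((univ.erase i0).filter fun i => 0 < u i).image u).card (B / 2) ≤
        min R.card (B / 2) := min_le_min_right _ (Finset.card_le_card h1)
    have h2R : ((min (((univ.erase i0).filter fun i => 0 < u i).image u).card (B / 2) : ℕ) : ℝ) ≤
        ((min R.card (B / 2) : ℕ) : ℝ) := by exact_mod_cast h2
    exact mul_le_mul_of_nonneg_right (by linarith) (by positivity)
  | succ κ ih =>
    intro n p hP x c hx hsq i0 hS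
    obtain ⟨B, u, R, hB, hcB, hu, hpair, h1R, hroom⟩ := hS
    refine descend hP hx zero_le_one fun p' hP' => ?_
    have e0 : ∀ i : Fin n, (Fin.snoc x 1 : Fin (n + 1) → ℝ) i.castSucc = x i := fun i => by simp
    have el : (Fin.snoc x 1 : Fin (n + 1) → ℝ) (Fin.last n) = 1 := by simp
    have f0 : ∀ i : Fin n, (Fin.snoc u 1 : Fin (n + 1) → ℕ) i.castSucc = u i := fun i => by simp
    have fl : (Fin.snoc u 1 : Fin (n + 1) → ℕ) (Fin.last n) = 1 := by simp
    obtain ⟨X, hX⟩ : ∃ X : Fin (n + 1) → ℝ, X = Fin.snoc x 1 := ⟨_, rfl⟩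
    obtain ⟨U, hU⟩ : ∃ U : Fin (n + 1) → ℕ, U = Fin.snoc u 1 := ⟨_, rfl⟩
    rw [← hX] at e0 el ⊢
    rw [← hU] at f0 fl
    refine ih hP' (fun i => ?_) ?_ (i0 := i0.castSucc)
      ⟨B, U, R, hB, by rw [e0]; exact hcB, ?_, ?_, fun _ => h1R (Nat.succ_ne_zero κ), ?_⟩
    · induction i using Fin.lastCases with
      | last => rw [el]; exact zero_le_one
      | cast i => rw [e0]; exact hx i
    · rw [Fin.sum_univ_castSucc, el, ← hsq]
      simp only [e0]
      push_cast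
      ring
    · intro i hi
      induction i using Fin.lastCases with
      | last =>
        rw [el, fl]
        exact ⟨by simp, by omega, fun _ => h1R (Nat.succ_ne_zero κ)⟩
      | cast i =>
        rw [e0, f0]
        exact hu i fun h => hi (by rw [h])
    · intro i j hi hj hij
      induction i using Fin.lastCases with
      | last =>
        rw [fl]
        induction j using Fin.lastCases with
        | last => exact absurd rfl hij
        | cast j =>
          rw [f0]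
          have := (hu j fun h => hj (by rw [h])).2.1
          omega
      | cast i =>
        rw [f0]
        induction j using Fin.lastCases with
        | last =>
          rw [fl]
          have := (hu i fun h => hi (by rw [h])).2.1
          omega
        | cast j =>
          rw [f0]
          exact hpair i j (fun h => hi (by rw [h])) (fun h => hj (by rw [h]))
            fun h => hij (by rw [h])
    · rw [e0]
      exact hroom

/-- nef classes of self-intersection `κ` -/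
theorem nef_pos {n : ℕ} {p : Fin n → Fin 2 → ℂ}
    (hP : AlgebraicIndependent ℚ (fun ij : Fin n × Fin 2 => p ij.1 ij.2)) {i0 : Fin n}
    {u : Fin n → ℕ} {B κ : ℕ} {M : ℝ} (hB : 2 ≤ B) (h1 : ∀ i, i ≠ i0 → u i < B)
    (h2 : ∀ i j, i ≠ i0 → j ≠ i0 → i ≠ j → u i + u j ≤ B)
    (hsum : ∑ i ∈ univ.erase i0, (u i : ℝ) ^ 2 + (κ : ℝ) = 2 * M * B + B ^ 2)
    (hroom : (((min (small i0 u B + min κ 1) (B / 2) : ℕ) : ℝ) + 1) *
      (3 * (B : ℝ) ^ 2 + 4 * B) ≤ 4 * M) :
    ∀ z ∈ curvCone p, M * z.2 i0 + ∑ i ∈ univ.erase i0, (u i : ℝ) * z.2 i ≤ (M + B) * z.1 := by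
  classical
  rw [small_eq fun i hi => (h1 i hi).le] at hroom
  obtain ⟨I, hI⟩ : ∃ I : Finset ℕ, I = ((univ.erase i0).filter fun i => 0 < u i).image u :=
    ⟨_, rfl⟩
  rw [← hI] at hroom
  have hM0 : 0 ≤ M := by
    have : 0 ≤ (((min (I.card + min κ 1) (B / 2) : ℕ) : ℝ) + 1) * (3 * (B : ℝ) ^ 2 + 4 * B) := by
      positivity
    linarith
  obtain ⟨R, hIR, hR1, hRc⟩ : ∃ R : Finset ℕ, I ⊆ R ∧ (κ ≠ 0 → 1 ∈ R) ∧
      R.card ≤ I.card + min κ 1 := by
    by_cases hκ : κ = 0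
    · refine ⟨I, subset_rfl, fun h => absurd hκ h, by omega⟩
    · refine ⟨insert 1 I, Finset.subset_insert _ _, fun _ => Finset.mem_insert_self _ _, ?_⟩
      have := Finset.card_insert_le 1 I
      omega
  obtain ⟨x, hx⟩ : ∃ x : Fin n → ℝ, x = Function.update (fun i => (u i : ℝ)) i0 M := ⟨_, rfl⟩
  have hx0 : x i0 = M := by rw [hx]; simp
  have hxi : ∀ i, i ≠ i0 → x i = u i := fun i hi => by rw [hx]; simp [hi]
  have hxnn : ∀ i, 0 ≤ x i := fun i => by
    by_cases hi : i = i0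
    · rw [hi, hx0]; exact hM0
    · rw [hxi i hi]; exact Nat.cast_nonneg _
  have hspl : ∀ f : Fin n → ℝ, ∑ i, f i = f i0 + ∑ i ∈ univ.erase i0, f i := fun f =>
    (Finset.add_sum_erase _ _ (Finset.mem_univ i0)).symm
  have hsq : ∑ i, x i ^ 2 + (κ : ℝ) = (M + B) ^ 2 := by
    rw [hspl, hx0, Finset.sum_congr rfl fun i hi => by rw [hxi i (Finset.mem_erase.1 hi).1],
      add_assoc, hsum]
    ring
  have hS : IntPos κ i0 x (M + B) := by
    have h3 : min R.card (B / 2) ≤ min (I.card + min κ 1) (B / 2) := min_le_min_right _ hRc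
    have h3R : ((min R.card (B / 2) : ℕ) : ℝ) ≤ ((min (I.card + min κ 1) (B / 2) : ℕ) : ℝ) := by
      exact_mod_cast h3
    have h4 : (((min R.card (B / 2) : ℕ) : ℝ) + 1) * (3 * (B : ℝ) ^ 2 + 4 * B) ≤
        (((min (I.card + min κ 1) (B / 2) : ℕ) : ℝ) + 1) * (3 * (B : ℝ) ^ 2 + 4 * B) :=
      mul_le_mul_of_nonneg_right (by linarith) (by positivity)
    have h5 : (((min R.card (B / 2) : ℕ) : ℝ) + 1) * (3 * (B : ℝ) ^ 2 + 4 * B) ≤ 4 * x i0 := by
      rw [hx0]
      exact h4.trans hroom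
    have h6 : M + B - x i0 = B := by
      rw [hx0]
      ring
    refine ⟨B, u, R, hB, h6, fun i hi => ⟨hxi i hi, h1 i hi, fun h => hIR ?_⟩, h2, hR1, h5⟩
    rw [hI, Finset.mem_image]
    exact ⟨i, Finset.mem_filter.2 ⟨Finset.mem_erase.2 ⟨hi, Finset.mem_univ _⟩, h⟩, rfl⟩
  intro z hz
  have h3 := Pool.Agent.R355.ConeAct.nef_of_gen (curves_pos κ hP hxnn hsq hS) z hz
  unfold dot at h3
  simp only at h3
  rw [hspl, hx0, Finset.sum_congr rfl fun i hi => by rw [hxi i (Finset.mem_erase.1 hi).1]] at h3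
  linarith

end Pool.Agent.K6.H90.ST
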