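import Pool.Agent.K6.H90.ST.Cell
import Pool.Agent.K6.H90.ST.Lower

/-! The strip theorem: a long trapezoid, finitely many arbitrary points of multiplicity at most half
of the height, and many small points with few distinct multiplicities. -/

set_option autoImplicit false

namespace Pool.Agent.K6.H90.ST

open Finset Pool.Agent.TH176.Nag Pool.Agent.TH146.MN

variable {ι : Type} [DecidableEq ι]

theorem Emp_union {A B : Finset ι} (hd : Disjoint A B) {w : ι → ℕ} {S : Set (ℤ × ℤ)}
    (h : Emp (Sum.elim (fun i : A => w i) (fun i : B => w i)) S) :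
    Emp (fun i : ↥(A ∪ B) => w i) S := by
  have h1 := Pool.Agent.TH366.RC.Emp_reindex (Equiv.Finset.union A B hd).symm h
  have e : (fun j => Sum.elim (fun i : A => w i) (fun i : B => w i)
      ((Equiv.Finset.union A B hd).symm j)) = fun j : ↥(A ∪ B) => w j := by
    funext j
    obtain ⟨i, rfl⟩ := (Equiv.Finset.union A B hd).surjective j
    rw [Equiv.symm_apply_apply]
    rcases i with i | i
    · simp
    · simp
  rw [e] at h1
  exact h1

theorem T_insert {L : Finset ι} {i : ι} (hi : i ∉ L) {w : ι → ℕ} {E μ ν : ℝ}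
    (h : Pool.Agent.TH366.RC.T (fun o : Option L => o.elim (w i) fun j => w j) E μ ν) :
    Pool.Agent.TH366.RC.T (fun j : ↥(insert i L) => w j) E μ ν := by
  intro α
  have h1 := Pool.Agent.TH366.RC.Emp_reindex (Finset.subtypeInsertEquivOption hi) (h α)
  have e : (fun j => ((Finset.subtypeInsertEquivOption hi) j).elim (w i) fun j : L => w j) =
      fun j : ↥(insert i L) => w j := by
    funext j
    obtain ⟨j, hj⟩ := j
    by_cases hji : j = i
    · subst hji
      simp [Finset.subtypeInsertEquivOption]
    · simp [Finset.subtypeInsertEquivOption, hji]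
  rw [e] at h1
  exact h1

/-- the strip theorem -/
theorem strip {x : ι → ℝ} {w : ι → ℕ} {W h s : ℝ} (hW : 0 < W) (hWh : 16 * W ≤ h) (hs : 0 < s)
    (hw : ∀ i, s * x i < w i) (A : Finset ι) :
    ∀ (G : Finset ι) (b δ : ℝ), Disjoint A G → (∀ i ∈ A, 0 < x i ∧ 2 * x i ≤ h) →
      (∀ i ∈ G, 0 < x i ∧ x i ≤ W) → 0 ≤ δ →
      ∑ i ∈ A, x i ^ 2 + ∑ i ∈ G, x i ^ 2 = (2 * b - δ * h) * h →
      ((A.card : ℝ) + 1) * (2 * h ^ 2) + 16 * ((G.image x).card : ℝ) * W ^ 2 ≤ (b - δ * h) * h →
      Emp (fun i : ↥(A ∪ G) => w i) (Zt (s * b) δ (s * h)) := by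
  have hh : 0 < h := by linarith
  have hW2 : 0 < W ^ 2 := by positivity
  have hh2 : 0 < h ^ 2 := by positivity
  have hWh2 : 256 * W ^ 2 ≤ h ^ 2 := by nlinarith
  -- the last trapezoid
  have last : ∀ (G : Finset ι) (b δ : ℝ), (∀ i ∈ G, 0 < x i ∧ x i ≤ W) → 3 ≤ 2 * δ →
      ∑ i ∈ G, x i ^ 2 = (2 * b - δ * h) * h →
      16 * ((G.image x).card : ℝ) * W ^ 2 ≤ (b - δ * h) * h → 2 * h ^ 2 ≤ b * h →
      Emp (fun i : G => w i) (Zt (s * b) δ (s * h)) := by
    intro G b δ hG hδ hsum hroom hbh
    have h0 : (0 : ℝ) ≤ ((G.image x).card : ℝ) * W ^ 2 := by positivity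
    have hb : δ * h ≤ b := by
      have : 0 ≤ (b - δ * h) * h := by linarith
      by_contra hcon
      push Not at hcon
      nlinarith
    have e1 : ∑ i : G, x i ^ 2 = ∑ i ∈ G, x i ^ 2 := Finset.sum_coe_sort G (fun i => x i ^ 2)
    refine trap_small (x := fun i : G => x i) hδ hh hb (by rw [e1]; exact hsum) ?_ hs
      (fun i => hw i)
    refine UU_batch hW G hG ?_ (by linarith) ?_
    · rw [hsum]
      nlinarith
    · rw [hsum]
      nlinarith
  induction A using Finset.induction_on with
  | empty =>
    intro G b δ _ _ hG hδ hsum hroom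
    rw [Finset.sum_empty, zero_add] at hsum
    rw [Finset.card_empty, Nat.cast_zero, zero_add, one_mul] at hroom
    rw [Finset.empty_union]
    have h0 : (0 : ℝ) ≤ ((G.image x).card : ℝ) * W ^ 2 := by positivity
    have hδh : 0 ≤ δ * h * h := by positivity
    have hbh : 2 * h ^ 2 ≤ b * h := by nlinarith
    rcases le_or_gt 3 (2 * δ) with h3 | h3
    · exact last G b δ hG h3 hsum (by linarith) hbh
    obtain ⟨L, hLG, hcard, hL1, hL2⟩ := exists_lower (G := G) (x := x) (W := W)
      (A0 := 3 / 2 * h ^ 2) (by positivity) hW hG (by rw [hsum]; nlinarith)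
    obtain ⟨p, hp⟩ : ∃ p : ℝ, p = (∑ i ∈ L, x i ^ 2) / h := ⟨_, rfl⟩
    have hph : p * h = ∑ i ∈ L, x i ^ 2 := by rw [hp]; field_simp
    have hL0 : (0 : ℝ) ≤ ((L.image x).card : ℝ) * W ^ 2 := by positivity
    have hp0 : 0 < p := by
      rw [hp]
      apply div_pos _ hh
      nlinarith
    have hp1 : 3 * h ≤ 2 * p := by
      have h4 : 3 * h * h ≤ 2 * p * h := by
        have : 2 * p * h = 2 * (p * h) := by ring
        rw [this, hph]
        nlinarith
      exact le_of_mul_le_mul_right h4 hh
    have eps : (s * p) / (s * h) = p / h := by field_simp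
    have hpp : p / h * h = p := by field_simp
    have hsd := Finset.sum_sdiff (f := fun i => x i ^ 2) hLG
    have hcardR : ((L.image x).card : ℝ) * W ^ 2 + (((G \ L).image x).card : ℝ) * W ^ 2 ≤
        ((G.image x).card : ℝ) * W ^ 2 + W ^ 2 := by
      have : ((L.image x).card : ℝ) + (((G \ L).image x).card : ℝ) ≤
          ((G.image x).card : ℝ) + 1 := by exact_mod_cast hcard
      nlinarith
    have hU : UU' (fun i : L => x i) h := UU_batch hW L (fun i hi => hG i (hLG hi))
      (by nlinarith) (by linarith) (by nlinarith)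
    have e1 : ∑ i : L, x i ^ 2 = ∑ i ∈ L, x i ^ 2 := Finset.sum_coe_sort L (fun i => x i ^ 2)
    have hT := cell_zero (w := fun i : L => w i) (x := fun i : L => x i) hs hh
      (p := p) (by rw [e1]; exact hph) hU (fun i => hw i)
    have hZ := last (G \ L) b (δ + p / h)
      (fun i hi => hG i (Finset.mem_sdiff.1 hi).1) (by
        have : 3 / 2 ≤ p / h := by
          rw [le_div_iff₀ hh]; linarith
        linarith) (by
        have e2 : (2 * b - (δ + p / h) * h) * h = (2 * b - δ * h) * h - p * h := by
          rw [add_mul, hpp]; ring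
        rw [e2, hph, ← hsum, ← hsd]
        ring) (by
        have e2 : (b - (δ + p / h) * h) * h = (b - δ * h) * h - p * h := by
          rw [add_mul, hpp]; ring
        rw [e2, hph]
        nlinarith) hbh
    rw [← eps] at hT hZ
    have h5 := Zt_cut (b := s * b) (δ := δ) (H := s * h) (p := s * p) (E := s * √(p * h))
      (by positivity) (by positivity) hδ (by positivity)
      (by rw [mul_pow, Real.sq_sqrt (by positivity)]; ring) hT hZ
    have h6 := Emp_union (Finset.disjoint_sdiff) h5
    rw [Finset.union_sdiff_of_subset hLG] at h6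
    exact h6
  | insert i A hi ih =>
    intro G b δ hdis hA hG hδ hsum hroom
    rw [Finset.card_insert_of_notMem hi] at hroom
    push_cast at hroom
    rw [Finset.sum_insert hi] at hsum
    have hxi := hA i (Finset.mem_insert_self i A)
    have hA' : ∀ j ∈ A, 0 < x j ∧ 2 * x j ≤ h := fun j hj => hA j (Finset.mem_insert_of_mem hj)
    have hsA : ∑ j ∈ A, x j ^ 2 ≤ (A.card : ℝ) * (h ^ 2 / 4) := by
      have : ∑ j ∈ A, x j ^ 2 ≤ A.card • (h ^ 2 / 4) := Finset.sum_le_card_nsmul _ _ _ fun j hj => by
        have := hA' j hj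
        nlinarith
      rwa [nsmul_eq_mul] at this
    have hxi2 : x i ^ 2 ≤ h ^ 2 / 4 := by
      have := hxi.1
      have := hxi.2
      nlinarith
    have h0 : (0 : ℝ) ≤ ((G.image x).card : ℝ) * W ^ 2 := by positivity
    have hA0 : (0 : ℝ) ≤ (A.card : ℝ) * h ^ 2 := by positivity
    have hδh : 0 ≤ δ * h * h := by positivity
    have hiG : i ∉ G := Finset.disjoint_left.1 hdis (Finset.mem_insert_self i A)
    have hAG : Disjoint A G := hdis.mono_left (Finset.subset_insert i A)
    obtain ⟨L, hLG, hcard, hL1, hL2⟩ := exists_lower (G := G) (x := x) (W := W)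
      (A0 := 3 / 2 * h ^ 2) (by positivity) hW hG (by nlinarith)
    obtain ⟨p, hp⟩ : ∃ p : ℝ, p = (x i ^ 2 + ∑ j ∈ L, x j ^ 2) / h := ⟨_, rfl⟩
    have hph : p * h = x i ^ 2 + ∑ j ∈ L, x j ^ 2 := by rw [hp]; field_simp
    have hL0 : (0 : ℝ) ≤ ((L.image x).card : ℝ) * W ^ 2 := by positivity
    have hp0 : 0 < p := by
      rw [hp]
      apply div_pos _ hh
      nlinarith
    have hp1 : 3 * h ≤ 2 * p := by
      have h4 : 3 * h * h ≤ 2 * p * h := by
        have : 2 * p * h = 2 * (p * h) := by ring
        rw [this, hph]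
        nlinarith
      exact le_of_mul_le_mul_right h4 hh
    have eps : (s * p) / (s * h) = p / h := by field_simp
    have hpp : p / h * h = p := by field_simp
    have hsd := Finset.sum_sdiff (f := fun i => x i ^ 2) hLG
    have hcardR : ((L.image x).card : ℝ) * W ^ 2 + (((G \ L).image x).card : ℝ) * W ^ 2 ≤
        ((G.image x).card : ℝ) * W ^ 2 + W ^ 2 := by
      have : ((L.image x).card : ℝ) + (((G \ L).image x).card : ℝ) ≤
          ((G.image x).card : ℝ) + 1 := by exact_mod_cast hcard
      nlinarith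
    have hU : UU' (fun i : L => x i) (h / 2) := UU_batch hW L (fun i hi => hG i (hLG hi))
      (by nlinarith) (by linarith) (by nlinarith)
    have e1 : ∑ i : L, x i ^ 2 = ∑ i ∈ L, x i ^ 2 := Finset.sum_coe_sort L (fun i => x i ^ 2)
    have hT := T_insert (w := w) (fun h => hiG (hLG h)) (cell_one (w := fun i : L => w i)
      (x := fun i : L => x i) (v := w i) hs hxi.1 hxi.2 hp1 (by rw [e1]; exact hph) hU
      (hw i).le (fun i => hw i))
    have hZ := ih (G \ L) b (δ + p / h) (hAG.mono_right Finset.sdiff_subset) hA'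
      (fun i hi => hG i (Finset.mem_sdiff.1 hi).1) (by positivity) (by
        have e2 : (2 * b - (δ + p / h) * h) * h = (2 * b - δ * h) * h - p * h := by
          rw [add_mul, hpp]; ring
        rw [e2, hph, ← hsum, ← hsd]
        ring) (by
        have e2 : (b - (δ + p / h) * h) * h = (b - δ * h) * h - p * h := by
          rw [add_mul, hpp]; ring
        rw [e2, hph]
        nlinarith)
    rw [← eps] at hT hZ
    have h5 := Zt_cut (b := s * b) (δ := δ) (H := s * h) (p := s * p) (E := s * √(p * h))
      (by positivity) (by positivity) hδ (by positivity)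
      (by rw [mul_pow, Real.sq_sqrt (by positivity)]; ring) hT hZ
    have hdis2 : Disjoint (insert i L) (A ∪ (G \ L)) := by
      rw [Finset.disjoint_left]
      intro j hj hj2
      rw [Finset.mem_insert] at hj
      rw [Finset.mem_union, Finset.mem_sdiff] at hj2
      rcases hj with rfl | hj
      · rcases hj2 with h | h
        · exact hi h
        · exact hiG h.1
      · rcases hj2 with h | h
        · exact (Finset.disjoint_left.1 hAG h) (hLG hj)
        · exact h.2 hj
    have h6 := Emp_union hdis2 h5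
    have e3 : insert i L ∪ (A ∪ (G \ L)) = insert i A ∪ G := by
      ext j
      simp only [Finset.mem_union, Finset.mem_insert, Finset.mem_sdiff]
      constructor
      · rintro ((h | h) | h | h)
        · exact Or.inl (Or.inl h)
        · exact Or.inr (hLG h)
        · exact Or.inl (Or.inr h)
        · exact Or.inr h.1
      · rintro ((h | h) | h)
        · exact Or.inl (Or.inl h)
        · exact Or.inr (Or.inl h)
        · by_cases hj : j ∈ L
          · exact Or.inl (Or.inr hj)
          · exact Or.inr (Or.inr ⟨h, hj⟩)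
    rw [e3] at h6
    exact h6

end Pool.Agent.K6.H90.ST
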