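import Pool.Agent.K6.H90.ST.Good

/-! The strip theorem for integral multiplicities, with no condition on their number. -/

set_option autoImplicit false

namespace Pool.Agent.K6.H90.ST

open Finset Pool.Agent.TH176.Nag Pool.Agent.TH146.MN

variable {ι : Type} [DecidableEq ι]

/-- a group of equal points in a triangle, together with a batch of blocks -/
theorem T_group {B k t : ℕ} {u w : ι → ℕ} {s : ℝ} {K L : Finset ι} (hs : 0 < s) (hB : 2 ≤ B)
    (hdis : Disjoint K L) (hk : K.card = k) (hk1 : 1 ≤ k) (hkB : k < B)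
    (ht : 1 ≤ t ∧ 2 * t ≤ B) (hKt : ∀ i ∈ K, u i = t) (hL : ∀ i ∈ L, 1 ≤ u i ∧ 2 * u i ≤ B)
    (hQ : QD B u L) (hm : (B : ℝ) ^ 3 + 4 * (B : ℝ) ^ 2 ≤ 4 * ∑ i ∈ L, (u i : ℝ) ^ 2)
    (hw : ∀ i, s * (u i : ℝ) < w i) {p : ℝ} (hp : p * B = ∑ i ∈ K ∪ L, (u i : ℝ) ^ 2) :
    Pool.Agent.TH366.RC.T (fun i : ↥(K ∪ L) => w i) (s * √(p * B)) 0 (p / B) := by
  have hBR : (2 : ℝ) ≤ B := by exact_mod_cast hB
  have hB0 : (0 : ℝ) < B := by linarith
  have htR : (1 : ℝ) ≤ t := by exact_mod_cast ht.1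
  have ht2 : 2 * (t : ℝ) ≤ B := by exact_mod_cast ht.2
  have hkR : (1 : ℝ) ≤ k := by exact_mod_cast hk1
  have hkB' : (k : ℝ) ≤ (B : ℝ) := by exact_mod_cast hkB.le
  obtain ⟨mL, hmL⟩ : ∃ m : ℝ, m = ∑ i ∈ L, (u i : ℝ) ^ 2 := ⟨_, rfl⟩
  have hmK : ∑ i ∈ K, (u i : ℝ) ^ 2 = k * (t : ℝ) ^ 2 := by
    rw [Finset.sum_congr rfl fun j hj => by rw [hKt j hj], Finset.sum_const, hk, nsmul_eq_mul]
  rw [Finset.sum_union hdis, hmK] at hp
  rw [← hmL] at hp hm
  have hB3 : 0 < (B : ℝ) ^ 3 := by positivity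
  have hB2 : 2 * (B : ℝ) ≤ (B : ℝ) ^ 2 := by nlinarith
  have hmL0 : 0 < mL := by nlinarith
  have hkt : 0 ≤ k * (t : ℝ) ^ 2 := by positivity
  have hp8 : (B : ℝ) ^ 2 + 4 * B ≤ 4 * p := by
    have h1 : ((B : ℝ) ^ 2 + 4 * B) * B ≤ 4 * p * B := by
      have : 4 * p * B = 4 * (p * B) := by ring
      rw [this, hp]
      nlinarith
    exact le_of_mul_le_mul_right h1 hB0
  have hLne : L.Nonempty := by
    rw [Finset.nonempty_iff_ne_empty]
    intro h
    rw [h, Finset.sum_empty] at hmL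
    linarith
  have hU := UU_good (B := B) (g := 2) (by omega) (by norm_num) L.card L rfl hLne hL hQ
  have hU' : UU' (fun i : L => (u i : ℝ)) ((B : ℝ) / 2) := by exact_mod_cast hU
  have e1 : ∑ i : L, (u i : ℝ) ^ 2 = mL := by
    rw [hmL]; exact Finset.sum_coe_sort L (fun i => (u i : ℝ) ^ 2)
  obtain ⟨e⟩ : Nonempty (Fin k ≃ K) := ⟨(Finset.equivFinOfCardEq hk).symm⟩
  have hT := cell_group (x := fun i : L => (u i : ℝ)) (t := t) (h := B) (p := p) (s := s) hk1
    (v := fun j => w (e j)) (w := fun i : L => w i) hs (by linarith) ht2 (by nlinarith) ?_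
    (by rw [e1]; exact hp) (by rw [e1]; exact hmL0) hU' ?_ (fun i => hw i)
  · intro α
    refine Emp_union hdis ?_
    have h1 := Pool.Agent.TH366.RC.Emp_reindex (Equiv.sumCongr e.symm (Equiv.refl L)) (hT α)
    have e2 : (fun j => (Sum.elim (fun j => w (e j)) fun i : L => w i)
        ((Equiv.sumCongr e.symm (Equiv.refl L)) j)) =
        Sum.elim (fun i : K => w i) (fun i : L => w i) := by
      funext j
      rcases j with j | j
      · simp
      · simp
    rw [e2] at h1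
    exact h1
  · have h2 : (k : ℝ) * t ≤ (B : ℝ) * t := mul_le_mul_of_nonneg_right hkB' (by linarith)
    have h3 : 2 * ((B : ℝ) * t) ≤ (B : ℝ) ^ 2 := by
      have := mul_le_mul_of_nonneg_left ht2 hB0.le
      nlinarith
    nlinarith
  · intro j
    have h4 := hw (e j)
    rw [hKt _ (e j).2] at h4
    exact h4.le

/-- the groups one after another -/
theorem stage {B : ℕ} {u w : ι → ℕ} {s b : ℝ} (hs : 0 < s) (hB : 2 ≤ B)
    (hw : ∀ i, s * (u i : ℝ) < w i) (K : ℕ → Finset ι) (V : Finset ℕ) :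
    ∀ (R : Finset ι) (b' : ℝ),
      (∀ t ∈ V, (1 ≤ t ∧ 2 * t ≤ B) ∧ (K t).Nonempty ∧ (K t).card < B ∧
        (∀ i ∈ K t, u i = t) ∧ Disjoint (K t) R) →
      (∀ i ∈ R, 1 ≤ u i ∧ 2 * u i ≤ B) → QD B u R → 3 * (B : ℝ) ≤ 2 * (b - b') →
      ∑ i ∈ V.biUnion K, (u i : ℝ) ^ 2 + ∑ i ∈ R, (u i : ℝ) ^ 2 = (b + b') * B →
      (V.card : ℝ) * (3 * (B : ℝ) ^ 3 + 4 * (B : ℝ) ^ 2) ≤ 4 * (b' * B) →
      Emp (fun i : ↥(V.biUnion K ∪ R) => w i) (Tp (s * b) (s * b') (s * B)) := by
  have hBR : (2 : ℝ) ≤ B := by exact_mod_cast hB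
  have hB0 : (0 : ℝ) < B := by linarith
  have hB3 : 0 < (B : ℝ) ^ 3 := by positivity
  have hB2 : 0 < (B : ℝ) ^ 2 := by positivity
  induction V using Finset.induction_on with
  | empty =>
    intro R b' _ hR hQ hbb hsum hroom
    rw [Finset.biUnion_empty, Finset.sum_empty, zero_add] at hsum
    rw [Finset.biUnion_empty, Finset.empty_union]
    rw [Finset.card_empty, Nat.cast_zero, zero_mul] at hroom
    have hb'0 : 0 ≤ b' := by
      by_contra hcon
      push Not at hcon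
      nlinarith
    have hmR : 0 < ∑ i ∈ R, (u i : ℝ) ^ 2 := by
      rw [hsum]
      have : 0 < b + b' := by linarith
      positivity
    have hRne : R.Nonempty := by
      rw [Finset.nonempty_iff_ne_empty]
      intro h
      rw [h, Finset.sum_empty] at hmR
      exact lt_irrefl _ hmR
    have hU := UU_good (B := B) (g := 2) (by omega) (by norm_num) R.card R rfl hRne hR hQ
    have hU' : UU' (fun i : R => (u i : ℝ)) ((B : ℝ) / 2) := by exact_mod_cast hU
    have e1 : ∑ i : R, (u i : ℝ) ^ 2 = ∑ i ∈ R, (u i : ℝ) ^ 2 :=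
      Finset.sum_coe_sort R (fun i => (u i : ℝ) ^ 2)
    have hδ : (b - b') / B * B = b - b' := by field_simp
    have h1 := trap_small (x := fun i : R => (u i : ℝ)) (b := b) (δ := (b - b') / B) (h := B)
      (s := s) (w := fun i : R => w i) (by
        have : 3 / 2 ≤ (b - b') / B := by
          rw [le_div_iff₀ hB0]; linarith
        linarith) hB0 (by rw [hδ]; linarith) (by rw [e1, hsum, hδ]; ring) hU' hs (fun i => hw i)
    unfold Tp
    have e2 : (s * b - s * b') / (s * B) = (b - b') / B := by field_simp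
    rw [e2]
    exact h1
  | insert t V htV ih =>
    intro R b' hV hR hQ hbb hsum hroom
    rw [Finset.card_insert_of_notMem htV] at hroom
    push_cast at hroom
    obtain ⟨⟨ht1, ht2⟩, hKne, hKc, hKt, hKR⟩ := hV t (Finset.mem_insert_self t V)
    have hV' : ∀ t' ∈ V, (1 ≤ t' ∧ 2 * t' ≤ B) ∧ (K t').Nonempty ∧ (K t').card < B ∧
        (∀ i ∈ K t', u i = t') ∧ Disjoint (K t') R := fun t' ht' =>
      hV t' (Finset.mem_insert_of_mem ht')
    have hKV : Disjoint (K t) (V.biUnion K) := by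
      rw [Finset.disjoint_left]
      intro i hi hi2
      rw [Finset.mem_biUnion] at hi2
      obtain ⟨t', ht', hi'⟩ := hi2
      have e1 := hKt i hi
      have e2 := (hV' t' ht').2.2.2.1 i hi'
      rw [e1] at e2
      exact htV (by rw [e2]; exact ht')
    have hVR : Disjoint (V.biUnion K) R := by
      rw [Finset.disjoint_biUnion_left]
      intro t' ht'
      exact (hV' t' ht').2.2.2.2
    rw [Finset.biUnion_insert, Finset.sum_union hKV] at hsum
    -- masses
    have hmass : ∀ t' ∈ insert t V, 4 * ∑ i ∈ K t', (u i : ℝ) ^ 2 ≤ (B : ℝ) ^ 3 := by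
      intro t' ht'
      obtain ⟨⟨a1, a2⟩, a3, a4, a5, a6⟩ := hV t' ht'
      rw [Finset.sum_congr rfl fun j hj => by rw [a5 j hj], Finset.sum_const, nsmul_eq_mul]
      have c1 : ((K t').card : ℝ) ≤ (B : ℝ) := by exact_mod_cast a4.le
      have c2 : 2 * (t' : ℝ) ≤ B := by exact_mod_cast a2
      have c3 : (0 : ℝ) ≤ t' := Nat.cast_nonneg _
      have c4 : (2 * (t' : ℝ)) ^ 2 ≤ (B : ℝ) ^ 2 := pow_le_pow_left₀ (by positivity) c2 2
      have c5 : ((K t').card : ℝ) * (2 * (t' : ℝ)) ^ 2 ≤ (B : ℝ) * (B : ℝ) ^ 2 :=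
        mul_le_mul c1 c4 (sq_nonneg _) hB0.le
      nlinarith
    have hmassV : 4 * ∑ i ∈ V.biUnion K, (u i : ℝ) ^ 2 ≤ (V.card : ℝ) * (B : ℝ) ^ 3 := by
      have h1 : ∑ i ∈ V.biUnion K, (u i : ℝ) ^ 2 ≤ ∑ t' ∈ V, ∑ i ∈ K t', (u i : ℝ) ^ 2 := by
        refine le_of_eq (Finset.sum_biUnion ?_)
        intro t1 h1 t2 h2 h12
        simp only [Function.onFun]
        rw [Finset.disjoint_left]
        intro i hi hi2
        have e1 := (hV' t1 h1).2.2.2.1 i hi
        have e2 := (hV' t2 h2).2.2.2.1 i hi2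
        exact h12 (by rw [← e1, ← e2])
      have h2 : ∑ t' ∈ V, 4 * ∑ i ∈ K t', (u i : ℝ) ^ 2 ≤ V.card • ((B : ℝ) ^ 3) :=
        Finset.sum_le_card_nsmul _ _ _ fun t' ht' => hmass t' (Finset.mem_insert_of_mem ht')
      rw [nsmul_eq_mul, ← Finset.mul_sum] at h2
      linarith
    have hmt := hmass t (Finset.mem_insert_self t V)
    have hV0 : (0 : ℝ) ≤ (V.card : ℝ) * (B : ℝ) ^ 3 := by positivity
    have hbb2 : 2 * (b' * B) ≤ (b + b') * B := by nlinarith
    have hV2 : (0 : ℝ) ≤ (V.card : ℝ) * (B : ℝ) ^ 2 := by positivity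
    have hmR : (B : ℝ) ^ 3 + 4 * (B : ℝ) ^ 2 ≤ 4 * ∑ i ∈ R, (u i : ℝ) ^ 2 := by nlinarith
    obtain ⟨L, hLR, hLQ, hL1, hL2⟩ := donor (B := B) (by omega) (u := u)
      (D0 := ((B : ℝ) ^ 3 + 4 * (B : ℝ) ^ 2) / 4) (by positivity) hR R.card R rfl subset_rfl hQ (by linarith)
    have hKL : Disjoint (K t) L := hKR.mono_right hLR
    obtain ⟨p, hp⟩ : ∃ p : ℝ, p = (∑ i ∈ K t ∪ L, (u i : ℝ) ^ 2) / B := ⟨_, rfl⟩
    have hpB : p * B = ∑ i ∈ K t ∪ L, (u i : ℝ) ^ 2 := by rw [hp]; field_simp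
    have hpB' : p * B = ∑ i ∈ K t, (u i : ℝ) ^ 2 + ∑ i ∈ L, (u i : ℝ) ^ 2 := by
      rw [hpB, Finset.sum_union hKL]
    have hK0 : 0 ≤ ∑ i ∈ K t, (u i : ℝ) ^ 2 := Finset.sum_nonneg fun i _ => by positivity
    have hp0 : 0 < p := by
      have h1 : 0 < p * B := by rw [hpB']; nlinarith
      by_contra hcon
      push Not at hcon
      nlinarith
    have hT := T_group (p := p) hs hB hKL rfl (Finset.card_pos.2 hKne) hKc ⟨ht1, ht2⟩ hKt
      (fun i hi => hR i (hLR hi)) hLQ (by linarith) hw hpB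
    have hsd := Finset.sum_sdiff (f := fun i => (u i : ℝ) ^ 2) hLR
    have hZ := ih (R \ L) (b' - p) (fun t' ht' => by
        obtain ⟨a1, a2, a3, a4, a5⟩ := hV' t' ht'
        exact ⟨a1, a2, a3, a4, a5.mono_right Finset.sdiff_subset⟩)
      (fun i hi => hR i (Finset.mem_sdiff.1 hi).1) (hQ.sdiff hLQ hLR) (by linarith) (by
        have e1 : (b + (b' - p)) * B = (b + b') * B - p * B := by ring
        rw [e1, hpB', ← hsum, ← hsd]
        ring) (by
        have e1 : (b' - p) * B = b' * B - p * B := by ring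
        rw [e1, hpB']
        nlinarith)
    have eps : (s * p) / (s * B) = p / B := by field_simp
    rw [← eps] at hT
    have e3 : s * (b' - p) = s * b' - s * p := by ring
    rw [e3] at hZ
    have h5 := cut_top (b := s * b) (b' := s * b') (H := s * B) (p := s * p)
      (E := s * √(p * B)) (by positivity) (by positivity) (by positivity)
      (by rw [mul_pow, Real.sq_sqrt (by positivity)]; ring) hT hZ
    have hdis2 : Disjoint (K t ∪ L) (V.biUnion K ∪ (R \ L)) := by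
      rw [Finset.disjoint_union_left, Finset.disjoint_union_right, Finset.disjoint_union_right]
      exact ⟨⟨hKV, hKR.mono_right Finset.sdiff_subset⟩, (hVR.mono_right hLR).symm,
        Finset.disjoint_sdiff⟩
    have h6 := Emp_union hdis2 h5
    have e4 : K t ∪ L ∪ (V.biUnion K ∪ (R \ L)) = (insert t V).biUnion K ∪ R := by
      rw [Finset.biUnion_insert]
      ext j
      simp only [Finset.mem_union, Finset.mem_sdiff]
      constructor
      · rintro ((h | h) | h | h)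
        · exact Or.inl (Or.inl h)
        · exact Or.inr (hLR h)
        · exact Or.inl (Or.inr h)
        · exact Or.inr h.1
      · rintro ((h | h) | h)
        · exact Or.inl (Or.inl h)
        · exact Or.inr (Or.inl h)
        · by_cases hj : j ∈ L
          · exact Or.inl (Or.inr hj)
          · exact Or.inr (Or.inr ⟨h, hj⟩)
    rw [e4] at h6
    exact h6

end Pool.Agent.K6.H90.ST
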