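import Pool.Agent.K6.H90.ST.Strip2

/-! The strip theorem for integral multiplicities. -/

set_option autoImplicit false

namespace Pool.Agent.K6.H90.ST

open Finset Pool.Agent.TH176.Nag Pool.Agent.TH146.MN

variable {ι : Type} [DecidableEq ι]

/-- the decomposition into groups and blocks -/
theorem exists_groups (Q : ℕ) (hQ : 0 < Q) (u : ι → ℕ) (U : Finset ι) :
    ∃ (K : ℕ → Finset ι) (V : Finset ℕ) (R : Finset ι), V ⊆ U.image u ∧
      (∀ t ∈ V, (K t).Nonempty ∧ (K t).card < Q ∧ (∀ i ∈ K t, u i = t) ∧ Disjoint (K t) R) ∧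
      QD Q u R ∧ V.biUnion K ∪ R = U ∧ Disjoint (V.biUnion K) R := by
  have h1 : ∀ t : ℕ, ∃ K ⊆ U.filter fun i => u i = t,
      K.card = (U.filter fun i => u i = t).card % Q := fun t =>
    Finset.exists_subset_card_eq (Nat.mod_le _ _)
  choose K hK1 hK2 using h1
  have hKt : ∀ t, ∀ i ∈ K t, i ∈ U ∧ u i = t := fun t i hi => Finset.mem_filter.1 (hK1 t hi)
  obtain ⟨V, hV⟩ : ∃ V : Finset ℕ, V = (U.image u).filter fun t => (K t).Nonempty := ⟨_, rfl⟩
  obtain ⟨R, hR⟩ : ∃ R : Finset ι, R = U \ V.biUnion K := ⟨_, rfl⟩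
  have hVU : V.biUnion K ⊆ U := by
    rw [Finset.biUnion_subset]
    exact fun t _ i hi => (hKt t i hi).1
  have hdis : Disjoint (V.biUnion K) R := by rw [hR]; exact Finset.disjoint_sdiff
  refine ⟨K, V, R, ?_, ?_, ?_, ?_, hdis⟩
  · rw [hV]; exact Finset.filter_subset _ _
  · intro t ht
    refine ⟨?_, ?_, fun i hi => (hKt t i hi).2, ?_⟩
    · rw [hV, Finset.mem_filter] at ht
      exact ht.2
    · rw [hK2]
      exact Nat.mod_lt _ hQ
    · exact hdis.mono_left (Finset.subset_biUnion_of_mem K ht)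
  · intro t
    have e : R.filter (fun i => u i = t) = (U.filter fun i => u i = t) \ K t := by
      ext i
      rw [hR]
      simp only [Finset.mem_filter, Finset.mem_sdiff, Finset.mem_biUnion]
      constructor
      · rintro ⟨⟨h1, h2⟩, h3⟩
        refine ⟨⟨h1, h3⟩, fun h4 => h2 ⟨t, ?_, h4⟩⟩
        rw [hV, Finset.mem_filter, Finset.mem_image]
        exact ⟨⟨i, h1, h3⟩, ⟨i, h4⟩⟩
      · rintro ⟨⟨h1, h3⟩, h4⟩
        refine ⟨⟨h1, ?_⟩, h3⟩
        rintro ⟨t', -, h5⟩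
        have := (hKt t' i h5).2
        rw [h3] at this
        rw [← this] at h5
        exact h4 h5
    rw [e, Finset.card_sdiff_of_subset (hK1 t), hK2]
    exact Nat.dvd_sub_mod _
  · rw [hR]
    exact Finset.union_sdiff_of_subset hVU

theorem mass_groups {B : ℕ} {u : ι → ℕ} {K : ℕ → Finset ι} {V : Finset ℕ}
    (hV : ∀ t ∈ V, 2 * t ≤ B ∧ (K t).card < B ∧ ∀ i ∈ K t, u i = t) :
    4 * ∑ i ∈ V.biUnion K, (u i : ℝ) ^ 2 ≤ (V.card : ℝ) * (B : ℝ) ^ 3 := by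
  have hmass : ∀ t' ∈ V, 4 * ∑ i ∈ K t', (u i : ℝ) ^ 2 ≤ (B : ℝ) ^ 3 := by
    intro t' ht'
    obtain ⟨a2, a4, a5⟩ := hV t' ht'
    rw [Finset.sum_congr rfl fun j hj => by rw [a5 j hj], Finset.sum_const, nsmul_eq_mul]
    have c1 : ((K t').card : ℝ) ≤ (B : ℝ) := by exact_mod_cast a4.le
    have c2 : 2 * (t' : ℝ) ≤ B := by exact_mod_cast a2
    have c3 : (0 : ℝ) ≤ t' := Nat.cast_nonneg _
    have c4 : (2 * (t' : ℝ)) ^ 2 ≤ (B : ℝ) ^ 2 := pow_le_pow_left₀ (by positivity) c2 2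
    have c5 : ((K t').card : ℝ) * (2 * (t' : ℝ)) ^ 2 ≤ (B : ℝ) * (B : ℝ) ^ 2 :=
      mul_le_mul c1 c4 (sq_nonneg _) (Nat.cast_nonneg _)
    nlinarith
  have h1 : ∑ i ∈ V.biUnion K, (u i : ℝ) ^ 2 ≤ ∑ t' ∈ V, ∑ i ∈ K t', (u i : ℝ) ^ 2 := by
    refine le_of_eq (Finset.sum_biUnion ?_)
    intro t1 h1 t2 h2 h12
    simp only [Function.onFun]
    rw [Finset.disjoint_left]
    intro i hi hi2
    have e1 := (hV t1 h1).2.2 i hi
    have e2 := (hV t2 h2).2.2 i hi2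
    exact h12 (by rw [← e1, ← e2])
  have h2 : ∑ t' ∈ V, 4 * ∑ i ∈ K t', (u i : ℝ) ^ 2 ≤ V.card • ((B : ℝ) ^ 3) :=
    Finset.sum_le_card_nsmul _ _ _ fun t' ht' => hmass t' ht'
  rw [nsmul_eq_mul, ← Finset.mul_sum] at h2
  linarith

/-- the strip theorem -/
theorem int_strip {B : ℕ} {u w : ι → ℕ} {s b b' : ℝ} (hs : 0 < s) (hB : 2 ≤ B)
    (hw : ∀ i, s * (u i : ℝ) < w i) (U : Finset ι) (hU : ∀ i ∈ U, 1 ≤ u i ∧ 2 * u i ≤ B)
    (hbb : b' ≤ b) (hsum : ∑ i ∈ U, (u i : ℝ) ^ 2 = (b + b') * B)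
    (hroom : (((U.image u).card : ℝ) + 1) * (3 * (B : ℝ) ^ 3 + 4 * (B : ℝ) ^ 2) ≤
      4 * (b' * B)) :
    Emp (fun i : U => w i) (Tp (s * b) (s * b') (s * B)) := by
  have hBR : (2 : ℝ) ≤ B := by exact_mod_cast hB
  have hB0 : (0 : ℝ) < B := by linarith
  have hB3 : 0 < (B : ℝ) ^ 3 := by positivity
  have hB2 : 0 < (B : ℝ) ^ 2 := by positivity
  have hB22 : 2 * (B : ℝ) ≤ (B : ℝ) ^ 2 := by nlinarith
  obtain ⟨K, V, R, hVU, hV, hQ, hun, hdis⟩ := exists_groups B (by omega) u U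
  have hRU : R ⊆ U := by rw [← hun]; exact Finset.subset_union_right
  have hKU : ∀ t ∈ V, K t ⊆ U := fun t ht => by
    rw [← hun]
    exact (Finset.subset_biUnion_of_mem K ht).trans Finset.subset_union_left
  have hVt : ∀ t ∈ V, 1 ≤ t ∧ 2 * t ≤ B := fun t ht => by
    obtain ⟨⟨i, hi⟩, -, h3, -⟩ := hV t ht
    have := hU i (hKU t ht hi)
    rwa [h3 i hi] at this
  have hVc : (V.card : ℝ) ≤ (U.image u).card := by exact_mod_cast Finset.card_le_card hVU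
  have hmV := mass_groups (u := u) (K := K) (V := V) fun t ht =>
    ⟨(hVt t ht).2, (hV t ht).2.1, (hV t ht).2.2.1⟩
  have hsum' := hsum
  rw [← hun, Finset.sum_union hdis] at hsum'
  obtain ⟨r, hr⟩ : ∃ r : ℝ, r = (U.image u).card := ⟨_, rfl⟩
  rw [← hr] at hroom hVc
  have hVr : (V.card : ℝ) * (B : ℝ) ^ 3 ≤ r * (B : ℝ) ^ 3 := mul_le_mul_of_nonneg_right hVc hB3.le
  have hVr2 : (V.card : ℝ) * (B : ℝ) ^ 2 ≤ r * (B : ℝ) ^ 2 := mul_le_mul_of_nonneg_right hVc hB2.le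
  have hV0 : (0 : ℝ) ≤ (V.card : ℝ) * (B : ℝ) ^ 3 := by positivity
  have hV2 : (0 : ℝ) ≤ (V.card : ℝ) * (B : ℝ) ^ 2 := by positivity
  have hbb2 : 2 * (b' * B) ≤ (b + b') * B := by nlinarith
  have hmR : (B : ℝ) ^ 3 + 4 * (B : ℝ) ^ 2 ≤ 4 * ∑ i ∈ R, (u i : ℝ) ^ 2 := by nlinarith
  have hRg : ∀ i ∈ R, 1 ≤ u i ∧ 2 * u i ≤ B := fun i hi => hU i (hRU hi)
  obtain ⟨L, hLR, hLQ, hL1, hL2⟩ := donor (B := B) (by omega) (u := u)
    (D0 := ((B : ℝ) ^ 3 + 4 * (B : ℝ) ^ 2) / 4) (by positivity) hRg R.card R rfl subset_rfl hQ (by linarith)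
  obtain ⟨p, hp⟩ : ∃ p : ℝ, p = (∑ i ∈ L, (u i : ℝ) ^ 2) / B := ⟨_, rfl⟩
  have hpB : p * B = ∑ i ∈ L, (u i : ℝ) ^ 2 := by rw [hp]; field_simp
  have hp0 : 0 < p := by
    have h1 : 0 < p * B := by rw [hpB]; nlinarith
    by_contra hcon
    push Not at hcon
    nlinarith
  have hLne : L.Nonempty := by
    rw [Finset.nonempty_iff_ne_empty]
    intro h
    rw [h, Finset.sum_empty] at hL1
    nlinarith
  have hUL := UU_good (B := B) (g := 1) (by omega) le_rfl L.card L rfl hLne (fun i hi => by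
    have := hRg i (hLR hi)
    omega) hLQ
  rw [Nat.cast_one, div_one] at hUL
  have e1 : ∑ i : L, (u i : ℝ) ^ 2 = ∑ i ∈ L, (u i : ℝ) ^ 2 :=
    Finset.sum_coe_sort L (fun i => (u i : ℝ) ^ 2)
  have hT := cell_zero (w := fun i : L => w i) (x := fun i : L => (u i : ℝ)) hs hB0 (p := p)
    (by rw [e1]; exact hpB) hUL (fun i => hw i)
  have hsd := Finset.sum_sdiff (f := fun i => (u i : ℝ) ^ 2) hLR
  have hp8 : 3 * (B : ℝ) ≤ 2 * p := by
    have h1 : 3 * (B : ℝ) * B ≤ 2 * p * B := by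
      have : 2 * p * B = 2 * (p * B) := by ring
      rw [this, hpB]
      nlinarith
    exact le_of_mul_le_mul_right h1 hB0
  have hZ := stage (b := b) hs hB hw K V (R \ L) (b' - p) (fun t ht => by
      obtain ⟨a1, a2, a3, a4⟩ := hV t ht
      exact ⟨hVt t ht, a1, a2, a3, a4.mono_right Finset.sdiff_subset⟩)
    (fun i hi => hRg i (Finset.mem_sdiff.1 hi).1) (hQ.sdiff hLQ hLR) (by linarith) (by
      have e1 : (b + (b' - p)) * B = (b + b') * B - p * B := by ring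
      rw [e1, hpB, ← hsum', ← hsd]
      ring) (by
      have e1 : (b' - p) * B = b' * B - p * B := by ring
      rw [e1, hpB]
      nlinarith)
  have eps : (s * p) / (s * B) = p / B := by field_simp
  rw [← eps] at hT
  have e3 : s * (b' - p) = s * b' - s * p := by ring
  rw [e3] at hZ
  have h5 := cut_top (b := s * b) (b' := s * b') (H := s * B) (p := s * p)
    (E := s * √(p * B)) (by positivity) (by positivity) (by positivity)
    (by rw [mul_pow, Real.sq_sqrt (by positivity)]; ring) hT hZ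
  have hdis2 : Disjoint L (V.biUnion K ∪ (R \ L)) := by
    rw [Finset.disjoint_union_right]
    exact ⟨(hdis.mono_right hLR).symm, Finset.disjoint_sdiff⟩
  have h6 := Emp_union hdis2 h5
  have e4 : L ∪ (V.biUnion K ∪ (R \ L)) = U := by
    rw [← hun]
    ext j
    simp only [Finset.mem_union, Finset.mem_sdiff]
    constructor
    · rintro (h | h | h)
      · exact Or.inr (hLR h)
      · exact Or.inl h
      · exact Or.inr h.1
    · rintro (h | h)
      · exact Or.inr (Or.inl h)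
      · by_cases hj : j ∈ L
        · exact Or.inl hj
        · exact Or.inr (Or.inr ⟨h, hj⟩)
  rw [e4] at h6
  exact h6

end Pool.Agent.K6.H90.ST
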